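import Mathlib

/-!
Betweenness of complements of triangle-free graphs.
-/

set_option autoImplicit false

namespace Pool.Agent.Q264.Betw

open Finset

variable {V : Type}

/-- The number of shortest paths from `s` to `t` (walks whose length is the distance). -/
noncomputable def sigma (G : SimpleGraph V) (s t : V) : ℕ :=
  {p : G.Walk s t | p.length = G.dist s t}.ncard

/-- The number of shortest paths from `s` to `t` through `v`. -/
noncomputable def sigmaThrough (G : SimpleGraph V) (s t v : V) : ℕ :=
  {p : G.Walk s t | p.length = G.dist s t ∧ v ∈ p.support}.ncard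

open Classical in
/-- The betweenness of `v`: the sum over the unordered pairs of distinct vertices `s, t` different
from `v` of the proportion of the shortest paths from `s` to `t` that pass through `v`, written as
half of the sum over the ordered pairs. -/
noncomputable def betw [Fintype V] (G : SimpleGraph V) (v : V) : ℚ :=
  (1 / 2) * ∑ s : V, ∑ t : V, if s ≠ t ∧ s ≠ v ∧ t ≠ v then
    (sigmaThrough G s t v : ℚ) / (sigma G s t : ℚ) else 0

/-- the walk through a common neighbour -/
def wk (G : SimpleGraph V) (s t : V) (w : {w : V // G.Adj s w ∧ G.Adj w t}) : G.Walk s t :=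
  SimpleGraph.Walk.cons w.2.1 (SimpleGraph.Walk.cons w.2.2 SimpleGraph.Walk.nil)

lemma wk_support (G : SimpleGraph V) (s t : V) (w : {w : V // G.Adj s w ∧ G.Adj w t}) :
    (wk G s t w).support = [s, w.1, t] := by
  simp [wk]

lemma wk_inj (G : SimpleGraph V) (s t : V) : Function.Injective (wk G s t) := by
  intro w w' h
  have h1 := congrArg SimpleGraph.Walk.support h
  rw [wk_support, wk_support] at h1
  simp only [List.cons.injEq, and_true, true_and] at h1
  exact Subtype.ext h1

lemma wk_surj (G : SimpleGraph V) (s t : V) (p : G.Walk s t) (hp : p.length = 2) :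
    ∃ w, wk G s t w = p := by
  cases p with
  | nil => simp at hp
  | cons h1 q =>
    cases q with
    | nil => simp at hp
    | cons h2 r =>
      cases r with
      | nil => exact ⟨⟨_, h1, h2⟩, rfl⟩
      | cons h3 r' => simp at hp

lemma sigma_two (G : SimpleGraph V) [Fintype V] (s t : V) (hd : G.dist s t = 2) :
    sigma G s t = {w : V | G.Adj s w ∧ G.Adj w t}.ncard := by
  unfold sigma
  rw [hd]
  have : {p : G.Walk s t | p.length = 2} = Set.range (wk G s t) := by
    ext p
    constructor
    · intro hp
      obtain ⟨w, hw⟩ := wk_surj G s t p hp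
      exact ⟨w, hw⟩
    · rintro ⟨w, rfl⟩
      simp [wk]
  rw [this, ← Set.image_univ, Set.ncard_image_of_injective _ (wk_inj G s t), Set.ncard_univ]
  rfl

lemma through_two (G : SimpleGraph V) (s t v : V) (hd : G.dist s t = 2) (hs : v ≠ s)
    (ht : v ≠ t) (hv : G.Adj s v ∧ G.Adj v t) : sigmaThrough G s t v = 1 := by
  unfold sigmaThrough
  rw [hd, Set.ncard_eq_one]
  refine ⟨wk G s t ⟨v, hv⟩, ?_⟩
  ext p
  simp only [Set.mem_ofPred_eq, Set.mem_singleton_iff]
  constructor
  · rintro ⟨hp, hvp⟩
    obtain ⟨w, rfl⟩ := wk_surj G s t p hp
    rw [wk_support] at hvp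
    have hw : v = w.1 := by
      simp only [List.mem_cons, List.not_mem_nil, or_false] at hvp
      rcases hvp with h | h | h
      · exact absurd h hs
      · exact h
      · exact absurd h ht
    congr 1
    exact Subtype.ext hw.symm
  · rintro rfl
    refine ⟨by simp [wk], ?_⟩
    rw [wk_support]
    simp

lemma through_two_not (G : SimpleGraph V) (s t v : V) (hd : G.dist s t = 2) (hs : v ≠ s)
    (ht : v ≠ t) (hv : ¬ (G.Adj s v ∧ G.Adj v t)) : sigmaThrough G s t v = 0 := by
  unfold sigmaThrough
  rw [hd]
  have : {p : G.Walk s t | p.length = 2 ∧ v ∈ p.support} = ∅ := by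
    ext p
    simp only [Set.mem_ofPred_eq, Set.mem_empty_iff_false, iff_false, not_and]
    intro hp hvp
    obtain ⟨w, rfl⟩ := wk_surj G s t p hp
    rw [wk_support] at hvp
    have hw : v = w.1 := by
      simp only [List.mem_cons, List.not_mem_nil, or_false] at hvp
      rcases hvp with h | h | h
      · exact absurd h hs
      · exact h
      · exact absurd h ht
    exact hv (hw ▸ w.2)
  rw [this, Set.ncard_empty]

lemma through_one (G : SimpleGraph V) (s t v : V) (hd : G.dist s t = 1) (hs : v ≠ s)
    (ht : v ≠ t) : sigmaThrough G s t v = 0 := by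
  unfold sigmaThrough
  rw [hd]
  have : {p : G.Walk s t | p.length = 1 ∧ v ∈ p.support} = ∅ := by
    ext p
    simp only [Set.mem_ofPred_eq, Set.mem_empty_iff_false, iff_false, not_and]
    intro hp hvp
    cases p with
    | nil => simp at hp
    | cons h1 q =>
      cases q with
      | nil =>
        simp only [SimpleGraph.Walk.support_cons, SimpleGraph.Walk.support_nil, List.mem_cons,
          List.not_mem_nil, or_false] at hvp
        rcases hvp with h | h
        · exact hs h
        · exact ht h
      | cons h2 r => simp at hp
  rw [this, Set.ncard_empty]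

end Pool.Agent.Q264.Betw
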