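import Pool.Agent.Q264.Betw

/-!
The betweenness in the complement of a triangle-free graph.
-/

set_option autoImplicit false

namespace Pool.Agent.Q264.Betw

open Finset Classical

variable {V : Type} [Fintype V]

/-- standing assumptions on the complement -/
structure Good (C : SimpleGraph V) : Prop where
  tri : ∀ a b c, C.Adj a b → C.Adj b c → ¬ C.Adj a c
  big : ∀ s t, C.Adj s t → C.degree s + C.degree t < Fintype.card V

variable {C : SimpleGraph V}

lemma common_ncard (h : Good C) {s t : V} (hst : C.Adj s t) :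
    {w : V | Cᶜ.Adj s w ∧ Cᶜ.Adj w t}.ncard + (C.degree s + C.degree t) = Fintype.card V := by
  have h1 : {w : V | Cᶜ.Adj s w ∧ Cᶜ.Adj w t} =
      (((C.neighborFinset s ∪ C.neighborFinset t)ᶜ : Finset V) : Set V) := by
    ext w
    simp only [Set.mem_ofPred_eq, SimpleGraph.compl_adj, coe_compl, coe_union, Set.mem_compl_iff,
      Set.mem_union, mem_coe, SimpleGraph.mem_neighborFinset, not_or]
    constructor
    · rintro ⟨⟨_, h2⟩, _, h4⟩
      exact ⟨h2, fun h5 => h4 h5.symm⟩
    · rintro ⟨h2, h3⟩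
      refine ⟨⟨?_, h2⟩, ?_, fun h5 => h3 h5.symm⟩
      · rintro rfl
        exact h3 hst.symm
      · rintro rfl
        exact h2 hst
  rw [h1, Set.ncard_coe_finset]
  have h2 : Disjoint (C.neighborFinset s) (C.neighborFinset t) := by
    rw [disjoint_left]
    intro w hw hw2
    rw [SimpleGraph.mem_neighborFinset] at hw hw2
    exact h.tri s w t hw hw2.symm hst
  rw [← SimpleGraph.card_neighborFinset_eq_degree, ← SimpleGraph.card_neighborFinset_eq_degree,
    ← card_union_of_disjoint h2]
  exact card_compl_add_card _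

lemma common_exists (h : Good C) {s t : V} (hst : C.Adj s t) : ∃ w, Cᶜ.Adj s w ∧ Cᶜ.Adj w t := by
  have h1 := common_ncard h hst
  have h2 := h.big s t hst
  have h3 : {w : V | Cᶜ.Adj s w ∧ Cᶜ.Adj w t}.ncard ≠ 0 := by omega
  obtain ⟨w, hw⟩ := Set.nonempty_of_ncard_ne_zero h3
  exact ⟨w, hw⟩

lemma reach (h : Good C) (s t : V) : Cᶜ.Reachable s t := by
  by_cases hst : s = t
  · rw [hst]
  · by_cases hc : C.Adj s t
    · obtain ⟨w, h1, h2⟩ := common_exists h hc
      exact h1.reachable.trans h2.reachable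
    · exact SimpleGraph.Adj.reachable (by rw [SimpleGraph.compl_adj]; exact ⟨hst, hc⟩)

lemma dist_two (h : Good C) {s t : V} (hst : C.Adj s t) : Cᶜ.dist s t = 2 := by
  obtain ⟨w, h1, h2⟩ := common_exists h hst
  have hle : Cᶜ.dist s t ≤ 2 := by
    have := SimpleGraph.dist_le (SimpleGraph.Walk.cons h1 (SimpleGraph.Walk.cons h2
      SimpleGraph.Walk.nil))
    simpa using this
  have h0 : Cᶜ.dist s t ≠ 0 := by
    intro h0
    rw [SimpleGraph.Reachable.dist_eq_zero_iff (reach h s t)] at h0
    exact hst.ne h0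
  have h1' : Cᶜ.dist s t ≠ 1 := by
    intro h1'
    rw [SimpleGraph.dist_eq_one_iff_adj, SimpleGraph.compl_adj] at h1'
    exact h1'.2 hst
  omega

/-- the contribution of a pair -/
lemma term (h : Good C) (ω : V → ℚ)
    (hω : ∀ s t, C.Adj s t → ω s * ((Fintype.card V : ℚ) - C.degree s - C.degree t) = 1)
    (v s t : V) :
    (if s ≠ t ∧ s ≠ v ∧ t ≠ v then (sigmaThrough Cᶜ s t v : ℚ) / (sigma Cᶜ s t : ℚ) else 0) =
      (if C.Adj s t then ω s else 0) - (if C.Adj v s ∧ C.Adj s t then ω s else 0) -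
        (if C.Adj v t ∧ C.Adj t s then ω t else 0) := by
  by_cases hst : s = t
  · subst hst
    simp
  by_cases hc : C.Adj s t
  · have hc' := hc.symm
    have hd := dist_two h hc
    have hωst : ω t = ω s := by
      have h1 := hω s t hc
      have h2 := hω t s hc'
      have h3 : ((Fintype.card V : ℚ) - C.degree s - C.degree t) ≠ 0 := by
        intro h0
        rw [h0] at h1
        simp at h1
      have h4 : ω t * ((Fintype.card V : ℚ) - C.degree s - C.degree t) = 1 := by
        rw [← h2]; ring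
      have := h1.trans h4.symm
      exact (mul_right_cancel₀ h3 this).symm
    have hsig : (sigma Cᶜ s t : ℚ) = (Fintype.card V : ℚ) - C.degree s - C.degree t := by
      rw [sigma_two _ _ _ hd]
      have h1 := common_ncard h hc
      have h2 : (({w : V | Cᶜ.Adj s w ∧ Cᶜ.Adj w t}.ncard + (C.degree s + C.degree t) : ℕ) : ℚ) =
        (Fintype.card V : ℚ) := by rw [h1]
      push_cast at h2
      linarith
    by_cases hvs : C.Adj v s
    · have hvt : ¬ C.Adj v t := fun h5 => h.tri v s t hvs hc h5
      have hr : (if s ≠ t ∧ s ≠ v ∧ t ≠ v then (sigmaThrough Cᶜ s t v : ℚ) /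
          (sigma Cᶜ s t : ℚ) else 0) = 0 := by
        by_cases h6 : s ≠ t ∧ s ≠ v ∧ t ≠ v
        · rw [if_pos h6, through_two_not _ _ _ _ hd h6.2.1.symm h6.2.2.symm (by
            rintro ⟨h7, -⟩
            rw [SimpleGraph.compl_adj] at h7
            exact h7.2 hvs.symm)]
          simp
        · rw [if_neg h6]
      rw [hr, if_pos hc, if_pos ⟨hvs, hc⟩, if_neg (by tauto)]
      ring
    · by_cases hvt : C.Adj v t
      · have hr : (if s ≠ t ∧ s ≠ v ∧ t ≠ v then (sigmaThrough Cᶜ s t v : ℚ) /
            (sigma Cᶜ s t : ℚ) else 0) = 0 := by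
          by_cases h6 : s ≠ t ∧ s ≠ v ∧ t ≠ v
          · rw [if_pos h6, through_two_not _ _ _ _ hd h6.2.1.symm h6.2.2.symm (by
              rintro ⟨-, h7⟩
              rw [SimpleGraph.compl_adj] at h7
              exact h7.2 hvt)]
            simp
          · rw [if_neg h6]
        rw [hr, if_pos hc, if_neg (by tauto), if_pos ⟨hvt, hc'⟩, hωst]
        ring
      · have h6 : s ≠ t ∧ s ≠ v ∧ t ≠ v := by
          refine ⟨hst, ?_, ?_⟩
          · rintro rfl
            exact hvt hc
          · rintro rfl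
            exact hvs hc'
        rw [if_pos h6, through_two _ _ _ _ hd h6.2.1.symm h6.2.2.symm (by
          constructor
          · rw [SimpleGraph.compl_adj]
            exact ⟨h6.2.1, fun h8 => hvs h8.symm⟩
          · rw [SimpleGraph.compl_adj]
            exact ⟨h6.2.2.symm, fun h8 => hvt h8⟩), if_pos hc, if_neg (by tauto),
          if_neg (by tauto), hsig]
        have h1 := hω s t hc
        have h3 : ((Fintype.card V : ℚ) - C.degree s - C.degree t) ≠ 0 := by
          intro h0
          rw [h0] at h1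
          simp at h1
        rw [sub_zero, sub_zero, Nat.cast_one, div_eq_iff h3, h1]
  · have hc' : ¬ C.Adj t s := fun h5 => hc h5.symm
    have hd : Cᶜ.dist s t = 1 := by
      rw [SimpleGraph.dist_eq_one_iff_adj, SimpleGraph.compl_adj]
      exact ⟨hst, hc⟩
    have hr : (if s ≠ t ∧ s ≠ v ∧ t ≠ v then (sigmaThrough Cᶜ s t v : ℚ) /
        (sigma Cᶜ s t : ℚ) else 0) = 0 := by
      by_cases h6 : s ≠ t ∧ s ≠ v ∧ t ≠ v
      · rw [if_pos h6, through_one _ _ _ _ hd h6.2.1.symm h6.2.2.symm]
        simp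
      · rw [if_neg h6]
    rw [hr, if_neg hc, if_neg (by tauto), if_neg (by tauto)]
    ring

lemma sum_adj (s : V) (x : ℚ) :
    ∑ t : V, (if C.Adj s t then x else 0) = (C.degree s : ℚ) * x := by
  rw [← sum_filter, sum_const, nsmul_eq_mul]
  congr 2
  rw [← SimpleGraph.card_neighborFinset_eq_degree]
  congr 1
  ext t
  simp

/-- **The formula.** -/
theorem betw_eq (h : Good C) (ω : V → ℚ)
    (hω : ∀ s t, C.Adj s t → ω s * ((Fintype.card V : ℚ) - C.degree s - C.degree t) = 1)
    (v : V) :
    betw Cᶜ v = (1 / 2) * ∑ s : V, (C.degree s : ℚ) * ω s -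
      ∑ s : V, if C.Adj v s then (C.degree s : ℚ) * ω s else 0 := by
  unfold betw
  have h1 : (∑ s : V, ∑ t : V, if s ≠ t ∧ s ≠ v ∧ t ≠ v then
      (sigmaThrough Cᶜ s t v : ℚ) / (sigma Cᶜ s t : ℚ) else 0) =
      ∑ s : V, (C.degree s : ℚ) * ω s -
        2 * ∑ s : V, (if C.Adj v s then (C.degree s : ℚ) * ω s else 0) := by
    have e1 : ∀ s : V, ∑ t : V, (if C.Adj v s ∧ C.Adj s t then ω s else 0) =
        if C.Adj v s then (C.degree s : ℚ) * ω s else 0 := by
      intro s
      by_cases hvs : C.Adj v s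
      · rw [if_pos hvs, ← sum_adj]
        refine sum_congr rfl fun t _ => ?_
        by_cases hst : C.Adj s t
        · rw [if_pos ⟨hvs, hst⟩, if_pos hst]
        · rw [if_neg (by tauto), if_neg hst]
      · rw [if_neg hvs]
        refine sum_eq_zero fun t _ => ?_
        rw [if_neg (by tauto)]
    calc (∑ s : V, ∑ t : V, if s ≠ t ∧ s ≠ v ∧ t ≠ v then
          (sigmaThrough Cᶜ s t v : ℚ) / (sigma Cᶜ s t : ℚ) else 0)
        = ∑ s : V, ∑ t : V, ((if C.Adj s t then ω s else 0) -
            (if C.Adj v s ∧ C.Adj s t then ω s else 0) -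
            (if C.Adj v t ∧ C.Adj t s then ω t else 0)) := by
          refine sum_congr rfl fun s _ => sum_congr rfl fun t _ => term h ω hω v s t
      _ = ∑ s : V, ∑ t : V, (if C.Adj s t then ω s else 0) -
            ∑ s : V, ∑ t : V, (if C.Adj v s ∧ C.Adj s t then ω s else 0) -
            ∑ s : V, ∑ t : V, (if C.Adj v t ∧ C.Adj t s then ω t else 0) := by
          simp only [sum_sub_distrib]
      _ = _ := by
          rw [sum_comm (f := fun s t => (if C.Adj v t ∧ C.Adj t s then ω t else 0))]
          simp only [e1, sum_adj]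
          ring
  rw [h1]
  ring

end Pool.Agent.Q264.Betw
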