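import Pool.Agent.Q264.BetwCompl

/-!
The complement of a disjoint union of copies of `K_{a,a}` and of stars `K_{1,b}`.
-/

set_option autoImplicit false

namespace Pool.Agent.Q264.Betw

open Finset Classical

/-- vertices -/
abbrev Vt (c a k b : ℕ) : Type := (Fin c × (Bool × Fin a)) ⊕ (Fin k × Option (Fin b))

/-- adjacency in the disjoint union of `c` copies of `K_{a,a}` and `k` copies of `K_{1,b}` -/
def cadj {c a k b : ℕ} : Vt c a k b → Vt c a k b → Prop
  | Sum.inl x, Sum.inl y => x.1 = y.1 ∧ x.2.1 ≠ y.2.1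
  | Sum.inr x, Sum.inr y => x.1 = y.1 ∧ x.2.isNone ≠ y.2.isNone
  | Sum.inl _, Sum.inr _ => False
  | Sum.inr _, Sum.inl _ => False

/-- the disjoint union -/
def Cg (c a k b : ℕ) : SimpleGraph (Vt c a k b) where
  Adj := cadj
  symm := ⟨by
    rintro (x | x) (y | y) h
    · exact ⟨h.1.symm, h.2.symm⟩
    · exact h
    · exact h
    · exact ⟨h.1.symm, h.2.symm⟩⟩
  loopless := ⟨by
    rintro (x | x) h
    · exact h.2 rfl
    · exact h.2 rfl⟩

variable {c a k b : ℕ}

lemma card_Vt : Fintype.card (Vt c a k b) = 2 * c * a + k * (b + 1) := by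
  simp [Vt]
  ring

/-- sum over the neighbours of a vertex of the first kind -/
lemma sum_left (i : Fin c) (e : Bool) (x : Fin a) (F : Vt c a k b → ℚ) (f : ℚ)
    (hF : ∀ z, F (Sum.inl z) = f) :
    ∑ s, (if (Cg c a k b).Adj (Sum.inl (i, (e, x))) s then F s else 0) = a * f := by
  have h1 : ∀ z : Fin c × (Bool × Fin a),
      (if (Cg c a k b).Adj (Sum.inl (i, (e, x))) (Sum.inl z) then F (Sum.inl z) else 0) =
        if i = z.1 ∧ e ≠ z.2.1 then f else 0 := by
    intro z
    rw [hF]
    by_cases hz : i = z.1 ∧ e ≠ z.2.1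
    · rw [if_pos hz, if_pos]
      exact hz
    · rw [if_neg hz, if_neg]
      exact hz
  have h2 : ∀ z : Fin k × Option (Fin b),
      (if (Cg c a k b).Adj (Sum.inl (i, (e, x))) (Sum.inr z) then F (Sum.inr z) else 0) = 0 := by
    intro z
    exact if_neg (fun h => h)
  rw [Fintype.sum_sum_type]
  simp only [h1, h2, sum_const_zero, add_zero]
  rw [Fintype.sum_prod_type, sum_eq_single i]
  · rw [Fintype.sum_prod_type]
    cases e <;> simp
  · intro j _ hj
    refine sum_eq_zero fun z _ => if_neg fun h => hj h.1.symm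
  · intro h
    exact absurd (mem_univ _) h

/-- sum over the neighbours of the centre of a star -/
lemma sum_centre (i : Fin k) (F : Vt c a k b → ℚ) (f : ℚ)
    (hF : ∀ j l, F (Sum.inr (j, some l)) = f) :
    ∑ s, (if (Cg c a k b).Adj (Sum.inr (i, none)) s then F s else 0) = b * f := by
  have h1 : ∀ z : Fin c × (Bool × Fin a),
      (if (Cg c a k b).Adj (Sum.inr (i, none)) (Sum.inl z) then F (Sum.inl z) else 0) = 0 := by
    intro z
    exact if_neg (fun h => h)
  have h2 : ∀ (j : Fin k) (l : Fin b),
      (if (Cg c a k b).Adj (Sum.inr (i, none)) (Sum.inr (j, some l)) then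
        F (Sum.inr (j, some l)) else 0) = if i = j then f else 0 := by
    intro j l
    rw [hF]
    by_cases hij : i = j
    · rw [if_pos hij, if_pos]
      exact ⟨hij, by simp⟩
    · rw [if_neg hij, if_neg]
      exact fun h => hij h.1
  have h3 : ∀ (j : Fin k),
      (if (Cg c a k b).Adj (Sum.inr (i, none)) (Sum.inr (j, none)) then
        F (Sum.inr (j, none)) else 0) = 0 := by
    intro j
    exact if_neg (fun h => h.2 rfl)
  rw [Fintype.sum_sum_type]
  simp only [h1, sum_const_zero, zero_add]
  rw [Fintype.sum_prod_type]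
  simp only [Fintype.sum_option, h2, h3, zero_add]
  rw [sum_eq_single i]
  · simp
  · intro j _ hj
    refine sum_eq_zero fun z _ => if_neg fun h => hj h.symm
  · intro h
    exact absurd (mem_univ _) h

/-- sum over the neighbours of a leaf of a star -/
lemma sum_leaf (i : Fin k) (l : Fin b) (F : Vt c a k b → ℚ) (f : ℚ)
    (hF : ∀ j, F (Sum.inr (j, none)) = f) :
    ∑ s, (if (Cg c a k b).Adj (Sum.inr (i, some l)) s then F s else 0) = f := by
  have h1 : ∀ z : Fin c × (Bool × Fin a),
      (if (Cg c a k b).Adj (Sum.inr (i, some l)) (Sum.inl z) then F (Sum.inl z) else 0) = 0 := by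
    intro z
    exact if_neg (fun h => h)
  have h2 : ∀ (j : Fin k) (l' : Fin b),
      (if (Cg c a k b).Adj (Sum.inr (i, some l)) (Sum.inr (j, some l')) then
        F (Sum.inr (j, some l')) else 0) = 0 := by
    intro j l'
    exact if_neg (fun h => h.2 rfl)
  have h3 : ∀ (j : Fin k),
      (if (Cg c a k b).Adj (Sum.inr (i, some l)) (Sum.inr (j, none)) then
        F (Sum.inr (j, none)) else 0) = if i = j then f else 0 := by
    intro j
    rw [hF]
    by_cases hij : i = j
    · rw [if_pos hij, if_pos]
      exact ⟨hij, by simp⟩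
    · rw [if_neg hij, if_neg]
      exact fun h => hij h.1
  rw [Fintype.sum_sum_type]
  simp only [h1, sum_const_zero, zero_add]
  rw [Fintype.sum_prod_type]
  simp only [Fintype.sum_option, h2, h3, sum_const_zero, add_zero]
  simp

lemma deg_eq (v : Vt c a k b) :
    ((Cg c a k b).degree v : ℚ) = ∑ s, (if (Cg c a k b).Adj v s then (1 : ℚ) else 0) := by
  rw [sum_adj v 1, mul_one]

lemma deg_left (z : Fin c × (Bool × Fin a)) : (Cg c a k b).degree (Sum.inl z) = a := by
  obtain ⟨i, e, x⟩ := z
  have h := deg_eq (c := c) (a := a) (k := k) (b := b) (Sum.inl (i, (e, x)))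
  rw [sum_left i e x (fun _ => 1) 1 (fun _ => rfl), mul_one] at h
  exact_mod_cast h

lemma deg_centre (i : Fin k) : (Cg c a k b).degree (Sum.inr (i, none)) = b := by
  have h := deg_eq (c := c) (a := a) (k := k) (b := b) (Sum.inr (i, none))
  rw [sum_centre i (fun _ => 1) 1 (fun _ _ => rfl), mul_one] at h
  exact_mod_cast h

lemma deg_leaf (i : Fin k) (l : Fin b) : (Cg c a k b).degree (Sum.inr (i, some l)) = 1 := by
  have h := deg_eq (c := c) (a := a) (k := k) (b := b) (Sum.inr (i, some l))
  rw [sum_leaf i l (fun _ => 1) 1 (fun _ => rfl)] at h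
  exact_mod_cast h

lemma good (h1 : 2 * a < 2 * c * a + k * (b + 1)) (h2 : b + 1 < 2 * c * a + k * (b + 1)) :
    Good (Cg c a k b) := by
  constructor
  · rintro (x | x) (y | y) (z | z) hxy hyz hxz
    · have e1 : x.2.1 ≠ y.2.1 := hxy.2
      have e2 : y.2.1 ≠ z.2.1 := hyz.2
      have e3 : x.2.1 ≠ z.2.1 := hxz.2
      revert e1 e2 e3
      cases x.2.1 <;> cases y.2.1 <;> cases z.2.1 <;> simp
    · exact hyz
    · exact hxy
    · exact hxy
    · exact hxy
    · exact hxy
    · exact hyz
    · have e1 : x.2.isNone ≠ y.2.isNone := hxy.2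
      have e2 : y.2.isNone ≠ z.2.isNone := hyz.2
      have e3 : x.2.isNone ≠ z.2.isNone := hxz.2
      revert e1 e2 e3
      cases x.2.isNone <;> cases y.2.isNone <;> cases z.2.isNone <;> simp
  · rintro (x | x) (y | y) hxy
    · rw [deg_left, deg_left, card_Vt]
      omega
    · exact absurd hxy (fun h => h)
    · exact absurd hxy (fun h => h)
    · obtain ⟨i, o⟩ := x
      obtain ⟨j, o'⟩ := y
      have e1 : o.isNone ≠ o'.isNone := hxy.2
      rw [card_Vt]
      cases o with
      | none =>
        cases o' with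
        | none => exact absurd rfl e1
        | some l => rw [deg_centre, deg_leaf]; exact h2
      | some l' =>
        cases o' with
        | none => rw [deg_centre, deg_leaf]; omega
        | some l => exact absurd rfl e1

/-- **The betweenness** of the complement of `c K_{a,a} ∪ k K_{1,b}` when the two weights agree. -/
theorem betw_val (h1 : 2 * a < 2 * c * a + k * (b + 1)) (h2 : b + 1 < 2 * c * a + k * (b + 1))
    (L w₁ w₂ : ℚ)
    (hw₁ : w₁ * (((2 * c * a + k * (b + 1) : ℕ) : ℚ) - a - a) = 1)
    (hw₂ : w₂ * (((2 * c * a + k * (b + 1) : ℕ) : ℚ) - b - 1) = 1)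
    (hL₁ : a * (a * w₁) = L) (hL₂ : b * w₂ = L) (v : Vt c a k b) :
    betw (Cg c a k b)ᶜ v = L * (c + k - 1) := by
  have hg := good (c := c) (a := a) (k := k) (b := b) h1 h2
  set ω : Vt c a k b → ℚ := fun v => match v with
    | Sum.inl _ => w₁
    | Sum.inr _ => w₂ with hωdef
  have hω : ∀ s t, (Cg c a k b).Adj s t → ω s * ((Fintype.card (Vt c a k b) : ℚ) -
      (Cg c a k b).degree s - (Cg c a k b).degree t) = 1 := by
    rintro (x | x) (y | y) hxy
    · rw [deg_left, deg_left, card_Vt]
      exact hw₁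
    · exact absurd hxy (fun h => h)
    · exact absurd hxy (fun h => h)
    · obtain ⟨i, o⟩ := x
      obtain ⟨j, o'⟩ := y
      have e1 : o.isNone ≠ o'.isNone := hxy.2
      rw [card_Vt]
      cases o with
      | none =>
        cases o' with
        | none => exact absurd rfl e1
        | some l => rw [deg_centre, deg_leaf, Nat.cast_one]; exact hw₂
      | some l' =>
        cases o' with
        | none =>
          rw [deg_centre, deg_leaf, Nat.cast_one]
          show w₂ * _ = 1
          linear_combination hw₂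
        | some l => exact absurd rfl e1
  rw [betw_eq hg ω hω v]
  have hN : ∑ s, (if (Cg c a k b).Adj v s then ((Cg c a k b).degree s : ℚ) * ω s else 0) = L := by
    rcases v with (⟨i, e, x⟩ | ⟨i, o⟩)
    · rw [sum_left i e x (fun s => ((Cg c a k b).degree s : ℚ) * ω s) (a * w₁) (fun z => by
        show ((Cg c a k b).degree (Sum.inl z) : ℚ) * w₁ = _
        rw [deg_left]), hL₁]
    · cases o with
      | none =>
        rw [sum_centre i (fun s => ((Cg c a k b).degree s : ℚ) * ω s) (1 * w₂) (fun j l => by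
          show ((Cg c a k b).degree (Sum.inr (j, some l)) : ℚ) * w₂ = _
          rw [deg_leaf, Nat.cast_one]), one_mul, hL₂]
      | some l =>
        rw [sum_leaf i l (fun s => ((Cg c a k b).degree s : ℚ) * ω s) (b * w₂) (fun j => by
          show ((Cg c a k b).degree (Sum.inr (j, none)) : ℚ) * w₂ = _
          rw [deg_centre]), hL₂]
  have hS : ∑ s, ((Cg c a k b).degree s : ℚ) * ω s = 2 * (c + k) * L := by
    rw [Fintype.sum_sum_type]
    have e1 : ∀ z : Fin c × (Bool × Fin a), ((Cg c a k b).degree (Sum.inl z) : ℚ) *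
        ω (Sum.inl z) = a * w₁ := by
      intro z
      rw [deg_left]
    have e2 : ∀ (j : Fin k) (l : Fin b), ((Cg c a k b).degree (Sum.inr (j, some l)) : ℚ) *
        ω (Sum.inr (j, some l)) = w₂ := by
      intro j l
      rw [deg_leaf, Nat.cast_one, one_mul]
    have e3 : ∀ (j : Fin k), ((Cg c a k b).degree (Sum.inr (j, none)) : ℚ) *
        ω (Sum.inr (j, none)) = b * w₂ := by
      intro j
      rw [deg_centre]
    simp only [e1]
    rw [Fintype.sum_prod_type (f := fun x : Fin k × Option (Fin b) =>
      ((Cg c a k b).degree (Sum.inr x) : ℚ) * ω (Sum.inr x))]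
    simp only [Fintype.sum_option, e2, e3]
    simp only [sum_const, card_univ, Fintype.card_prod, Fintype.card_fin, Fintype.card_bool,
      nsmul_eq_mul]
    push_cast
    have : (b : ℚ) * w₂ = L := hL₂
    rw [this]
    linear_combination (2 * (c : ℚ)) * hL₁
  rw [hN, hS]
  ring

end Pool.Agent.Q264.Betw
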