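import Mathlib
set_option autoImplicit false
set_option linter.unusedSectionVars false
open Finset

/-! `d`-blocking sets (MP_d4e795_co): definitions, lower bound. -/

namespace Pool.Agent.Q264.Block

section defs
variable {V : Type} [Fintype V] [DecidableEq V]

/-- `E` is a `d`-blocking set: a family of `d`-subsets of `V` such that every partition of `V`
into `d` (nonempty) parts has a member of `E` meeting every part. -/
def IsBlocking (d : ℕ) (E : Finset (Finset V)) : Prop :=
  E ⊆ (univ : Finset V).powersetCard d ∧
    ∀ P : Finpartition (univ : Finset V), #P.parts = d → ∃ S ∈ E, ∀ X ∈ P.parts, (S ∩ X).Nonempty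

end defs

/-- `φ_d(n)`: the minimum size of a `d`-blocking set for an `n`-element set. -/
noncomputable def phi (d n : ℕ) : ℕ :=
  sInf {m | ∃ E : Finset (Finset (Fin n)), IsBlocking d E ∧ #E = m}

section lower
variable {V : Type} [Fintype V] [DecidableEq V]

/-- labelled version -/
lemma isBlocking_of_labelled {d : ℕ} {E : Finset (Finset V)}
    (hE : E ⊆ (univ : Finset V).powersetCard d)
    (h : ∀ f : V → Fin d, Function.Surjective f → ∃ x : Fin d → V, (∀ i, f (x i) = i) ∧
      (univ : Finset (Fin d)).image x ∈ E) : IsBlocking d E := by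
  refine ⟨hE, fun P hP => ?_⟩
  have e : {X // X ∈ P.parts} ≃ Fin d := Fintype.equivFinOfCardEq (by rw [Fintype.card_coe, hP])
  have hpart : ∀ v : V, P.part v ∈ P.parts := fun v => P.part_mem.2 (mem_univ v)
  obtain ⟨x, hx, hxE⟩ := h (fun v => e ⟨P.part v, hpart v⟩) (by
    intro i
    obtain ⟨v, hv⟩ := P.nonempty_of_mem_parts (e.symm i).2
    refine ⟨v, ?_⟩
    have : P.part v = (e.symm i).1 := P.part_eq_of_mem (e.symm i).2 hv
    simp only [this]
    simp)
  refine ⟨_, hxE, fun X hX => ?_⟩
  refine ⟨x (e ⟨X, hX⟩), mem_inter.2 ⟨mem_image_of_mem _ (mem_univ _), ?_⟩⟩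
  have h1 := hx (e ⟨X, hX⟩)
  have h2 := e.injective h1
  have h3 : P.part (x (e ⟨X, hX⟩)) = X := congrArg Subtype.val h2
  have h4 := P.mem_part (mem_univ (x (e ⟨X, hX⟩)))
  rwa [h3] at h4

/-- the partition into the singletons of `W` and two further sets -/
lemma exists_edge {d : ℕ} {E : Finset (Finset V)} (hE : IsBlocking d E) (hd : 2 ≤ d)
    (W A B : Finset V) (hW : #W = d - 2) (hA : A.Nonempty) (hB : B.Nonempty) (hAB : Disjoint A B)
    (hWA : Disjoint W A) (hWB : Disjoint W B) (hU : W ∪ A ∪ B = univ) :
    ∃ a ∈ A, ∃ b ∈ B, insert a (insert b W) ∈ E := by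
  classical
  let parts : Finset (Finset V) := insert A (insert B (W.image (fun w => ({w} : Finset V))))
  have hdisj : ∀ X ∈ parts, ∀ Y ∈ parts, X ≠ Y → Disjoint X Y := by
    intro X hX Y hY hXY
    simp only [parts, mem_insert, mem_image] at hX hY
    rcases hX with rfl | rfl | ⟨w, hw, rfl⟩ <;> rcases hY with rfl | rfl | ⟨w', hw', rfl⟩
    · exact absurd rfl hXY
    · exact hAB
    · exact (disjoint_of_subset_left (singleton_subset_iff.2 hw') hWA).symm
    · exact hAB.symm
    · exact absurd rfl hXY
    · exact (disjoint_of_subset_left (singleton_subset_iff.2 hw') hWB).symm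
    · exact disjoint_of_subset_left (singleton_subset_iff.2 hw) hWA
    · exact disjoint_of_subset_left (singleton_subset_iff.2 hw) hWB
    · rw [disjoint_singleton]
      intro h
      exact hXY (by rw [h])
  have hne : ∀ X ∈ parts, X.Nonempty := by
    intro X hX
    simp only [parts, mem_insert, mem_image] at hX
    rcases hX with rfl | rfl | ⟨w, hw, rfl⟩
    · exact hA
    · exact hB
    · exact singleton_nonempty w
  let P : Finpartition (univ : Finset V) :=
    { parts := parts
      supIndep := by
        rw [supIndep_iff_pairwiseDisjoint]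
        intro X hX Y hY hXY
        exact hdisj X hX Y hY hXY
      sup_parts := by
        rw [eq_univ_iff_forall]
        intro v
        rw [mem_sup]
        have hv : v ∈ W ∪ A ∪ B := by rw [hU]; exact mem_univ v
        rw [mem_union, mem_union] at hv
        rcases hv with (hv | hv) | hv
        · exact ⟨{v}, by simp [parts, hv], by simp⟩
        · exact ⟨A, by simp [parts], hv⟩
        · exact ⟨B, by simp [parts], hv⟩
      bot_notMem := by
        intro h
        have := hne _ h
        simp at this }
  have hAnot : A ∉ insert B (W.image (fun w => ({w} : Finset V))) := by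
    intro h
    simp only [mem_insert, mem_image] at h
    rcases h with h | ⟨w, hw, h⟩
    · rw [h] at hAB
      obtain ⟨b, hb⟩ := hB
      exact disjoint_left.1 hAB hb hb
    · rw [← h] at hWA
      exact disjoint_left.1 hWA hw (mem_singleton_self w)
  have hBnot : B ∉ W.image (fun w => ({w} : Finset V)) := by
    intro h
    simp only [mem_image] at h
    obtain ⟨w, hw, h⟩ := h
    rw [← h] at hWB
    exact disjoint_left.1 hWB hw (mem_singleton_self w)
  have hcard : #P.parts = d := by
    change #(parts) = d
    simp only [parts]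
    rw [card_insert_of_notMem hAnot, card_insert_of_notMem hBnot,
      card_image_of_injective _ (fun a b h => by simpa using h), hW]
    omega
  obtain ⟨S, hSE, hS⟩ := hE.2 P hcard
  have hSd : #S = d := (mem_powersetCard.1 (hE.1 hSE)).2
  obtain ⟨a, ha⟩ := hS A (by change A ∈ parts; simp [parts])
  obtain ⟨b, hb⟩ := hS B (by change B ∈ parts; simp [parts])
  rw [mem_inter] at ha hb
  have hWS : W ⊆ S := by
    intro w hw
    obtain ⟨v, hv⟩ := hS {w} (by change {w} ∈ parts; simp [parts, hw])
    rw [mem_inter, mem_singleton] at hv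
    rw [← hv.2]; exact hv.1
  refine ⟨a, ha.2, b, hb.2, ?_⟩
  have haW : a ∉ W := fun h => disjoint_left.1 hWA h ha.2
  have hbW : b ∉ W := fun h => disjoint_left.1 hWB h hb.2
  have hab : a ≠ b := fun h => disjoint_left.1 hAB ha.2 (h ▸ hb.2)
  have hsub : insert a (insert b W) ⊆ S := by
    intro v hv
    rw [mem_insert, mem_insert] at hv
    rcases hv with rfl | rfl | hv
    · exact ha.1
    · exact hb.1
    · exact hWS hv
  have hc : #(insert a (insert b W)) = d := by
    rw [card_insert_of_notMem (by rw [mem_insert]; tauto), card_insert_of_notMem hbW, hW]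
    omega
  rw [eq_of_subset_of_card_le hsub (by rw [hc, hSd])]
  exact hSE

/-- the link of a `(d-2)`-set has at least `n - d + 1` edges -/
lemma link_card {d : ℕ} {E : Finset (Finset V)} (hE : IsBlocking d E) (hd : 2 ≤ d)
    (hn : d ≤ Fintype.card V) (W : Finset V) (hW : #W = d - 2) :
    Fintype.card V ≤ #(E.filter (fun S => W ⊆ S)) + (d - 1) := by
  classical
  let G : SimpleGraph {v // v ∉ W} :=
    { Adj := fun a b => a ≠ b ∧ insert a.1 (insert b.1 W) ∈ E
      symm := ⟨fun a b h => ⟨h.1.symm, by
        have : insert b.1 (insert a.1 W) = insert a.1 (insert b.1 W) := by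
          ext v; simp only [mem_insert]; tauto
        rw [this]; exact h.2⟩⟩
      loopless := ⟨fun a h => h.1 rfl⟩ }
  have hcardV : Fintype.card {v // v ∉ W} = Fintype.card V - (d - 2) := by
    rw [Fintype.card_subtype_compl, Fintype.card_coe, hW]
  have hne : Nonempty {v // v ∉ W} := by
    rw [← Fintype.card_pos_iff, hcardV]
    omega
  have hconn : G.Connected := by
    rw [SimpleGraph.connected_iff]
    refine ⟨?_, hne⟩
    intro a b
    by_contra hab
    -- the component of `a`
    let A : Finset V := univ.filter (fun v => ∃ h : v ∉ W, G.Reachable a ⟨v, h⟩)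
    let B : Finset V := univ.filter (fun v => ∃ h : v ∉ W, ¬ G.Reachable a ⟨v, h⟩)
    have hmA : ∀ v, v ∈ A ↔ ∃ h : v ∉ W, G.Reachable a ⟨v, h⟩ := by intro v; simp [A]
    have hmB : ∀ v, v ∈ B ↔ ∃ h : v ∉ W, ¬ G.Reachable a ⟨v, h⟩ := by intro v; simp [B]
    obtain ⟨x, hx, y, hy, hxy⟩ := exists_edge hE hd W A B hW
      ⟨a.1, (hmA _).2 ⟨a.2, SimpleGraph.Reachable.refl _⟩⟩ ⟨b.1, (hmB _).2 ⟨b.2, hab⟩⟩
      (by
        rw [disjoint_left]
        intro v hv hv'
        obtain ⟨_, h1⟩ := (hmA v).1 hv
        obtain ⟨_, h2⟩ := (hmB v).1 hv'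
        exact h2 h1)
      (by
        rw [disjoint_left]
        intro v hv hv'
        obtain ⟨h1, _⟩ := (hmA v).1 hv'
        exact h1 hv)
      (by
        rw [disjoint_left]
        intro v hv hv'
        obtain ⟨h1, _⟩ := (hmB v).1 hv'
        exact h1 hv)
      (by
        rw [eq_univ_iff_forall]
        intro v
        rw [mem_union, mem_union, hmA, hmB]
        by_cases h : v ∈ W
        · exact Or.inl (Or.inl h)
        · by_cases h' : G.Reachable a ⟨v, h⟩
          · exact Or.inl (Or.inr ⟨h, h'⟩)
          · exact Or.inr ⟨h, h'⟩)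
    obtain ⟨hxW, hxr⟩ := (hmA x).1 hx
    obtain ⟨hyW, hyr⟩ := (hmB y).1 hy
    apply hyr
    have hadj : G.Adj ⟨x, hxW⟩ ⟨y, hyW⟩ := by
      refine ⟨?_, hxy⟩
      intro h
      rw [h] at hxr
      exact hyr hxr
    exact hxr.trans hadj.reachable
  have hedges := hconn.card_vert_le_card_edgeSet_add_one
  rw [Nat.card_eq_fintype_card, hcardV] at hedges
  -- edges inject into members of `E` containing `W`
  have hle : Nat.card G.edgeSet ≤ #(E.filter (fun S => W ⊆ S)) := by
    rw [Nat.card_eq_fintype_card, ← Set.toFinset_card]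
    let g : Sym2 {v // v ∉ W} → Finset V := fun e => W ∪ e.toFinset.map ⟨Subtype.val, Subtype.val_injective⟩
    apply card_le_card_of_injOn g
    · intro e he
      rw [mem_coe, Set.mem_toFinset] at he
      rw [mem_coe, mem_filter]
      refine ⟨?_, subset_union_left⟩
      induction e using Sym2.ind with
      | _ a b =>
        rw [SimpleGraph.mem_edgeSet] at he
        have h1 := he.2
        have : g s(a, b) = insert a.1 (insert b.1 W) := by
          ext v
          simp only [g, mem_union, mem_map, Sym2.mem_toFinset, Sym2.mem_iff, mem_insert]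
          constructor
          · rintro (h | ⟨u, rfl | rfl, rfl⟩)
            · exact Or.inr (Or.inr h)
            · exact Or.inl rfl
            · exact Or.inr (Or.inl rfl)
          · rintro (rfl | rfl | h)
            · exact Or.inr ⟨a, Or.inl rfl, rfl⟩
            · exact Or.inr ⟨b, Or.inr rfl, rfl⟩
            · exact Or.inl h
        rw [this]; exact h1
    · intro e _ e' _ hee
      simp only [g] at hee
      have hdis : ∀ e : Sym2 {v // v ∉ W}, Disjoint W (e.toFinset.map ⟨Subtype.val, Subtype.val_injective⟩) := by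
        intro e
        rw [disjoint_left]
        intro v hv hv'
        rw [mem_map] at hv'
        obtain ⟨u, _, rfl⟩ := hv'
        exact u.2 hv
      have h1 : (e.toFinset.map ⟨Subtype.val, Subtype.val_injective⟩ : Finset V) =
          e'.toFinset.map ⟨Subtype.val, Subtype.val_injective⟩ := by
        rw [← union_sdiff_cancel_left (hdis e), hee, union_sdiff_cancel_left (hdis e')]
      have h2 := map_injective _ h1
      apply Sym2.ext
      intro v
      rw [← Sym2.mem_toFinset, ← Sym2.mem_toFinset, h2]
  omega

/-- the lower bound -/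
theorem lower {d : ℕ} {E : Finset (Finset V)} (hE : IsBlocking d E) (hd : 2 ≤ d)
    (hn : d ≤ Fintype.card V) :
    (Fintype.card V).choose (d - 2) * (Fintype.card V - (d - 1)) ≤ #E * d.choose 2 := by
  classical
  have h1 : ∑ W ∈ (univ : Finset V).powersetCard (d - 2), #(E.filter (fun S => W ⊆ S)) =
      #E * d.choose 2 := by
    simp_rw [card_filter]
    rw [sum_comm, sum_congr rfl (g := fun _ => d.choose 2)]
    · simp
    · intro S hS
      have hSd : #S = d := (mem_powersetCard.1 (hE.1 hS)).2
      rw [← card_filter]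
      have : ((univ : Finset V).powersetCard (d - 2)).filter (fun W => W ⊆ S) = S.powersetCard (d - 2) := by
        ext W
        simp only [mem_filter, mem_powersetCard]
        constructor
        · rintro ⟨⟨_, h1⟩, h2⟩; exact ⟨h2, h1⟩
        · rintro ⟨h1, h2⟩; exact ⟨⟨subset_univ _, h2⟩, h1⟩
      rw [this, card_powersetCard, hSd]
      exact Nat.choose_symm (by omega)
  rw [← h1]
  have h2 : (Fintype.card V).choose (d - 2) * (Fintype.card V - (d - 1)) =
      ∑ W ∈ (univ : Finset V).powersetCard (d - 2), (Fintype.card V - (d - 1)) := by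
    rw [sum_const, card_powersetCard, card_univ, smul_eq_mul]
  rw [h2]
  apply sum_le_sum
  intro W hW
  have := link_card hE hd hn W (mem_powersetCard.1 hW).2
  omega

end lower

end Pool.Agent.Q264.Block
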