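import Pool.Agent.Q264.BlockDefs
set_option autoImplicit false
set_option linter.unusedSectionVars false
open Finset

/-! `d`-blocking sets (MP_d4e795_co): the pieces of the upper bound. -/

namespace Pool.Agent.Q264.Block

/-- greedy hitting sets -/
lemma greedy {ι α : Type} [DecidableEq α] (X : Finset α) (hX : X.Nonempty) (F : Finset ι)
    (T : ι → Finset α) (hT : ∀ i ∈ F, T i ⊆ X) (q : ℝ) (hq1 : q ≤ 1)
    (hq : ∀ i ∈ F, q * (#X : ℝ) ≤ (#(T i) : ℝ)) (m : ℕ) :
    ∃ Y ⊆ X, #Y ≤ m ∧ (#(F.filter (fun i => Disjoint (T i) Y)) : ℝ) ≤ (1 - q) ^ m * (#F : ℝ) := by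
  classical
  induction m with
  | zero =>
    refine ⟨∅, empty_subset _, by simp, ?_⟩
    rw [pow_zero, one_mul]
    exact_mod_cast card_filter_le _ _
  | succ m ih =>
    obtain ⟨Y, hY, hYm, hYr⟩ := ih
    set R := F.filter (fun i => Disjoint (T i) Y) with hR
    -- averaging
    have hsum : ∑ x ∈ X, (#(R.filter (fun i => x ∈ T i)) : ℝ) = ∑ i ∈ R, (#(T i) : ℝ) := by
      have h1 : ∑ x ∈ X, #(R.filter (fun i => x ∈ T i)) = ∑ i ∈ R, #(T i) := by
        simp_rw [card_filter]
        rw [sum_comm]
        apply sum_congr rfl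
        intro i hi
        rw [← card_filter]
        congr 1
        ext x
        rw [mem_filter]
        exact ⟨fun h => h.2, fun h => ⟨hT i (mem_filter.1 hi).1 h, h⟩⟩
      exact_mod_cast h1
    have hge : q * (#R : ℝ) * (#X : ℝ) ≤ ∑ x ∈ X, (#(R.filter (fun i => x ∈ T i)) : ℝ) := by
      rw [hsum]
      calc q * (#R : ℝ) * (#X : ℝ) = ∑ i ∈ R, q * (#X : ℝ) := by
            rw [sum_const, nsmul_eq_mul]; ring
        _ ≤ _ := sum_le_sum (fun i hi => hq i (mem_filter.1 hi).1)
    have hex : ∃ x ∈ X, q * (#R : ℝ) ≤ (#(R.filter (fun i => x ∈ T i)) : ℝ) := by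
      by_contra hcon
      push Not at hcon
      have : ∑ x ∈ X, (#(R.filter (fun i => x ∈ T i)) : ℝ) < ∑ x ∈ X, q * (#R : ℝ) :=
        sum_lt_sum_of_nonempty hX hcon
      rw [sum_const, nsmul_eq_mul] at this
      linarith
    obtain ⟨x, hxX, hx⟩ := hex
    refine ⟨insert x Y, insert_subset hxX hY, (card_insert_le _ _).trans (by omega), ?_⟩
    have hsub : F.filter (fun i => Disjoint (T i) (insert x Y)) ⊆ R.filter (fun i => ¬ x ∈ T i) := by
      intro i hi
      rw [mem_filter] at hi
      rw [mem_filter, hR, mem_filter]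
      rw [disjoint_insert_right] at hi
      exact ⟨⟨hi.1, hi.2.2⟩, hi.2.1⟩
    have h2 : (#(R.filter (fun i => x ∈ T i)) : ℝ) + (#(R.filter (fun i => ¬ x ∈ T i)) : ℝ) = #R := by
      exact_mod_cast card_filter_add_card_filter_not _
    have h3 : (#(F.filter (fun i => Disjoint (T i) (insert x Y))) : ℝ) ≤
        (#(R.filter (fun i => ¬ x ∈ T i)) : ℝ) := by exact_mod_cast card_le_card hsub
    calc _ ≤ (1 - q) * (#R : ℝ) := by linarith
      _ ≤ (1 - q) * ((1 - q) ^ m * (#F : ℝ)) := mul_le_mul_of_nonneg_left hYr (by linarith)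
      _ = _ := by ring

/-- hitting all -/
lemma greedy_all {ι α : Type} [DecidableEq α] (X : Finset α) (hX : X.Nonempty) (F : Finset ι)
    (T : ι → Finset α) (hT : ∀ i ∈ F, T i ⊆ X) (q : ℝ) (hq0 : 0 < q) (hq1 : q ≤ 1)
    (hq : ∀ i ∈ F, q * (#X : ℝ) ≤ (#(T i) : ℝ)) :
    ∃ Y ⊆ X, (#Y : ℝ) ≤ (Real.log (#F + 1) + 1) / q + 1 ∧ ∀ i ∈ F, ¬ Disjoint (T i) Y := by
  classical
  set m : ℕ := ⌈(Real.log (#F + 1) + 1) / q⌉₊ with hm
  obtain ⟨Y, hY, hYm, hYr⟩ := greedy X hX F T hT q hq1 hq m
  have hlog : 0 ≤ Real.log (#F + 1) := Real.log_nonneg (by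
    have : (0:ℝ) ≤ #F := by positivity
    linarith)
  refine ⟨Y, hY, ?_, ?_⟩
  · have h1 : (m : ℝ) < (Real.log (#F + 1) + 1) / q + 1 := Nat.ceil_lt_add_one (by positivity)
    have h2 : (#Y : ℝ) ≤ m := by exact_mod_cast hYm
    linarith
  · intro i hi hdis
    have h1 : (1:ℝ) ≤ (#(F.filter (fun i => Disjoint (T i) Y)) : ℝ) := by
      have : 0 < #(F.filter (fun i => Disjoint (T i) Y)) := card_pos.2 ⟨i, mem_filter.2 ⟨hi, hdis⟩⟩
      exact_mod_cast this
    have h2 : (1 - q) ^ m ≤ Real.exp (-(q * m)) := by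
      have h3 : 1 - q ≤ Real.exp (-q) := by
        have := Real.add_one_le_exp (-q)
        linarith
      calc (1 - q) ^ m ≤ (Real.exp (-q)) ^ m := pow_le_pow_left₀ (by linarith) h3 m
        _ = Real.exp (-(q * m)) := by rw [← Real.exp_nat_mul]; ring_nf
    have h4 : Real.log (#F + 1) + 1 ≤ q * m := by
      have := Nat.le_ceil ((Real.log (#F + 1) + 1) / q)
      rw [← hm] at this
      rw [div_le_iff₀ hq0] at this
      linarith
    have h5 : Real.exp (-(q * m)) * (#F : ℝ) < 1 := by
      have hF : (0:ℝ) < (#F : ℝ) + 1 := by positivity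
      calc Real.exp (-(q * m)) * (#F : ℝ) ≤ Real.exp (-(Real.log (#F + 1) + 1)) * (#F + 1) := by
            apply mul_le_mul _ (by linarith) (by positivity) (by positivity)
            exact Real.exp_le_exp.2 (by linarith)
        _ = Real.exp (-1) := by
            rw [neg_add, Real.exp_add, Real.exp_neg, Real.exp_log hF]
            field_simp
        _ < 1 := by
            rw [Real.exp_lt_one_iff]
            norm_num
    have h6 : (1 - q) ^ m * (#F : ℝ) ≤ Real.exp (-(q * m)) * (#F : ℝ) :=
      mul_le_mul_of_nonneg_right h2 (by positivity)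
    linarith

section group
variable {V : Type} [Fintype V] [DecidableEq V] [AddCommGroup V]

/-- the `d`-sets with sum `c` -/
def sumFam (d : ℕ) (c : V) : Finset (Finset V) :=
  ((univ : Finset V).powersetCard d).filter (fun S => ∑ v ∈ S, v = c)

lemma mem_sumFam {d : ℕ} {c : V} {S : Finset V} : S ∈ sumFam d c ↔ #S = d ∧ ∑ v ∈ S, v = c := by
  simp [sumFam, mem_filter, mem_powersetCard]

lemma card_sumFam (d : ℕ) (hd : 1 ≤ d) (c : V) :
    d * #(sumFam d c) ≤ (Fintype.card V).choose (d - 1) := by
  have h1 : #((sumFam d c).biUnion (fun S => S.powersetCard (d - 1))) = ∑ S ∈ sumFam d c, d := by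
    rw [card_biUnion]
    · apply sum_congr rfl
      intro S hS
      rw [card_powersetCard, (mem_sumFam.1 hS).1]
      have : d = (d - 1) + 1 := by omega
      conv_lhs => rw [this]
      rw [Nat.add_sub_cancel, Nat.choose_succ_self_right]
      omega
    · intro S hS S' hS' hne
      rw [Function.onFun, disjoint_left]
      intro T hT hT'
      rw [mem_powersetCard] at hT hT'
      rw [mem_coe, mem_sumFam] at hS hS'
      have e1 : #(S \ T) = 1 := by rw [card_sdiff_of_subset hT.1, hS.1, hT.2]; omega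
      have e2 : #(S' \ T) = 1 := by rw [card_sdiff_of_subset hT'.1, hS'.1, hT.2]; omega
      obtain ⟨a, ha⟩ := card_eq_one.1 e1
      obtain ⟨b, hb⟩ := card_eq_one.1 e2
      have f1 := sum_sdiff hT.1 (f := fun v : V => v)
      have f2 := sum_sdiff hT'.1 (f := fun v : V => v)
      rw [ha, sum_singleton, hS.2] at f1
      rw [hb, sum_singleton, hS'.2] at f2
      have hab : a = b := add_right_cancel (f1.trans f2.symm)
      apply hne
      rw [← sdiff_union_of_subset hT.1, ← sdiff_union_of_subset hT'.1, ha, hb, hab]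
  rw [sum_const, smul_eq_mul] at h1
  have h2 : #((sumFam d c).biUnion (fun S => S.powersetCard (d - 1))) ≤
      #((univ : Finset V).powersetCard (d - 1)) := by
    apply card_le_card
    intro T hT
    rw [mem_biUnion] at hT
    obtain ⟨S, _, hT⟩ := hT
    exact mem_powersetCard.2 ⟨subset_univ _, (mem_powersetCard.1 hT).2⟩
  rw [card_powersetCard, card_univ, h1] at h2
  linarith

/-- a section of the labelling -/
def IsSec {d : ℕ} (f : V → Fin d) (x : Fin d → V) : Prop := ∀ i, f (x i) = i

/-- `E` hits the labelled partition `f` -/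
def Hit {d : ℕ} (f : V → Fin d) (E : Finset (Finset V)) : Prop :=
  ∃ x : Fin d → V, IsSec f x ∧ (univ : Finset (Fin d)).image x ∈ E

lemma IsSec.injective {d : ℕ} {f : V → Fin d} {x : Fin d → V} (h : IsSec f x) :
    Function.Injective x := by
  intro i j hij
  rw [← h i, ← h j, hij]

lemma IsSec.card {d : ℕ} {f : V → Fin d} {x : Fin d → V} (h : IsSec f x) :
    #((univ : Finset (Fin d)).image x) = d := by
  rw [card_image_of_injective _ h.injective]; simp

lemma IsSec.sum {d : ℕ} {f : V → Fin d} {x : Fin d → V} (h : IsSec f x) :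
    ∑ v ∈ (univ : Finset (Fin d)).image x, v = ∑ i, x i :=
  sum_image (fun _ _ _ _ hab => h.injective hab)

lemma IsSec.update {d : ℕ} {f : V → Fin d} {x : Fin d → V} (h : IsSec f x) {i : Fin d} {a : V}
    (ha : f a = i) : IsSec f (Function.update x i a) := by
  intro j
  by_cases hj : j = i
  · subst hj; rw [Function.update_self]; exact ha
  · rw [Function.update_of_ne hj]; exact h j

/-- the sum over the other labels -/
def rest {d : ℕ} (x : Fin d → V) (α β : Fin d) : V := ∑ i ∈ (univ.erase α).erase β, x i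

lemma sum_update2 {d : ℕ} (x : Fin d → V) {α β : Fin d} (hαβ : α ≠ β) (a b : V) :
    ∑ i, Function.update (Function.update x α a) β b i = a + b + rest x α β := by
  have hβ : β ∈ (univ : Finset (Fin d)).erase α := mem_erase.2 ⟨hαβ.symm, mem_univ _⟩
  rw [← add_sum_erase univ _ (mem_univ α), ← add_sum_erase _ _ hβ]
  rw [Function.update_of_ne hαβ, Function.update_self, Function.update_self]
  have : ∑ i ∈ (univ.erase α).erase β, Function.update (Function.update x α a) β b i =
      rest x α β := by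
    unfold rest
    apply sum_congr rfl
    intro i hi
    rw [mem_erase, mem_erase] at hi
    rw [Function.update_of_ne hi.1, Function.update_of_ne hi.2.1]
  rw [this, add_assoc]

lemma hit_sum {d : ℕ} {f : V → Fin d} {x : Fin d → V} (h : IsSec f x) {α β : Fin d} (hαβ : α ≠ β)
    {a b : V} (ha : f a = α) (hb : f b = β) {c : V} (hc : a + b + rest x α β = c) :
    Hit f (sumFam d c) := by
  have h1 := (h.update ha).update hb
  refine ⟨_, h1, mem_sumFam.2 ⟨h1.card, ?_⟩⟩
  rw [h1.sum, sum_update2 x hαβ, hc]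

lemma Hit.mono {d : ℕ} {f : V → Fin d} {E E' : Finset (Finset V)} (h : Hit f E) (hE : E ⊆ E') :
    Hit f E' := by
  obtain ⟨x, hx, hxE⟩ := h
  exact ⟨x, hx, hE hxE⟩

/-- sets containing two elements of `Y` -/
def fam2 (d : ℕ) (Y : Finset V) : Finset (Finset V) :=
  (((Y ×ˢ Y) ×ˢ (univ : Finset V).powersetCard (d - 2)).image
    (fun p => insert p.1.1 (insert p.1.2 p.2))) ∩ (univ : Finset V).powersetCard d

lemma card_fam2 (d : ℕ) (Y : Finset V) :
    #(fam2 d Y) ≤ #Y * #Y * (Fintype.card V).choose (d - 2) := by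
  unfold fam2
  refine (card_le_card inter_subset_left).trans (card_image_le.trans ?_)
  rw [card_product, card_product, card_powersetCard, card_univ]

lemma hit_fam2 {d : ℕ} {f : V → Fin d} {x : Fin d → V} (h : IsSec f x) {α β : Fin d}
    (hαβ : α ≠ β) {a b : V} (ha : f a = α) (hb : f b = β) {Y : Finset V} (haY : a ∈ Y)
    (hbY : b ∈ Y) : Hit f (fam2 d Y) := by
  have h1 := (h.update ha).update hb
  refine ⟨_, h1, ?_⟩
  unfold fam2
  rw [mem_inter]
  refine ⟨?_, mem_powersetCard.2 ⟨subset_univ _, h1.card⟩⟩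
  rw [mem_image]
  refine ⟨((a, b), ((univ.erase α).erase β).image x), ?_, ?_⟩
  · rw [mem_product, mem_product, mem_powersetCard]
    refine ⟨⟨haY, hbY⟩, subset_univ _, ?_⟩
    rw [card_image_of_injective _ h.injective,
      card_erase_of_mem (mem_erase.2 ⟨hαβ.symm, mem_univ _⟩), card_erase_of_mem (mem_univ _)]
    simp only [card_univ, Fintype.card_fin]
    omega
  · ext v
    simp only [mem_insert, mem_image, mem_erase, mem_univ, and_true, true_and]
    constructor
    · rintro (rfl | rfl | ⟨i, ⟨hi1, hi2⟩, rfl⟩)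
      · exact ⟨α, by rw [Function.update_of_ne hαβ, Function.update_self]⟩
      · exact ⟨β, by rw [Function.update_self]⟩
      · exact ⟨i, by rw [Function.update_of_ne hi1, Function.update_of_ne hi2]⟩
    · rintro ⟨i, rfl⟩
      by_cases h1 : i = β
      · subst h1; rw [Function.update_self]; exact Or.inr (Or.inl rfl)
      · rw [Function.update_of_ne h1]
        by_cases h2 : i = α
        · subst h2; rw [Function.update_self]; exact Or.inl rfl
        · rw [Function.update_of_ne h2]
          exact Or.inr (Or.inr ⟨i, ⟨h1, h2⟩, rfl⟩)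

end group

section cyclic
variable {n : ℕ} [NeZero n]

/-- sets containing two consecutive elements and an element of `Y` -/
def fam3 (d : ℕ) (Y : Finset (ZMod n)) : Finset (Finset (ZMod n)) :=
  ((((univ : Finset (ZMod n)) ×ˢ Y) ×ˢ (univ : Finset (ZMod n)).powersetCard (d - 3)).image
    (fun p => insert p.1.1 (insert (p.1.1 + 1) (insert p.1.2 p.2)))) ∩
      (univ : Finset (ZMod n)).powersetCard d

lemma card_fam3 (d : ℕ) (Y : Finset (ZMod n)) :
    #(fam3 d Y) ≤ n * #Y * n.choose (d - 3) := by
  unfold fam3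
  refine (card_le_card inter_subset_left).trans (card_image_le.trans ?_)
  rw [card_product, card_product, card_powersetCard, card_univ, ZMod.card]

lemma hit_fam3 {d : ℕ} {f : ZMod n → Fin d} {x : Fin d → ZMod n} (h : IsSec f x) {α β γ : Fin d}
    (hαβ : α ≠ β) (hαγ : α ≠ γ) (hβγ : β ≠ γ) {y z : ZMod n} (hy : f y = α) (hy1 : f (y + 1) = β)
    (hz : f z = γ) {Y : Finset (ZMod n)} (hzY : z ∈ Y) : Hit f (fam3 d Y) := by
  have h1 := ((h.update hy).update hy1).update hz
  refine ⟨_, h1, ?_⟩
  unfold fam3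
  rw [mem_inter]
  refine ⟨?_, mem_powersetCard.2 ⟨subset_univ _, h1.card⟩⟩
  rw [mem_image]
  refine ⟨((y, z), (((univ.erase α).erase β).erase γ).image x), ?_, ?_⟩
  · rw [mem_product, mem_product, mem_powersetCard]
    refine ⟨⟨mem_univ _, hzY⟩, subset_univ _, ?_⟩
    rw [card_image_of_injective _ h.injective,
      card_erase_of_mem (mem_erase.2 ⟨hβγ.symm, mem_erase.2 ⟨hαγ.symm, mem_univ _⟩⟩),
      card_erase_of_mem (mem_erase.2 ⟨hαβ.symm, mem_univ _⟩), card_erase_of_mem (mem_univ _)]
    simp only [card_univ, Fintype.card_fin]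
    omega
  · ext v
    simp only [mem_insert, mem_image, mem_erase, mem_univ, and_true, true_and]
    constructor
    · rintro (rfl | rfl | rfl | ⟨i, ⟨hi1, hi2, hi3⟩, rfl⟩)
      · exact ⟨α, by rw [Function.update_of_ne hαγ, Function.update_of_ne hαβ, Function.update_self]⟩
      · exact ⟨β, by rw [Function.update_of_ne hβγ, Function.update_self]⟩
      · exact ⟨γ, by rw [Function.update_self]⟩
      · exact ⟨i, by rw [Function.update_of_ne hi1, Function.update_of_ne hi2,
          Function.update_of_ne hi3]⟩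
    · rintro ⟨i, rfl⟩
      by_cases h1 : i = γ
      · subst h1; rw [Function.update_self]; exact Or.inr (Or.inr (Or.inl rfl))
      · rw [Function.update_of_ne h1]
        by_cases h2 : i = β
        · subst h2; rw [Function.update_self]; exact Or.inr (Or.inl rfl)
        · rw [Function.update_of_ne h2]
          by_cases h3 : i = α
          · subst h3; rw [Function.update_self]; exact Or.inl rfl
          · rw [Function.update_of_ne h3]
            exact Or.inr (Or.inr (Or.inr ⟨i, ⟨h1, h2, h3⟩, rfl⟩))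

/-- case 1: one huge part -/
theorem case1 {d : ℕ} (hd : 2 ≤ d) {f : ZMod n → Fin d} (hf : Function.Surjective f) (D0 : Fin d)
    (Y : Finset (ZMod n)) (hY : #(univ.filter (fun v => f v ≠ D0)) < #Y) :
    Hit f ((sumFam d 0 ∪ sumFam d 1) ∪ fam3 d Y) := by
  classical
  by_contra hcon
  have hno0 : ¬ Hit f (sumFam d 0) := fun h => hcon (h.mono (by
    intro S hS; exact mem_union_left _ (mem_union_left _ hS)))
  have hno1 : ¬ Hit f (sumFam d 1) := fun h => hcon (h.mono (by
    intro S hS; exact mem_union_left _ (mem_union_right _ hS)))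
  have hno3 : ¬ Hit f (fam3 d Y) := fun h => hcon (h.mono subset_union_right)
  -- an element of `Y` in the huge part
  obtain ⟨z, hzY, hz⟩ : ∃ z ∈ Y, f z = D0 := by
    by_contra h
    push Not at h
    have : Y ⊆ univ.filter (fun v => f v ≠ D0) := fun v hv => mem_filter.2 ⟨mem_univ _, h v hv⟩
    have := card_le_card this
    omega
  -- a section
  have hx0 : IsSec f (Function.surjInv hf) := fun i => Function.surjInv_eq hf i
  set x0 := Function.surjInv hf with hx0def
  -- longest run
  let P : ℕ → Prop := fun m => ∃ i, i ≠ D0 ∧ ∃ a : ZMod n, ∀ j : ℕ, j < m → f (a + j) = i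
  have hP0 : ∃ i : Fin d, i ≠ D0 := by
    have : Nontrivial (Fin d) := Fin.nontrivial_iff_two_le.2 hd
    exact exists_ne D0
  have hP1 : P 1 := by
    obtain ⟨i, hi⟩ := hP0
    refine ⟨i, hi, x0 i, fun j hj => ?_⟩
    have : j = 0 := by omega
    subst this
    simpa using hx0 i
  have hPn : ¬ P n := by
    rintro ⟨i, hi, a, ha⟩
    have h1 := ha (z - a).val (ZMod.val_lt _)
    rw [ZMod.natCast_val, ZMod.cast_id'] at h1
    simp only [id] at h1
    rw [add_sub_cancel, hz] at h1
    exact hi h1.symm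
  have hex : ∃ m, ¬ P m := ⟨n, hPn⟩
  set M := Nat.find hex with hM
  have hMspec : ¬ P M := Nat.find_spec hex
  have hM2 : 2 ≤ M := by
    by_contra h
    have : M = 0 ∨ M = 1 := by omega
    rcases this with h0 | h1
    · obtain ⟨i, hi⟩ := hP0
      apply hMspec
      rw [h0]
      exact ⟨i, hi, 0, fun j hj => absurd hj (Nat.not_lt_zero j)⟩
    · apply hMspec
      rw [h1]; exact hP1
  obtain ⟨m, hm⟩ : ∃ m, M = m + 2 := ⟨M - 2, by omega⟩
  have hPm : P (m + 1) := by
    by_contra h
    have := Nat.find_min' hex h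
    omega
  obtain ⟨l, hl, a, ha⟩ := hPm
  -- the elements `z_t`
  set R := rest x0 l D0 with hR
  set z0 : ZMod n := -R - a - m with hz0
  have hzt : ∀ t : ℕ, t ≤ m + 1 → f (z0 + t) ≠ D0 := by
    intro t ht hft
    rcases Nat.lt_or_ge t (m + 1) with hlt | hge
    · apply hno0
      have h1 : f (a + ((m - t : ℕ) : ZMod n)) = l := ha (m - t) (by omega)
      apply hit_sum hx0 hl h1 hft
      rw [← hR, hz0, Nat.cast_sub (by omega)]
      ring
    · have : t = m + 1 := by omega
      subst this
      apply hno1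
      have h1 : f (a + ((0 : ℕ) : ZMod n)) = l := ha 0 (by omega)
      apply hit_sum hx0 hl h1 hft
      rw [← hR, hz0]
      push_cast
      ring
  -- not all equal
  have hnall : ¬ ∀ t : ℕ, t < m + 2 → f (z0 + t) = f z0 := by
    intro h
    apply hMspec
    rw [hm]
    refine ⟨f z0, ?_, z0, h⟩
    have := hzt 0 (by omega)
    simpa using this
  push Not at hnall
  obtain ⟨t, ht, hft⟩ := hnall
  -- minimal such `t`
  have hex2 : ∃ t : ℕ, f (z0 + t) ≠ f z0 := ⟨t, hft⟩
  set u := Nat.find hex2 with hu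
  have hu1 : f (z0 + u) ≠ f z0 := Nat.find_spec hex2
  have hut : u ≤ t := Nat.find_min' hex2 hft
  have hu0 : u ≠ 0 := by
    intro h
    rw [h] at hu1
    simp at hu1
  obtain ⟨w, hw⟩ : ∃ w, u = w + 1 := ⟨u - 1, by omega⟩
  have hw1 : f (z0 + w) = f z0 := by
    by_contra h
    have := Nat.find_min' hex2 h
    omega
  apply hno3
  have hy1 : z0 + (w : ZMod n) + 1 = z0 + ((w + 1 : ℕ) : ZMod n) := by push_cast; ring
  apply hit_fam3 hx0 (α := f (z0 + w)) (β := f (z0 + w + 1)) (γ := D0) (y := z0 + w) (z := z)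
    _ (hzt w (by omega)) _ rfl rfl hz hzY
  · rw [hy1, ← hw, hw1]
    exact hu1.symm
  · rw [hy1]
    exact hzt (w + 1) (by omega)

/-- long intervals -/
lemma exists_interval (A Bad : Finset (ZMod n)) (L : ℕ)
    (hstep : ∀ y ∈ A, y ∉ Bad → y + 1 ∈ A) (hcard : L * #Bad < #A) :
    ∃ a : ZMod n, ∀ j : ℕ, j < L → a + j ∈ A := by
  classical
  by_contra hcon
  push Not at hcon
  have hsub : A ⊆ (range L).biUnion (fun i => Bad.image (fun p => p - (i : ZMod n))) := by
    intro a ha
    obtain ⟨j, hj, hja⟩ := hcon a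
    have hex : ∃ j : ℕ, a + (j : ZMod n) ∉ A := ⟨j, hja⟩
    set u := Nat.find hex with hu
    have hu1 : a + (u : ZMod n) ∉ A := Nat.find_spec hex
    have huj : u ≤ j := Nat.find_min' hex hja
    have hu0 : u ≠ 0 := by
      intro h
      rw [h] at hu1
      simp [ha] at hu1
    obtain ⟨w, hw⟩ : ∃ w, u = w + 1 := ⟨u - 1, by omega⟩
    have hw1 : a + (w : ZMod n) ∈ A := by
      by_contra h
      have := Nat.find_min' hex h
      omega
    have hbad : a + (w : ZMod n) ∈ Bad := by
      by_contra h
      apply hu1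
      rw [hw]
      have := hstep _ hw1 h
      push_cast
      rwa [← add_assoc]
    rw [mem_biUnion]
    refine ⟨w, mem_range.2 (by omega), ?_⟩
    rw [mem_image]
    exact ⟨_, hbad, by ring⟩
  have h1 := card_le_card hsub
  have h2 : #((range L).biUnion (fun i => Bad.image (fun p => p - (i : ZMod n)))) ≤ L * #Bad := by
    refine card_biUnion_le.trans ?_
    calc _ ≤ ∑ i ∈ range L, #Bad := sum_le_sum (fun i _ => card_image_le)
      _ = L * #Bad := by simp
  omega

/-- the multiples of `L` -/
def mults (n L : ℕ) : Finset (ZMod n) := (range (n / L + 2)).image (fun k => ((k * L : ℕ) : ZMod n))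

lemma card_mults (L : ℕ) : #(mults n L) ≤ n / L + 2 := by
  unfold mults
  exact card_image_le.trans (by simp)

lemma mults_meet (L : ℕ) (hL : 0 < L) (a : ZMod n) : ∃ j : ℕ, j < L ∧ a + j ∈ mults n L := by
  have hv : a.val < n := ZMod.val_lt a
  have ha : ((a.val : ℕ) : ZMod n) = a := by rw [ZMod.natCast_val, ZMod.cast_id'] ; rfl
  by_cases h0 : a.val % L = 0
  · refine ⟨0, hL, ?_⟩
    unfold mults
    rw [mem_image]
    refine ⟨a.val / L, mem_range.2 ?_, ?_⟩
    · have := Nat.div_le_div_right (c := L) hv.le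
      omega
    · have : a.val / L * L = a.val := Nat.div_mul_cancel (Nat.dvd_of_mod_eq_zero h0)
      rw [this, ha]
      simp
  · refine ⟨L - a.val % L, by omega, ?_⟩
    unfold mults
    rw [mem_image]
    refine ⟨a.val / L + 1, mem_range.2 ?_, ?_⟩
    · have := Nat.div_le_div_right (c := L) hv.le
      omega
    · have h1 : a.val / L * L + a.val % L = a.val := Nat.div_add_mod' _ _
      have h2 : a.val % L < L := Nat.mod_lt _ hL
      have h3 : (a.val / L + 1) * L = a.val + (L - a.val % L) := by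
        rw [Nat.add_mul, one_mul]
        omega
      rw [h3]
      push_cast
      rw [ha]

/-- case 2b: two large parts, the others tiny -/
theorem case2 {d : ℕ} {f : ZMod n → Fin d} (hf : Function.Surjective f) {α β : Fin d}
    (hαβ : α ≠ β) (L : ℕ) (hL : 0 < L)
    (hA : L * (2 * #(univ.filter (fun v => f v ≠ α ∧ f v ≠ β))) < #(univ.filter (fun v => f v = α)))
    (hB : L * (2 * #(univ.filter (fun v => f v ≠ α ∧ f v ≠ β))) < #(univ.filter (fun v => f v = β))) :
    Hit f ((sumFam d 0 ∪ sumFam d 1) ∪ fam2 d (mults n L)) := by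
  classical
  by_contra hcon
  have hno0 : ¬ Hit f (sumFam d 0) := fun h => hcon (h.mono (by
    intro S hS; exact mem_union_left _ (mem_union_left _ hS)))
  have hno1 : ¬ Hit f (sumFam d 1) := fun h => hcon (h.mono (by
    intro S hS; exact mem_union_left _ (mem_union_right _ hS)))
  have hno2 : ¬ Hit f (fam2 d (mults n L)) := fun h => hcon (h.mono subset_union_right)
  have hx0 : IsSec f (Function.surjInv hf) := fun i => Function.surjInv_eq hf i
  set x0 := Function.surjInv hf with hx0def
  set U := univ.filter (fun v => f v ≠ α ∧ f v ≠ β) with hU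
  set R := rest x0 α β with hR
  set Bad : Finset (ZMod n) := U.image (fun u => -R - u) ∪ U.image (fun u => u - 1) with hBad
  have hBadc : #Bad ≤ 2 * #U := by
    refine (card_union_le _ _).trans ?_
    have h1 : #(U.image (fun u => -R - u)) ≤ #U := card_image_le
    have h2 : #(U.image (fun u => u - 1)) ≤ #U := card_image_le
    omega
  have hnotBad : ∀ y, y ∉ Bad → (-R - y) ∉ U ∧ y + 1 ∉ U := by
    intro y hy
    constructor
    · intro h
      apply hy
      rw [hBad, mem_union, mem_image]
      exact Or.inl ⟨_, h, by ring⟩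
    · intro h
      apply hy
      rw [hBad, mem_union, mem_image, mem_image]
      exact Or.inr ⟨_, h, by ring⟩
  have hmU : ∀ v, v ∉ U → f v = α ∨ f v = β := by
    intro v hv
    rw [hU, mem_filter] at hv
    by_contra h
    push Not at h
    exact hv ⟨mem_univ _, h⟩
  have hstepA : ∀ y ∈ univ.filter (fun v => f v = α), y ∉ Bad → y + 1 ∈ univ.filter (fun v => f v = α) := by
    intro y hy hyB
    rw [mem_filter] at hy ⊢
    refine ⟨mem_univ _, ?_⟩
    obtain ⟨h1, h2⟩ := hnotBad y hyB
    rcases hmU _ h1 with h3 | h3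
    · rcases hmU _ h2 with h4 | h4
      · exact h4
      · exfalso
        apply hno1
        apply hit_sum hx0 hαβ h3 h4
        rw [← hR]; ring
    · exfalso
      apply hno0
      apply hit_sum hx0 hαβ hy.2 h3
      rw [← hR]; ring
  have hstepB : ∀ y ∈ univ.filter (fun v => f v = β), y ∉ Bad → y + 1 ∈ univ.filter (fun v => f v = β) := by
    intro y hy hyB
    rw [mem_filter] at hy ⊢
    refine ⟨mem_univ _, ?_⟩
    obtain ⟨h1, h2⟩ := hnotBad y hyB
    rcases hmU _ h1 with h3 | h3
    · exfalso
      apply hno0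
      apply hit_sum hx0 hαβ h3 hy.2
      rw [← hR]; ring
    · rcases hmU _ h2 with h4 | h4
      · exfalso
        apply hno1
        apply hit_sum hx0 hαβ h4 h3
        rw [← hR]; ring
      · exact h4
  obtain ⟨a, ha⟩ := exists_interval _ Bad L hstepA (lt_of_le_of_lt (Nat.mul_le_mul le_rfl hBadc) hA)
  obtain ⟨b, hb⟩ := exists_interval _ Bad L hstepB (lt_of_le_of_lt (Nat.mul_le_mul le_rfl hBadc) hB)
  obtain ⟨i, hi, hiM⟩ := mults_meet L hL a
  obtain ⟨j, hj, hjM⟩ := mults_meet L hL b
  exact hno2 (hit_fam2 hx0 hαβ (mem_filter.1 (ha i hi)).2 (mem_filter.1 (hb j hj)).2 hiM hjM)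

open Classical in
/-- the transversals of a labelling -/
noncomputable def trans {d : ℕ} (f : ZMod n → Fin d) : Finset (Finset (ZMod n)) :=
  ((univ : Finset (ZMod n)).powersetCard d).filter (fun S => ∃ x : Fin d → ZMod n, IsSec f x ∧
    (univ : Finset (Fin d)).image x = S)

lemma sec_unique {d : ℕ} {f : ZMod n → Fin d} {x x' : Fin d → ZMod n} (h : IsSec f x)
    (h' : IsSec f x') (he : (univ : Finset (Fin d)).image x = univ.image x') : x = x' := by
  funext i
  have h1 : x i ∈ (univ : Finset (Fin d)).image x' := by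
    rw [← he]; exact mem_image_of_mem _ (mem_univ i)
  rw [mem_image] at h1
  obtain ⟨j, _, hj⟩ := h1
  have h2 : j = i := by rw [← h' j, hj, h i]
  rw [← hj, h2]

lemma card_trans {d : ℕ} {f : ZMod n → Fin d} (hf : Function.Surjective f) {α β γ : Fin d}
    (hαβ : α ≠ β) (hαγ : α ≠ γ) (hβγ : β ≠ γ) :
    #(univ.filter (fun v => f v = α)) * #(univ.filter (fun v => f v = β)) *
      #(univ.filter (fun v => f v = γ)) ≤ #(trans f) := by
  classical
  have hx0 : IsSec f (Function.surjInv hf) := fun i => Function.surjInv_eq hf i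
  set x0 := Function.surjInv hf with hx0def
  rw [← card_product, ← card_product]
  apply card_le_card_of_injOn (fun p => (univ : Finset (Fin d)).image
    (Function.update (Function.update (Function.update x0 α p.1.1) β p.1.2) γ p.2))
  · rintro ⟨⟨a, b⟩, c⟩ hp
    rw [mem_coe, mem_product, mem_product, mem_filter, mem_filter, mem_filter] at hp
    have h1 := ((hx0.update hp.1.1.2).update hp.1.2.2).update hp.2.2
    unfold trans
    rw [mem_coe, mem_filter]
    exact ⟨mem_powersetCard.2 ⟨subset_univ _, h1.card⟩, _, h1, rfl⟩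
  · rintro ⟨⟨a, b⟩, c⟩ hp ⟨⟨a', b'⟩, c'⟩ hp' he
    rw [mem_coe, mem_product, mem_product, mem_filter, mem_filter, mem_filter] at hp hp'
    have h1 := ((hx0.update hp.1.1.2).update hp.1.2.2).update hp.2.2
    have h2 := ((hx0.update hp'.1.1.2).update hp'.1.2.2).update hp'.2.2
    have h3 := sec_unique h1 h2 he
    have ea := congrFun h3 α
    have eb := congrFun h3 β
    have ec := congrFun h3 γ
    rw [Function.update_of_ne hαγ, Function.update_of_ne hαβ, Function.update_self,
      Function.update_of_ne hαγ, Function.update_of_ne hαβ, Function.update_self] at ea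
    rw [Function.update_of_ne hβγ, Function.update_self, Function.update_of_ne hβγ,
      Function.update_self] at eb
    rw [Function.update_self, Function.update_self] at ec
    simp only at ea eb ec
    rw [ea, eb, ec]

/-- pigeonhole for the parts -/
lemma exists_part {d : ℕ} (f : ZMod n → Fin d) (J : Finset (Fin d)) (hJ : J.Nonempty) (k : ℕ)
    (h : k ≤ #(univ.filter (fun v => f v ∈ J))) :
    ∃ i ∈ J, k / d ≤ #(univ.filter (fun v => f v = i)) := by
  by_contra hcon
  push Not at hcon
  have h1 : #(univ.filter (fun v => f v ∈ J)) = ∑ i ∈ J, #(univ.filter (fun v => f v = i)) := by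
    rw [card_eq_sum_card_fiberwise (f := f) (t := J)]
    · apply sum_congr rfl
      intro i hi
      congr 1
      ext v
      simp only [mem_filter, mem_univ, true_and]
      constructor
      · rintro ⟨_, h⟩; exact h
      · intro h; exact ⟨by rw [h]; exact hi, h⟩
    · intro v hv
      rw [mem_coe, mem_filter] at hv
      exact hv.2
  have h2 : ∑ i ∈ J, #(univ.filter (fun v => f v = i)) < ∑ i ∈ J, k / d :=
    sum_lt_sum_of_nonempty hJ hcon
  rw [sum_const, smul_eq_mul] at h2
  have h3 : #J ≤ d := by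
    have := card_le_univ J
    simpa using this
  have h4 : #J * (k / d) ≤ d * (k / d) := Nat.mul_le_mul h3 le_rfl
  have h5 : d * (k / d) ≤ k := Nat.mul_div_le k d
  omega

/-- the combined construction -/
theorem upper (d : ℕ) (hd : 3 ≤ d) (y K0 L : ℕ) (hy : y ≤ n) (hK0 : 1 ≤ K0) (hK0n : K0 ≤ n)
    (hL : 1 ≤ L) (hyd : d ≤ y) (hw : 2 * (d * K0) * L ≤ y / d) (hdn : d ≤ n) :
    ∃ E : Finset (Finset (ZMod n)), E ⊆ (univ : Finset (ZMod n)).powersetCard d ∧
      (∀ f : ZMod n → Fin d, Function.Surjective f → Hit f E) ∧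
      (#E : ℝ) ≤ 2 * ((n.choose (d - 1) : ℕ) : ℝ) / d + n * y * (n.choose (d - 3) : ℕ) +
        ((n / L + 2 : ℕ) : ℝ) ^ 2 * (n.choose (d - 2) : ℕ) +
        ((n * d + 1) * (n : ℝ) ^ d / (((y / d : ℕ) : ℝ) ^ 2 * K0) + 1) := by
  classical
  obtain ⟨Y, _, hYc⟩ := exists_subset_card_eq (s := (univ : Finset (ZMod n))) (n := y)
    (by rw [card_univ, ZMod.card]; exact hy)
  set w := y / d with hwdef
  have hw1 : 1 ≤ w := by
    rw [hwdef, Nat.one_le_div_iff (by omega)]
    exact hyd
  have hwn : w ≤ n := (Nat.div_le_self y d).trans hy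
  have hn0 : 0 < n := by omega
  -- the greedy family
  set X := (univ : Finset (ZMod n)).powersetCard d with hX
  have hXne : X.Nonempty := by
    rw [hX]
    apply powersetCard_nonempty.2
    rw [card_univ, ZMod.card]; exact hdn
  set F : Finset (ZMod n → Fin d) := univ.filter (fun f => w * w * K0 ≤ #(trans f)) with hF
  set q : ℝ := (w : ℝ) ^ 2 * K0 / (n : ℝ) ^ d with hq
  have hnR : (0:ℝ) < n := by exact_mod_cast hn0
  have hwR : (0:ℝ) < w := by exact_mod_cast hw1
  have hK0R : (0:ℝ) < K0 := by exact_mod_cast hK0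
  have hq0 : 0 < q := by rw [hq]; positivity
  have hq1 : q ≤ 1 := by
    rw [hq, div_le_one (by positivity)]
    have h1 : w ^ 2 * K0 ≤ n ^ 2 * n := Nat.mul_le_mul (Nat.pow_le_pow_left hwn 2) hK0n
    have h2 : n ^ 2 * n ≤ n ^ d := by
      rw [← pow_succ]
      exact Nat.pow_le_pow_right hn0 hd
    exact_mod_cast h1.trans h2
  obtain ⟨E5, hE5, hE5c, hE5h⟩ := greedy_all X hXne F trans (fun f _ => filter_subset _ _) q hq0 hq1 (by
    intro f hf
    rw [hF, mem_filter] at hf
    have h1 : (#X : ℝ) ≤ (n : ℝ) ^ d := by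
      rw [hX, card_powersetCard, card_univ, ZMod.card]
      exact_mod_cast Nat.choose_le_pow n d
    calc q * (#X : ℝ) ≤ q * (n : ℝ) ^ d := mul_le_mul_of_nonneg_left h1 hq0.le
      _ = (w : ℝ) ^ 2 * K0 := by rw [hq]; field_simp
      _ ≤ _ := by
        have : ((w * w * K0 : ℕ) : ℝ) ≤ (#(trans f) : ℝ) := by exact_mod_cast hf.2
        push_cast at this
        nlinarith)
  -- size of E5
  have hFc : Real.log (#F + 1) ≤ n * d := by
    have h1 : #F ≤ d ^ n := by
      refine (card_filter_le _ _).trans ?_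
      rw [card_univ, Fintype.card_fun, Fintype.card_fin, ZMod.card]
    have h2 : d ^ n + 1 ≤ (d + 1) ^ n := by
      have : d ^ n < (d + 1) ^ n := Nat.pow_lt_pow_left (by omega) (by omega)
      omega
    have h3 : ((#F : ℝ) + 1) ≤ ((d : ℝ) + 1) ^ n := by exact_mod_cast (Nat.add_le_add_right h1 1).trans h2
    calc Real.log (#F + 1) ≤ Real.log (((d : ℝ) + 1) ^ n) := Real.log_le_log (by positivity) h3
      _ = n * Real.log ((d : ℝ) + 1) := by rw [Real.log_pow]
      _ ≤ n * d := by
        apply mul_le_mul_of_nonneg_left _ hnR.le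
        have := Real.log_le_sub_one_of_pos (by positivity : (0:ℝ) < (d : ℝ) + 1)
        linarith
  have hE5c' : (#E5 : ℝ) ≤ (n * d + 1) * (n : ℝ) ^ d / ((w : ℝ) ^ 2 * K0) + 1 := by
    refine hE5c.trans ?_
    have : (Real.log (#F + 1) + 1) / q ≤ (n * d + 1) / q := by
      apply div_le_div_of_nonneg_right _ hq0.le
      linarith
    have h2 : ((n:ℝ) * d + 1) / q = (n * d + 1) * (n : ℝ) ^ d / ((w : ℝ) ^ 2 * K0) := by
      rw [hq]
      field_simp
    linarith
  -- the family
  refine ⟨((sumFam d 0 ∪ sumFam d 1) ∪ (fam3 d Y ∪ fam2 d (mults n L))) ∪ E5, ?_, ?_, ?_⟩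
  · intro S hS
    rw [mem_union, mem_union, mem_union, mem_union] at hS
    rcases hS with ((hS | hS) | (hS | hS)) | hS
    · exact (mem_filter.1 hS).1
    · exact (mem_filter.1 hS).1
    · exact (mem_inter.1 hS).2
    · exact (mem_inter.1 hS).2
    · exact hE5 hS
  · intro f hf
    have : Nonempty (Fin d) := ⟨⟨0, by omega⟩⟩
    -- the largest part
    obtain ⟨α, _, hα⟩ := exists_max_image (univ : Finset (Fin d))
      (fun i => #(univ.filter (fun v => f v = i))) univ_nonempty
    by_cases h1 : #(univ.filter (fun v => f v ≠ α)) < #Y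
    · apply (case1 (by omega) hf α Y h1).mono
      intro S hS
      simp only [mem_union] at hS ⊢
      tauto
    · rw [hYc] at h1
      push Not at h1
      obtain ⟨β, hβ, hβw⟩ := exists_part f (univ.erase α) (by
        rw [← card_pos, card_erase_of_mem (mem_univ _)]
        simp only [card_univ, Fintype.card_fin]
        omega) y (by
        refine h1.trans (le_of_eq ?_)
        congr 1
        ext v; simp)
      have hβα : β ≠ α := (mem_erase.1 hβ).1
      have hαw : w ≤ #(univ.filter (fun v => f v = α)) := hβw.trans (hα β (mem_univ _))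
      by_cases h2 : #(univ.filter (fun v => f v ≠ α ∧ f v ≠ β)) < d * K0
      · have h3 : L * (2 * #(univ.filter (fun v => f v ≠ α ∧ f v ≠ β))) < w := by
          calc L * (2 * #(univ.filter (fun v => f v ≠ α ∧ f v ≠ β))) < L * (2 * (d * K0)) := by
                apply Nat.mul_lt_mul_of_pos_left _ (by omega)
                omega
            _ = 2 * (d * K0) * L := by ring
            _ ≤ w := hw
        apply (case2 hf hβα.symm L (by omega) (h3.trans_le hαw) (h3.trans_le hβw)).mono
        intro S hS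
        simp only [mem_union] at hS ⊢
        tauto
      · push Not at h2
        obtain ⟨γ, hγ, hγw⟩ := exists_part f ((univ.erase α).erase β) (by
          rw [← card_pos, card_erase_of_mem (mem_erase.2 ⟨hβα, mem_univ _⟩),
            card_erase_of_mem (mem_univ _)]
          simp only [card_univ, Fintype.card_fin]
          omega) (d * K0) (by
          refine h2.trans (le_of_eq ?_)
          congr 1
          ext v
          simp only [mem_filter, mem_univ, true_and, mem_erase, and_true]
          tauto)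
        rw [mem_erase, mem_erase] at hγ
        have hK : d * K0 / d = K0 := Nat.mul_div_cancel_left K0 (by omega)
        rw [hK] at hγw
        have h3 := card_trans hf hβα.symm (Ne.symm hγ.2.1) (Ne.symm hγ.1)
        have h4 : w * w * K0 ≤ #(trans f) := (Nat.mul_le_mul (Nat.mul_le_mul hαw hβw) hγw).trans h3
        have h5 := hE5h f (mem_filter.2 ⟨mem_univ _, h4⟩)
        rw [not_disjoint_iff] at h5
        obtain ⟨S, hS, hSE⟩ := h5
        unfold trans at hS
        rw [mem_filter] at hS
        obtain ⟨_, x, hx, hxS⟩ := hS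
        exact ⟨x, hx, by rw [hxS]; exact mem_union_right _ hSE⟩
  · have c0 := card_sumFam d (by omega) (0 : ZMod n)
    have c1 := card_sumFam d (by omega) (1 : ZMod n)
    have c3 := card_fam3 d Y
    have c2 := card_fam2 d (mults n L)
    have cm := card_mults (n := n) L
    rw [ZMod.card] at c0 c1 c2
    have hdR : (0:ℝ) < d := by
      have : 0 < d := by omega
      exact_mod_cast this
    have r0 : (#(sumFam d (0 : ZMod n)) : ℝ) ≤ ((n.choose (d - 1) : ℕ) : ℝ) / d := by
      rw [le_div_iff₀ hdR, mul_comm]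
      exact_mod_cast c0
    have r1 : (#(sumFam d (1 : ZMod n)) : ℝ) ≤ ((n.choose (d - 1) : ℕ) : ℝ) / d := by
      rw [le_div_iff₀ hdR, mul_comm]
      exact_mod_cast c1
    have r3 : (#(fam3 d Y) : ℝ) ≤ n * y * (n.choose (d - 3) : ℕ) := by
      rw [hYc] at c3
      exact_mod_cast c3
    have r2 : (#(fam2 d (mults n L)) : ℝ) ≤ ((n / L + 2 : ℕ) : ℝ) ^ 2 * (n.choose (d - 2) : ℕ) := by
      have : #(fam2 d (mults n L)) ≤ (n / L + 2) ^ 2 * n.choose (d - 2) := by
        refine c2.trans ?_
        apply Nat.mul_le_mul _ le_rfl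
        rw [sq]
        exact Nat.mul_le_mul cm cm
      exact_mod_cast this
    have u1 : (#(((sumFam d (0 : ZMod n) ∪ sumFam d 1) ∪ (fam3 d Y ∪ fam2 d (mults n L))) ∪ E5) : ℝ) ≤
        #(sumFam d (0 : ZMod n)) + #(sumFam d (1 : ZMod n)) + (#(fam3 d Y) + #(fam2 d (mults n L))) + #E5 := by
      have h1 := card_union_le ((sumFam d (0 : ZMod n) ∪ sumFam d 1) ∪ (fam3 d Y ∪ fam2 d (mults n L))) E5
      have h2 := card_union_le (sumFam d (0 : ZMod n) ∪ sumFam d 1) (fam3 d Y ∪ fam2 d (mults n L))
      have h3 := card_union_le (sumFam d (0 : ZMod n)) (sumFam d 1)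
      have h4 := card_union_le (fam3 d Y) (fam2 d (mults n L))
      have h5 : #(((sumFam d (0 : ZMod n) ∪ sumFam d 1) ∪ (fam3 d Y ∪ fam2 d (mults n L))) ∪ E5) ≤
        #(sumFam d (0 : ZMod n)) + #(sumFam d (1 : ZMod n)) + (#(fam3 d Y) + #(fam2 d (mults n L))) + #E5 := by
        omega
      exact_mod_cast h5
    have e1 : 2 * ((n.choose (d - 1) : ℕ) : ℝ) / d = ((n.choose (d - 1) : ℕ) : ℝ) / d +
        ((n.choose (d - 1) : ℕ) : ℝ) / d := by ring
    rw [e1]
    linarith

/-- transport to `Fin n` -/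
theorem phi_le {d : ℕ} {E : Finset (Finset (ZMod n))}
    (hE : E ⊆ (univ : Finset (ZMod n)).powersetCard d)
    (h : ∀ f : ZMod n → Fin d, Function.Surjective f → Hit f E) : phi d n ≤ #E := by
  classical
  let e : ZMod n ≃ Fin n := (ZMod.finEquiv n).toEquiv.symm
  have hb : IsBlocking d (E.image (fun S => S.image e)) := by
    apply isBlocking_of_labelled
    · intro S hS
      rw [mem_image] at hS
      obtain ⟨S, hS, rfl⟩ := hS
      rw [mem_powersetCard]
      refine ⟨subset_univ _, ?_⟩
      rw [card_image_of_injective _ e.injective]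
      exact (mem_powersetCard.1 (hE hS)).2
    · intro f hf
      obtain ⟨x, hx, hxE⟩ := h (f ∘ e) (hf.comp e.surjective)
      refine ⟨e ∘ x, hx, ?_⟩
      rw [mem_image]
      exact ⟨_, hxE, by rw [image_image]⟩
  have h1 : phi d n ≤ #(E.image (fun S => S.image e)) := Nat.sInf_le ⟨_, hb, rfl⟩
  exact h1.trans card_image_le

end cyclic

end Pool.Agent.Q264.Block
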