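import Mathlib

/-!
# Hypergraph dependent random choice with sequential selection

Averages over finite types, iterated coordinate averages, and the counting theorem
`hp_all` : for every `r` there are constants such that bounded-degree `r`-partite
`r`-uniform systems of edge conditions, together with boundedly many local rare constraints,
have at least `ρ ^ (C |V|)` density of solutions.
-/

open Finset Function
open scoped Classical

namespace Pool.Agent.Q264.HDRC

noncomputable section

/-- uniform average of a real function on a finite type -/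
def av {Ω : Type*} [Fintype Ω] (f : Ω → ℝ) : ℝ := (∑ ω, f ω) / (Fintype.card Ω : ℝ)

/-- indicator of a proposition -/
def ind (p : Prop) : ℝ := if p then 1 else 0

lemma ind_nonneg (p : Prop) : 0 ≤ ind p := by unfold ind; split_ifs <;> norm_num
lemma ind_le_one (p : Prop) : ind p ≤ 1 := by unfold ind; split_ifs <;> norm_num
lemma ind_true {p : Prop} (h : p) : ind p = 1 := by unfold ind; simp [h]
lemma ind_false {p : Prop} (h : ¬p) : ind p = 0 := by unfold ind; simp [h]
lemma ind_mono {p q : Prop} (h : p → q) : ind p ≤ ind q := by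
  by_cases hp : p
  · rw [ind_true hp, ind_true (h hp)]
  · rw [ind_false hp]; exact ind_nonneg q
lemma ind_congr {p q : Prop} (h : p ↔ q) : ind p = ind q := by
  rw [propext h]

section av
variable {Ω Ω' : Type*} [Fintype Ω] [Fintype Ω']

lemma av_nonneg {f : Ω → ℝ} (h : ∀ ω, 0 ≤ f ω) : 0 ≤ av f :=
  div_nonneg (Finset.sum_nonneg fun ω _ => h ω) (Nat.cast_nonneg _)

lemma av_mono {f g : Ω → ℝ} (h : ∀ ω, f ω ≤ g ω) : av f ≤ av g := by
  unfold av
  gcongr with ω _
  exact h ω

lemma card_pos' [Nonempty Ω] : (0 : ℝ) < Fintype.card Ω := by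
  exact_mod_cast Fintype.card_pos

lemma av_const [Nonempty Ω] (c : ℝ) : av (fun _ : Ω => c) = c := by
  unfold av
  have h := card_pos' (Ω := Ω)
  rw [Finset.sum_const, nsmul_eq_mul, Finset.card_univ]
  field_simp

lemma av_mul_left (c : ℝ) (f : Ω → ℝ) : av (fun ω => c * f ω) = c * av f := by
  unfold av
  rw [← Finset.mul_sum, mul_div_assoc]

lemma av_mul_right (c : ℝ) (f : Ω → ℝ) : av (fun ω => f ω * c) = av f * c := by
  unfold av
  rw [← Finset.sum_mul]; ring

lemma av_add (f g : Ω → ℝ) : av (fun ω => f ω + g ω) = av f + av g := by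
  unfold av
  rw [Finset.sum_add_distrib, add_div]

lemma av_sub (f g : Ω → ℝ) : av (fun ω => f ω - g ω) = av f - av g := by
  unfold av
  rw [Finset.sum_sub_distrib, sub_div]

lemma av_sum {ι : Type*} (s : Finset ι) (f : ι → Ω → ℝ) :
    av (fun ω => ∑ i ∈ s, f i ω) = ∑ i ∈ s, av (f i) := by
  unfold av
  rw [Finset.sum_comm, Finset.sum_div]

lemma av_comm (f : Ω → Ω' → ℝ) :
    av (fun a => av (fun b => f a b)) = av (fun b => av (fun a => f a b)) := by
  unfold av
  rw [← Finset.sum_div, ← Finset.sum_div, Finset.sum_comm, div_div, div_div, mul_comm]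

lemma av_le_one [Nonempty Ω] {f : Ω → ℝ} (h : ∀ ω, f ω ≤ 1) : av f ≤ 1 := by
  calc av f ≤ av (fun _ : Ω => (1:ℝ)) := av_mono h
    _ = 1 := av_const 1

lemma exists_av_le [Nonempty Ω] (f : Ω → ℝ) : ∃ ω, av f ≤ f ω := by
  by_contra hcon
  push Not at hcon
  have h := card_pos' (Ω := Ω)
  have h1 : ∑ ω, f ω < ∑ _ω : Ω, av f :=
    Finset.sum_lt_sum_of_nonempty Finset.univ_nonempty (fun ω _ => hcon ω)
  rw [Finset.sum_const, nsmul_eq_mul, Finset.card_univ] at h1
  unfold av at h1
  rw [mul_div_cancel₀ _ h.ne'] at h1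
  exact lt_irrefl _ h1

lemma av_equiv (e : Ω ≃ Ω') (f : Ω' → ℝ) : av (fun ω => f (e ω)) = av f := by
  unfold av
  rw [Fintype.card_congr e]
  congr 1
  exact Fintype.sum_equiv e _ _ (fun _ => rfl)

lemma av_prod (f : Ω × Ω' → ℝ) : av f = av (fun a => av (fun b => f (a, b))) := by
  unfold av
  rw [Fintype.sum_prod_type, ← Finset.sum_div, div_div, Fintype.card_prod]
  congr 1
  push_cast
  ring

lemma av_pow_le [Nonempty Ω] (f : Ω → ℝ) (hf : ∀ ω, 0 ≤ f ω) (n : ℕ) :
    (av f) ^ n ≤ av (fun ω => f ω ^ n) := by
  have h := card_pos' (Ω := Ω)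
  have key := Real.pow_arith_mean_le_arith_mean_pow (Finset.univ : Finset Ω)
    (fun _ => 1 / (Fintype.card Ω : ℝ)) f (fun _ _ => by positivity)
    (by rw [Finset.sum_const, nsmul_eq_mul, Finset.card_univ]; field_simp)
    (fun ω _ => hf ω) n
  have e1 : av f = ∑ ω, 1 / (Fintype.card Ω : ℝ) * f ω := by
    unfold av
    rw [← Finset.mul_sum]; ring
  have e2 : av (fun ω => f ω ^ n) = ∑ ω, 1 / (Fintype.card Ω : ℝ) * f ω ^ n := by
    unfold av
    rw [← Finset.mul_sum]; ring
  rw [e1, e2]
  exact key

lemma av_ind_pow (Q : Ω → Prop) (n : ℕ) :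
    av (fun ζ : Fin n → Ω => ind (∀ i, Q (ζ i))) = (av (fun z => ind (Q z))) ^ n := by
  unfold av
  rw [div_pow, Fintype.sum_pow, Fintype.card_fun, Fintype.card_fin]
  push_cast
  congr 1
  refine Finset.sum_congr rfl fun ζ _ => ?_
  by_cases h : ∀ i, Q (ζ i)
  · rw [ind_true h, Finset.prod_eq_one]
    intro i _
    exact ind_true (h i)
  · rw [ind_false h]
    push Not at h
    obtain ⟨i, hi⟩ := h
    rw [Finset.prod_eq_zero (Finset.mem_univ i)]
    exact ind_false hi

lemma markov (f : Ω → ℝ) (hf : ∀ ω, 0 ≤ f ω) (t : ℝ) :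
    av (fun ω => ind (t < f ω)) * t ≤ av f := by
  rw [← av_mul_right]
  apply av_mono
  intro ω
  by_cases h : t < f ω
  · rw [ind_true h]; linarith
  · rw [ind_false h]; simpa using hf ω

end av

/-- marginalisation along an injective reindexing -/
lemma av_comp_injective {A B X : Type*} [Fintype A] [Fintype B] [Fintype X] [Nonempty X]
    (g : A → B) (hg : Injective g) (f : (A → X) → ℝ) :
    av (fun x : B → X => f (fun a => x (g a))) = av f := by
  let e1 := Equiv.piEquivPiSubtypeProd (fun b => b ∈ Set.range g) (fun _ : B => X)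
  let e2 : ({b // b ∈ Set.range g} → X) ≃ (A → X) :=
    Equiv.arrowCongr (Equiv.ofInjective g hg).symm (Equiv.refl X)
  have h1 : av (fun x : B → X => f (fun a => x (g a))) =
      av (fun p : ({b // b ∈ Set.range g} → X) × ({b // ¬ b ∈ Set.range g} → X) =>
        f (e2 p.1)) := by
    rw [← av_equiv e1]
    congr 1
  rw [h1, av_prod]
  rw [show (fun a : ({b // b ∈ Set.range g} → X) =>
      av (fun _b : ({b // ¬ b ∈ Set.range g} → X) => f (e2 a))) =
      fun a => f (e2 a) from funext fun a => av_const _]
  exact av_equiv e2 f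

lemma av_inst {Ω : Type*} (i1 i2 : Fintype Ω) (f g : Ω → ℝ) (h : ∀ ω, f ω = g ω) :
    @av Ω i1 f = @av Ω i2 g := by
  rw [Subsingleton.elim i1 i2, funext h]

lemma av_reindex {V X : Type*} [Fintype V] [Fintype X] [Nonempty X] (S0 : Finset V) (N : ℕ)
    (h : S0.card ≤ N) : ∃ g : {v // v ∈ S0} → Fin N, ∀ β : ({v // v ∈ S0} → X) → ℝ,
      av (fun x : V → X => β (fun a => x a.1)) = av (fun y : Fin N → X => β (fun a => y (g a))) := by
  have hAcard : Fintype.card {v // v ∈ S0} ≤ Fintype.card (Fin N) := by
    rw [Fintype.card_coe, Fintype.card_fin]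
    exact h
  obtain ⟨g⟩ := Function.Embedding.nonempty_of_card_le hAcard
  refine ⟨g, fun β => ?_⟩
  have h1 := av_comp_injective (X := X) (fun a : {v // v ∈ S0} => a.1)
    Subtype.val_injective β
  have h2 := av_comp_injective (X := X) (fun a : {v // v ∈ S0} => g a) g.injective β
  exact (h1.trans h2.symm).trans (av_inst _ _ _ _ fun _ => rfl)

/-! ### iterated coordinate averages -/

section avL
variable {V X : Type*}

/-- iterated average over the coordinates in the list, coordinate `c` ranging over `Z c` -/
def avL (Z : V → Finset X) : List V → ((V → X) → ℝ) → (V → X) → ℝ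
  | [], f, x => f x
  | c :: l, f, x => (∑ z ∈ Z c, avL Z l f (update x c z)) / ((Z c).card : ℝ)

lemma avL_nil (Z : V → Finset X) (f : (V → X) → ℝ) (x : V → X) : avL Z [] f x = f x := rfl

lemma avL_cons (Z : V → Finset X) (c : V) (l : List V) (f : (V → X) → ℝ) (x : V → X) :
    avL Z (c :: l) f x = (∑ z ∈ Z c, avL Z l f (update x c z)) / ((Z c).card : ℝ) := rfl

lemma avL_nonneg (Z : V → Finset X) (l : List V) (f : (V → X) → ℝ) (hf : ∀ x, 0 ≤ f x)
    (x : V → X) : 0 ≤ avL Z l f x := by
  induction l generalizing x with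
  | nil => exact hf x
  | cons c l ih =>
    rw [avL_cons]
    exact div_nonneg (Finset.sum_nonneg fun z _ => ih _) (Nat.cast_nonneg _)

/-- dependence: if `f` depends only on `S`, then `avL Z l f` depends only on `S \ l` -/
lemma avL_dep (Z : V → Finset X) (l : List V) (f : (V → X) → ℝ) (S : Finset V)
    (hf : ∀ x y, (∀ v ∈ S, x v = y v) → f x = f y) (x y : V → X)
    (h : ∀ v ∈ S, v ∉ l → x v = y v) : avL Z l f x = avL Z l f y := by
  induction l generalizing x y with
  | nil => exact hf x y (fun v hv => h v hv (by simp))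
  | cons c l ih =>
    rw [avL_cons, avL_cons]
    congr 1
    refine Finset.sum_congr rfl fun z _ => ?_
    apply ih
    intro v hv hvl
    by_cases hvc : v = c
    · subst hvc; simp
    · rw [update_of_ne hvc, update_of_ne hvc]
      exact h v hv (by simp [hvc, hvl])

/-- the average is preserved by averaging a coordinate uniformly -/
lemma av_update [Fintype V] [Fintype X] [Nonempty X] (c : V) (f : (V → X) → ℝ) :
    av (fun x : V → X => av (fun z : X => f (update x c z))) = av f := by
  rw [← av_prod (fun p : (V → X) × X => f (update p.1 c p.2))]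
  let e : (V → X) × X ≃ (V → X) × X :=
    { toFun := fun p => (update p.1 c p.2, p.1 c)
      invFun := fun p => (update p.1 c p.2, p.1 c)
      left_inv := by
        rintro ⟨x, z⟩
        simp
      right_inv := by
        rintro ⟨x, z⟩
        simp }
  have h1 : av (fun p : (V → X) × X => f (update p.1 c p.2)) =
      av (fun p : (V → X) × X => f p.1) := by
    rw [← av_equiv e (fun p : (V → X) × X => f p.1)]
    rfl
  rw [h1, av_prod]
  congr 1
  funext x
  exact av_const (Ω := X) (f x)

lemma av_avL [Fintype V] [Fintype X] [Nonempty X] (l : List V) (f : (V → X) → ℝ) :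
    av (fun x : V → X => avL (fun _ => (Finset.univ : Finset X)) l f x) = av f := by
  induction l with
  | nil => rfl
  | cons c l ih =>
    rw [← ih, ← av_update c (fun x : V → X => avL (fun _ => (Finset.univ : Finset X)) l f x)]
    congr 1

/-- comparison between restricted and unrestricted averages of a function of few variables -/
lemma avL_le [Fintype X] [Nonempty X] (Z : V → Finset X) (η : ℝ) (hη : 0 < η)
    (l : List V) (hl : l.Nodup) (hZ : ∀ c ∈ l, η * (Fintype.card X : ℝ) ≤ ((Z c).card : ℝ))
    (f : (V → X) → ℝ) (hf0 : ∀ x, 0 ≤ f x) (S : Finset V)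
    (hf : ∀ x y, (∀ v ∈ S, x v = y v) → f x = f y) (x : V → X) :
    η ^ (S.filter (· ∈ l)).card * avL Z l f x ≤ avL (fun _ => (Finset.univ : Finset X)) l f x := by
  induction l generalizing x with
  | nil => simp [avL_nil]
  | cons c l ih =>
    have hcl : c ∉ l := (List.nodup_cons.1 hl).1
    have hl' : l.Nodup := (List.nodup_cons.1 hl).2
    have ih' := ih hl' (fun c' hc' => hZ c' (List.mem_cons_of_mem _ hc'))
    have hX := card_pos' (Ω := X)
    have hZc := hZ c (List.mem_cons_self)
    have hZpos : (0 : ℝ) < (Z c).card := lt_of_lt_of_le (by positivity) hZc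
    rw [avL_cons, avL_cons]
    by_cases hcS : c ∈ S
    · have hcard : (S.filter (· ∈ c :: l)).card = (S.filter (· ∈ l)).card + 1 := by
        rw [show S.filter (· ∈ c :: l) = insert c (S.filter (· ∈ l)) from ?_,
          Finset.card_insert_of_notMem (by simp [hcl])]
        ext v
        simp only [Finset.mem_filter, List.mem_cons, Finset.mem_insert]
        constructor
        · rintro ⟨h1, h2 | h2⟩
          · exact Or.inl h2
          · exact Or.inr ⟨h1, h2⟩
        · rintro (h1 | ⟨h1, h2⟩)
          · subst h1; exact ⟨hcS, Or.inl rfl⟩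
          · exact ⟨h1, Or.inr h2⟩
      rw [hcard, Finset.card_univ]
      have hsum : η ^ (S.filter (· ∈ l)).card * ∑ z ∈ Z c, avL Z l f (update x c z) ≤
          ∑ z : X, avL (fun _ => (Finset.univ : Finset X)) l f (update x c z) := by
        rw [Finset.mul_sum]
        calc ∑ z ∈ Z c, η ^ (S.filter (· ∈ l)).card * avL Z l f (update x c z)
            ≤ ∑ z ∈ Z c, avL (fun _ => (Finset.univ : Finset X)) l f (update x c z) :=
              Finset.sum_le_sum fun z _ => ih' _
          _ ≤ _ := Finset.sum_le_sum_of_subset_of_nonneg (Finset.subset_univ _)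
              (fun z _ _ => avL_nonneg _ _ _ hf0 _)
      set A := ∑ z ∈ Z c, avL Z l f (update x c z) with hA
      have hA0 : 0 ≤ A := Finset.sum_nonneg fun z _ => avL_nonneg _ _ _ hf0 _
      set k := (S.filter (· ∈ l)).card
      calc η ^ (k + 1) * (A / ((Z c).card : ℝ))
          = (η ^ k * A) * (η / ((Z c).card : ℝ)) := by ring
        _ ≤ (η ^ k * A) * (1 / (Fintype.card X : ℝ)) := by
            apply mul_le_mul_of_nonneg_left _ (by positivity)
            rw [div_le_div_iff₀ hZpos hX]
            linarith
        _ = (η ^ k * A) / (Fintype.card X : ℝ) := by ring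
        _ ≤ _ := by
            apply div_le_div_of_nonneg_right hsum hX.le
    · have hcard : (S.filter (· ∈ c :: l)).card = (S.filter (· ∈ l)).card := by
        congr 1
        ext v
        simp only [Finset.mem_filter, List.mem_cons]
        constructor
        · rintro ⟨h1, h2 | h2⟩
          · subst h2; exact absurd h1 hcS
          · exact ⟨h1, h2⟩
        · rintro ⟨h1, h2⟩
          exact ⟨h1, Or.inr h2⟩
      rw [hcard, Finset.card_univ]
      have e1 : ∀ z, avL Z l f (update x c z) = avL Z l f x := by
        intro z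
        apply avL_dep Z l f S hf
        intro v hv _
        rw [update_of_ne]
        rintro rfl
        exact hcS hv
      have e2 : ∀ z, avL (fun _ => (Finset.univ : Finset X)) l f (update x c z) =
          avL (fun _ => (Finset.univ : Finset X)) l f x := by
        intro z
        apply avL_dep _ l f S hf
        intro v hv _
        rw [update_of_ne]
        rintro rfl
        exact hcS hv
      simp only [e1, e2, Finset.sum_const, nsmul_eq_mul, Finset.card_univ]
      rw [mul_div_cancel_left₀ _ hZpos.ne', mul_div_cancel_left₀ _ hX.ne']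
      exact ih' x

end avL

/-! ### sequential selection -/

section seq
variable {V X J : Type*} [Fintype X] [Nonempty X] [Fintype J]

theorem seq_select (Z : V → Finset X) (S : J → Finset V) (B : J → (V → X) → Prop)
    (hB : ∀ j x y, (∀ v ∈ S j, x v = y v) → (B j x → B j y)) (L D : ℕ)
    (hL : ∀ j, (S j).card ≤ L) (hD : ∀ v, (univ.filter (fun j => v ∈ S j)).card ≤ D)
    (hD1 : 1 ≤ D) (δ : ℝ) (hδ0 : 0 < δ) (hδ : δ * (2 * (D : ℝ)) ^ L < 1)
    (η : ℝ) (hη : 0 < η) (l : List V) (hl : l.Nodup)
    (hZ : ∀ c ∈ l, η * (Fintype.card X : ℝ) ≤ ((Z c).card : ℝ)) (G : (V → X) → Prop) (x : V → X)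
    (hpot : ∀ j, avL Z l (fun y => ind (B j y)) x ≤
      δ * (2 * (D : ℝ)) ^ ((S j).filter (· ∉ l)).card)
    (hG : ∀ y, (∀ v, v ∉ l → y v = x v) → (∀ c ∈ l, y c ∈ Z c) → (∀ j, ¬ B j y) → G y) :
    (η / 2) ^ l.length ≤ avL (fun _ => (Finset.univ : Finset X)) l (fun y => ind (G y)) x := by
  have hD1' : (1 : ℝ) ≤ D := by exact_mod_cast hD1
  have hDD : (1 : ℝ) ≤ 2 * (D : ℝ) := by linarith
  have hX := card_pos' (Ω := X)
  induction l generalizing x with
  | nil =>
    have hBx : ∀ j, ¬ B j x := by
      intro j hj
      have h1 := hpot j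
      rw [avL_nil, ind_true hj] at h1
      have h2 : (2 * (D : ℝ)) ^ ((S j).filter (· ∉ ([] : List V))).card ≤ (2 * (D : ℝ)) ^ L :=
        pow_le_pow_right₀ hDD ((Finset.card_filter_le _ _).trans (hL j))
      have h3 := mul_le_mul_of_nonneg_left h2 hδ0.le
      linarith
    rw [avL_nil, ind_true (hG x (fun _ _ => rfl) (by simp) hBx)]
    simp
  | cons c l ih =>
    have hcl : c ∉ l := (List.nodup_cons.1 hl).1
    have hl' : l.Nodup := (List.nodup_cons.1 hl).2
    have hZ' : ∀ c' ∈ l, η * (Fintype.card X : ℝ) ≤ ((Z c').card : ℝ) :=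
      fun c' hc' => hZ c' (List.mem_cons_of_mem _ hc')
    have hZc := hZ c (List.mem_cons_self)
    have hZpos : (0 : ℝ) < (Z c).card := lt_of_lt_of_le (by positivity) hZc
    -- bad choices for one constraint
    set bad : J → X → Prop := fun j z => δ * (2 * (D : ℝ)) ^ ((S j).filter (· ∉ l)).card <
      avL Z l (fun y => ind (B j y)) (update x c z) with hbad
    have hbad1 : ∀ j, c ∉ S j → ∀ z, ¬ bad j z := by
      intro j hcj z
      rw [hbad]
      push Not
      have e1 : ∀ z, avL Z l (fun y => ind (B j y)) (update x c z) =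
          avL Z l (fun y => ind (B j y)) x := by
        intro z
        apply avL_dep Z l _ (S j)
        · intro x y hxy
          exact ind_congr ⟨hB j x y hxy, hB j y x (fun v hv => (hxy v hv).symm)⟩
        · intro v hv _
          rw [update_of_ne]
          rintro rfl
          exact hcj hv
      have h1 := hpot j
      rw [avL_cons] at h1
      simp only [e1, Finset.sum_const, nsmul_eq_mul] at h1
      rw [mul_div_cancel_left₀ _ hZpos.ne'] at h1
      show avL Z l (fun y => ind (B j y)) (update x c z) ≤ _
      rw [e1]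
      refine h1.trans ?_
      apply mul_le_mul_of_nonneg_left _ hδ0.le
      apply pow_le_pow_right₀ hDD
      apply Finset.card_le_card
      intro v hv
      simp only [Finset.mem_filter, List.mem_cons, not_or] at hv ⊢
      exact ⟨hv.1, hv.2.2⟩
    have hbad2 : ∀ j, c ∈ S j → (((Z c).filter (bad j)).card : ℝ) * (2 * D) ≤ (Z c).card := by
      intro j hcj
      set q := δ * (2 * (D : ℝ)) ^ ((S j).filter (· ∉ c :: l)).card with hq
      have hq0 : 0 < q := by positivity
      have hcard : ((S j).filter (· ∉ l)).card = ((S j).filter (· ∉ c :: l)).card + 1 := by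
        rw [show (S j).filter (· ∉ l) = insert c ((S j).filter (· ∉ c :: l)) from ?_,
          Finset.card_insert_of_notMem (by simp)]
        ext v
        simp only [Finset.mem_filter, List.mem_cons, Finset.mem_insert, not_or]
        constructor
        · rintro ⟨h1, h2⟩
          by_cases hvc : v = c
          · exact Or.inl hvc
          · exact Or.inr ⟨h1, hvc, h2⟩
        · rintro (h1 | ⟨h1, h2, h3⟩)
          · subst h1; exact ⟨hcj, hcl⟩
          · exact ⟨h1, h3⟩
      have hq2 : δ * (2 * (D : ℝ)) ^ ((S j).filter (· ∉ l)).card = q * (2 * D) := by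
        rw [hcard, hq]; ring
      have h1 := hpot j
      rw [avL_cons, div_le_iff₀ hZpos] at h1
      have h2 : (((Z c).filter (bad j)).card : ℝ) * (q * (2 * D)) ≤
          ∑ z ∈ Z c, avL Z l (fun y => ind (B j y)) (update x c z) := by
        calc (((Z c).filter (bad j)).card : ℝ) * (q * (2 * D))
            = ∑ z ∈ (Z c).filter (bad j), q * (2 * D) := by
              rw [Finset.sum_const, nsmul_eq_mul]
          _ ≤ ∑ z ∈ (Z c).filter (bad j), avL Z l (fun y => ind (B j y)) (update x c z) := by
              apply Finset.sum_le_sum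
              intro z hz
              have := (Finset.mem_filter.1 hz).2
              rw [hbad, hq2] at this
              exact this.le
          _ ≤ _ := Finset.sum_le_sum_of_subset_of_nonneg (Finset.filter_subset _ _)
              (fun z _ _ => avL_nonneg _ _ _ (fun _ => ind_nonneg _) _)
      have h3 : (((Z c).filter (bad j)).card : ℝ) * (2 * D) * q ≤ (Z c).card * q := by
        nlinarith [h1, h2]
      exact le_of_mul_le_mul_right h3 hq0
    -- good choices
    set good := (Z c).filter (fun z => ∀ j, ¬ bad j z) with hgood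
    have hgoodcard : ((Z c).card : ℝ) / 2 ≤ good.card := by
      have h1 : Z c ⊆ good ∪ (univ.filter (fun j => c ∈ S j)).biUnion
          (fun j => (Z c).filter (bad j)) := by
        intro z hz
        by_cases hg : ∀ j, ¬ bad j z
        · exact Finset.mem_union_left _ (Finset.mem_filter.2 ⟨hz, hg⟩)
        · push Not at hg
          obtain ⟨j, hj⟩ := hg
          apply Finset.mem_union_right
          rw [Finset.mem_biUnion]
          refine ⟨j, ?_, Finset.mem_filter.2 ⟨hz, hj⟩⟩
          simp only [Finset.mem_filter, Finset.mem_univ, true_and]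
          by_contra hcj
          exact hbad1 j hcj z hj
      have h2 : ((Z c).card : ℝ) ≤ good.card +
          ∑ j ∈ univ.filter (fun j => c ∈ S j), (((Z c).filter (bad j)).card : ℝ) := by
        have := (Finset.card_le_card h1).trans ((Finset.card_union_le _ _).trans
          (Nat.add_le_add_left Finset.card_biUnion_le _))
        exact_mod_cast this
      have h3 : ∑ j ∈ univ.filter (fun j => c ∈ S j), (((Z c).filter (bad j)).card : ℝ) ≤
          ∑ j ∈ univ.filter (fun j => c ∈ S j), ((Z c).card : ℝ) / (2 * D) := by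
        apply Finset.sum_le_sum
        intro j hj
        rw [le_div_iff₀ (by positivity)]
        exact hbad2 j (Finset.mem_filter.1 hj).2
      rw [Finset.sum_const, nsmul_eq_mul] at h3
      have h4 : ((univ.filter (fun j => c ∈ S j)).card : ℝ) * (((Z c).card : ℝ) / (2 * D)) ≤
          (D : ℝ) * (((Z c).card : ℝ) / (2 * D)) := by
        apply mul_le_mul_of_nonneg_right _ (by positivity)
        exact_mod_cast hD c
      have h5 : (D : ℝ) * (((Z c).card : ℝ) / (2 * D)) = ((Z c).card : ℝ) / 2 := by
        have : (D : ℝ) ≠ 0 := by positivity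
        field_simp
      linarith
    -- apply the induction hypothesis for good choices
    have hIH : ∀ z ∈ good, (η / 2) ^ l.length ≤
        avL (fun _ => (Finset.univ : Finset X)) l (fun y => ind (G y)) (update x c z) := by
      intro z hz
      rw [hgood, Finset.mem_filter] at hz
      apply ih hl' hZ' (update x c z)
      · intro j
        exact not_lt.1 (hz.2 j)
      · intro y hy1 hy2 hy3
        apply hG y _ _ hy3
        · intro v hv
          simp only [List.mem_cons, not_or] at hv
          rw [hy1 v hv.2, update_of_ne hv.1]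
        · intro c' hc'
          rcases List.mem_cons.1 hc' with h | h
          · subst h
            rw [hy1 c' hcl, update_self]
            exact hz.1
          · exact hy2 c' h
    rw [avL_cons, Finset.card_univ, List.length_cons, le_div_iff₀ hX]
    calc (η / 2) ^ (l.length + 1) * (Fintype.card X : ℝ)
        = (η * (Fintype.card X : ℝ)) / 2 * (η / 2) ^ l.length := by ring
      _ ≤ ((Z c).card : ℝ) / 2 * (η / 2) ^ l.length := by
          apply mul_le_mul_of_nonneg_right _ (by positivity)
          linarith
      _ ≤ (good.card : ℝ) * (η / 2) ^ l.length := by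
          apply mul_le_mul_of_nonneg_right hgoodcard (by positivity)
      _ = ∑ z ∈ good, (η / 2) ^ l.length := by rw [Finset.sum_const, nsmul_eq_mul]
      _ ≤ ∑ z ∈ good, avL (fun _ => (Finset.univ : Finset X)) l (fun y => ind (G y))
            (update x c z) := Finset.sum_le_sum hIH
      _ ≤ _ := Finset.sum_le_sum_of_subset_of_nonneg (Finset.subset_univ _)
            (fun z _ _ => avL_nonneg _ _ _ (fun _ => ind_nonneg _) _)

end seq

/-! ### dependent random choice -/

theorem drc {X : Type*} [Fintype X] [Nonempty X] (r N : ℕ) (W : (Fin (r + 1) → X) → Prop)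
    (ρ : ℝ) (hρ0 : 0 < ρ) (hρ1 : ρ ≤ 1 / 2) (hW : ρ ≤ av (fun x => ind (W x))) (M' s : ℕ)
    (hs : s = 2 * Fintype.card (Finset (Fin r → Fin N))) :
    ∃ W' : (Fin r → X) → Prop, ρ ^ (s + 1) ≤ av (fun y => ind (W' y)) ∧
      ∀ Q : Finset (Fin r → Fin N), av (fun y : Fin N → X =>
        ind ((∀ q ∈ Q, W' (fun i => y (q i))) ∧
          av (fun z => ind (∀ q ∈ Q, W (Fin.snoc (α := fun _ => X) (fun i => y (q i)) z))) <
            ρ ^ (2 * M' + 2))) ≤ ρ ^ ((s + 1) * M') := by
  set Nq := Fintype.card (Finset (Fin r → Fin N)) with hNq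
  have hNq1 : 1 ≤ Nq := Fintype.card_pos
  have hs1 : 1 ≤ s := by omega
  set η := ρ ^ (2 * M' + 2) with hη
  have hη0 : 0 < η := by positivity
  have hρle : ρ ≤ 1 := by linarith
  -- the random choice
  let W' : (Fin s → X) → (Fin r → X) → Prop :=
    fun ζ y => ∀ i, W (Fin.snoc (α := fun _ => X) y (ζ i))
  let f : (Fin s → X) → ℝ := fun ζ => av (fun y => ind (W' ζ y))
  let b : Finset (Fin r → Fin N) → (Fin s → X) → ℝ := fun Q ζ =>
    av (fun y : Fin N → X => ind ((∀ q ∈ Q, W' ζ (fun i => y (q i))) ∧
          av (fun z => ind (∀ q ∈ Q, W (Fin.snoc (α := fun _ => X) (fun i => y (q i)) z))) < η))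
  have hf : ρ ^ s ≤ av f := by
    calc ρ ^ s ≤ (av (fun x => ind (W x))) ^ s := by gcongr
      _ = (av (fun y : Fin r → X => av (fun z : X =>
            ind (W (Fin.snoc (α := fun _ => X) y z))))) ^ s := by
          congr 1
          rw [av_comm, ← av_prod (fun p : X × (Fin r → X) =>
            ind (W (Fin.snoc (α := fun _ => X) p.2 p.1))),
            ← av_equiv (Fin.snocEquiv (fun _ : Fin (r + 1) => X))]
          rfl
      _ ≤ av (fun y : Fin r → X => (av (fun z : X =>
            ind (W (Fin.snoc (α := fun _ => X) y z)))) ^ s) :=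
          av_pow_le _ (fun y => av_nonneg fun z => ind_nonneg _) s
      _ = av (fun y : Fin r → X => av (fun ζ : Fin s → X => ind (W' ζ y))) := by
          congr 1
          funext y
          rw [← av_ind_pow]
      _ = av f := av_comm _
  have hb : ∀ Q, av (b Q) ≤ η ^ s := by
    intro Q
    show av (fun ζ => av (fun y : Fin N → X => ind ((∀ q ∈ Q, W' ζ (fun i => y (q i))) ∧
          av (fun z => ind (∀ q ∈ Q, W (Fin.snoc (α := fun _ => X) (fun i => y (q i)) z))) < η)))
          ≤ η ^ s
    rw [av_comm]
    calc _ ≤ av (fun _ : Fin N → X => η ^ s) := by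
          apply av_mono
          intro y
          by_cases hc : av (fun z => ind (∀ q ∈ Q, W (Fin.snoc (α := fun _ => X)
              (fun i => y (q i)) z))) < η
          · calc av (fun ζ : Fin s → X => ind ((∀ q ∈ Q, W' ζ (fun i => y (q i))) ∧
                  av (fun z => ind (∀ q ∈ Q, W (Fin.snoc (α := fun _ => X)
                    (fun i => y (q i)) z))) < η))
                ≤ av (fun ζ : Fin s → X => ind (∀ i, ∀ q ∈ Q, W (Fin.snoc (α := fun _ => X)
                    (fun i => y (q i)) (ζ i)))) := by
                  apply av_mono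
                  intro ζ
                  apply ind_mono
                  rintro ⟨h1, _⟩ i q hq
                  exact h1 q hq i
              _ = (av (fun z => ind (∀ q ∈ Q, W (Fin.snoc (α := fun _ => X)
                    (fun i => y (q i)) z)))) ^ s :=
                  av_ind_pow (fun z => ∀ q ∈ Q, W (Fin.snoc (α := fun _ => X)
                    (fun i => y (q i)) z)) s
              _ ≤ η ^ s := by
                  apply pow_le_pow_left₀ _ hc.le
                  exact av_nonneg fun z => ind_nonneg _
          · calc _ ≤ av (fun _ζ : Fin s → X => (0 : ℝ)) := by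
                  apply av_mono
                  intro ζ
                  rw [ind_false]
                  rintro ⟨_, h2⟩
                  exact hc h2
              _ = 0 := av_const 0
              _ ≤ η ^ s := by positivity
      _ = η ^ s := av_const _
  -- combine
  set κ := ρ ^ ((s + 1) * M') with hκ
  have hκ0 : 0 < κ := by positivity
  have hsum : av (fun ζ => ∑ Q, b Q ζ) ≤ Nq * η ^ s := by
    rw [av_sum]
    calc ∑ Q, av (b Q) ≤ ∑ _Q : Finset (Fin r → Fin N), η ^ s :=
          Finset.sum_le_sum fun Q _ => hb Q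
      _ = Nq * η ^ s := by rw [Finset.sum_const, nsmul_eq_mul, Finset.card_univ]
  have hpar : (Nq : ℝ) * η ^ s ≤ κ * (ρ ^ s / 2) := by
    have h1 : (2 * Nq : ℝ) * ρ ^ s ≤ 1 := by
      have h2 : (2 * Nq : ℝ) ≤ 2 ^ s := by
        have : 2 * Nq ≤ 2 ^ s := by
          rw [hs]; exact Nat.lt_two_pow_self.le
        exact_mod_cast this
      have h3 : ρ ^ s ≤ (1 / 2) ^ s := by gcongr
      calc (2 * Nq : ℝ) * ρ ^ s ≤ 2 ^ s * (1 / 2) ^ s := by gcongr
        _ = 1 := by rw [← mul_pow]; norm_num
    have h4 : η ^ s ≤ κ * ρ ^ s * ρ ^ s := by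
      rw [hη, hκ, ← pow_mul, ← pow_add, ← pow_add]
      apply pow_le_pow_of_le_one hρ0.le hρle
      nlinarith [Nat.mul_le_mul_right M' hs1]
    calc (Nq : ℝ) * η ^ s ≤ Nq * (κ * ρ ^ s * ρ ^ s) := by gcongr
      _ = (2 * Nq * ρ ^ s) * (κ * (ρ ^ s / 2)) := by ring
      _ ≤ 1 * (κ * (ρ ^ s / 2)) := by gcongr
      _ = _ := one_mul _
  obtain ⟨ζ, hζ⟩ := exists_av_le (fun ζ => f ζ - κ⁻¹ * ∑ Q, b Q ζ)
  rw [av_sub, av_mul_left] at hζ
  have h1 : κ⁻¹ * av (fun ζ => ∑ Q, b Q ζ) ≤ ρ ^ s / 2 := by
    rw [inv_mul_le_iff₀ hκ0]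
    exact hsum.trans hpar
  have h2 : ρ ^ s / 2 ≤ f ζ - κ⁻¹ * ∑ Q, b Q ζ := by
    refine le_trans ?_ hζ
    have : av (fun ω => f ω) = av f := rfl
    linarith
  have hbnn : ∀ Q, 0 ≤ b Q ζ := fun Q => av_nonneg fun _ => ind_nonneg _
  have h3 : 0 ≤ κ⁻¹ * ∑ Q, b Q ζ :=
    mul_nonneg (inv_nonneg.2 hκ0.le) (Finset.sum_nonneg fun Q _ => hbnn Q)
  have hf1 : f ζ ≤ 1 := av_le_one fun _ => ind_le_one _
  refine ⟨W' ζ, ?_, ?_⟩
  · have : ρ ^ (s + 1) ≤ ρ ^ s / 2 := by
      rw [pow_succ]
      have : 0 < ρ ^ s := by positivity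
      nlinarith
    show ρ ^ (s + 1) ≤ f ζ
    linarith
  · intro Q
    show b Q ζ ≤ κ
    have h4 : b Q ζ ≤ ∑ Q, b Q ζ :=
      Finset.single_le_sum (f := fun Q => b Q ζ) (fun Q _ => hbnn Q) (Finset.mem_univ Q)
    have h5 : κ⁻¹ * ∑ Q, b Q ζ ≤ 1 := by
      have : 0 ≤ ρ ^ s / 2 := by positivity
      linarith
    rw [inv_mul_le_iff₀ hκ0, mul_one] at h5
    linarith

/-! ### the counting theorem -/

/-- The counting statement for uniformity `r`. -/
def HP (r : ℕ) : Prop := ∀ Δ L D : ℕ, ∃ M C : ℕ, ∀ (X : Type) [Fintype X] [Nonempty X]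
  (V E J : Type) [Fintype V] [Fintype E] [Fintype J] (π : V → ℕ) (e : E → Fin r → V)
  (S : J → Finset V) (B : J → (V → X) → Prop) (W : (Fin r → X) → Prop) (ρ : ℝ),
  0 < ρ → ρ ≤ 1 / 2 → (∀ t i, π (e t i) = i) →
  (∀ v, (univ.filter (fun t => ∃ i, e t i = v)).card ≤ Δ) →
  (∀ j, (S j).card ≤ L) → (∀ v, (univ.filter (fun j => v ∈ S j)).card ≤ D) →
  (∀ j, ∀ v ∈ S j, π v < r) →
  (∀ j x y, (∀ v ∈ S j, x v = y v) → (B j x → B j y)) →
  ρ ≤ av (fun x => ind (W x)) → (∀ j, av (fun x => ind (B j x)) ≤ ρ ^ M) →
  ρ ^ (C * (univ.filter (fun v => π v < r)).card) ≤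
    av (fun x : V → X => ind ((∀ t, W (fun i => x (e t i))) ∧ ∀ j, ¬ B j x))

lemma av_ind_eq {X : Type*} [Fintype X] (p : X → Prop) :
    av (fun z => ind (p z)) = ((univ.filter p).card : ℝ) / Fintype.card X := by
  unfold av ind
  rw [Finset.sum_boole]

theorem hp_zero : HP 0 := by
  intro Δ L D
  refine ⟨1, 0, ?_⟩
  intro X _ _ V E J _ _ _ π e S B W ρ hρ0 hρ1 hπ hΔ hL hD hSπ hB hW hBM
  have hWt : ∀ y, W y := by
    by_contra hcon
    push Not at hcon
    obtain ⟨y, hy⟩ := hcon
    have : av (fun x => ind (W x)) ≤ av (fun _ : Fin 0 → X => (0 : ℝ)) := by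
      apply av_mono
      intro x
      rw [ind_false]
      rwa [Subsingleton.elim x y]
    rw [av_const] at this
    linarith
  have hBf : ∀ j x, ¬ B j x := by
    intro j x hx
    have h1 : ∀ y, B j y := by
      intro y
      apply hB j x y _ hx
      intro v hv
      exact absurd (hSπ j v hv) (by omega)
    have h2 := hBM j
    rw [show (fun x => ind (B j x)) = fun _ : V → X => (1 : ℝ) from
      funext fun y => ind_true (h1 y), av_const] at h2
    rw [pow_one] at h2
    linarith
  rw [show (fun x : V → X => ind ((∀ t, W (fun i => x (e t i))) ∧ ∀ j, ¬ B j x)) =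
    fun _ : V → X => (1 : ℝ) from funext fun y => ind_true ⟨fun t => hWt _, fun j => hBf j y⟩,
    av_const]
  simp

theorem hp_succ (r : ℕ) (ih : HP r) : HP (r + 1) := by
  intro Δ L D
  obtain ⟨M', C', hP⟩ := ih Δ (L + Δ * r) (Δ + D)
  set N := Δ * r with hN
  set s := 2 * Fintype.card (Finset (Fin r → Fin N)) with hs
  set h := 2 * M' + 2 with hh
  set b := 2 * (2 * (D + 1)) ^ L with hb
  refine ⟨b + h * L + (s + 1) * M', (s + 1) * C' + h + 1, ?_⟩
  intro X _ _ V E J _ _ _ π e S B W ρ hρ0 hρ1 hπ hΔ hL hD hSπ hB hW hBM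
  obtain ⟨W', hW', hQ⟩ := drc r N W ρ hρ0 hρ1 hW M' s hs
  have hρle : ρ ≤ 1 := by linarith
  set η := ρ ^ (2 * M' + 2) with hη
  have hη0 : 0 < η := by positivity
  have hη1 : η ≤ 1 := pow_le_one₀ hρ0.le hρle
  set δ : ℝ := 1 / (b : ℝ) with hδ
  have hb1 : 0 < b := by positivity
  have hb1' : (0 : ℝ) < b := by exact_mod_cast hb1
  have hδ0 : 0 < δ := by positivity
  let e' : E → Fin r → V := fun t i => e t i.castSucc
  let T : V → Finset E := fun c => univ.filter (fun t => e t (Fin.last r) = c)
  let codeg : V → (V → X) → ℝ := fun c x =>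
    av (fun z => ind (∀ t ∈ T c, W (Fin.snoc (α := fun _ => X) (fun i => x (e' t i)) z)))
  set K : Finset V := univ.filter (fun v => π v = r) with hK
  set l : List V := K.toList with hl
  have hmem : ∀ v, v ∈ l ↔ π v = r := by
    intro v
    rw [hl, Finset.mem_toList, hK]
    simp
  have hnodup : l.Nodup := K.nodup_toList
  let pj : J → (V → X) → ℝ := fun j x =>
    avL (fun _ => (Finset.univ : Finset X)) l (fun y => ind (B j y)) x
  let S' : V ⊕ J → Finset V := Sum.elim
    (fun c => (T c).biUnion (fun t => univ.image (e' t)))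
    (fun j => (S j).filter (fun v => v ∉ l))
  let B' : V ⊕ J → (V → X) → Prop := Sum.elim
    (fun c x => (∀ t ∈ T c, W' (fun i => x (e' t i))) ∧ codeg c x < η)
    (fun j x => δ * η ^ L < pj j x)
  have hTcard : ∀ c, (T c).card ≤ Δ := by
    intro c
    refine le_trans (Finset.card_le_card ?_) (hΔ c)
    intro t ht
    simp only [T, Finset.mem_filter, Finset.mem_univ, true_and] at ht ⊢
    exact ⟨_, ht⟩
  have hSccard : ∀ c, ((T c).biUnion (fun t => univ.image (e' t))).card ≤ Δ * r := by
    intro c
    calc _ ≤ ∑ t ∈ T c, (univ.image (e' t)).card := Finset.card_biUnion_le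
      _ ≤ ∑ t ∈ T c, r := by
          apply Finset.sum_le_sum
          intro t _
          calc _ ≤ (univ : Finset (Fin r)).card := Finset.card_image_le
            _ = r := by simp
      _ = (T c).card * r := by rw [Finset.sum_const, smul_eq_mul]
      _ ≤ Δ * r := Nat.mul_le_mul_right _ (hTcard c)
  have hBiff : ∀ j x y, (∀ v ∈ S j, x v = y v) → ind (B j x) = ind (B j y) := by
    intro j x y hxy
    exact ind_congr ⟨hB j x y hxy, hB j y x (fun v hv => (hxy v hv).symm)⟩
  -- apply the induction hypothesis
  have key := hP X V E (V ⊕ J) π e' S' B' W' (ρ ^ (s + 1)) (by positivity)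
    (by
      calc ρ ^ (s + 1) ≤ ρ ^ 1 := pow_le_pow_of_le_one hρ0.le hρle (by omega)
        _ ≤ 1 / 2 := by rw [pow_one]; exact hρ1)
    (by
      intro t i
      have := hπ t i.castSucc
      simpa using this)
    (by
      intro v
      refine le_trans (Finset.card_le_card ?_) (hΔ v)
      intro t ht
      simp only [Finset.mem_filter, Finset.mem_univ, true_and] at ht ⊢
      obtain ⟨i, hi⟩ := ht
      exact ⟨i.castSucc, hi⟩)
    (by
      rintro (c | j)
      · exact (hSccard c).trans (by omega)
      · exact (Finset.card_filter_le _ _).trans ((hL j).trans (by omega)))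
    (by
      intro v
      have e1 : (univ.filter (fun j : V ⊕ J => v ∈ S' j)) =
          (univ.filter (fun c : V => v ∈ S' (Sum.inl c))).disjSum
            (univ.filter (fun j : J => v ∈ S' (Sum.inr j))) := by
        ext j
        rcases j with c | j
        · simp
        · simp
      rw [e1, Finset.card_disjSum]
      apply Nat.add_le_add
      · calc _ ≤ ((univ.filter (fun t => ∃ i, e t i = v)).image
              (fun t => e t (Fin.last r))).card := by
              apply Finset.card_le_card
              intro c hc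
              simp only [S', Sum.elim_inl, T, Finset.mem_filter, Finset.mem_univ, true_and,
                Finset.mem_biUnion, Finset.mem_image] at hc ⊢
              obtain ⟨t, ht, i, hi⟩ := hc
              exact ⟨t, ⟨i.castSucc, hi⟩, ht⟩
          _ ≤ _ := Finset.card_image_le
          _ ≤ Δ := hΔ v
      · refine le_trans (Finset.card_le_card ?_) (hD v)
        intro j hj
        simp only [S', Sum.elim_inr, Finset.mem_filter, Finset.mem_univ, true_and] at hj ⊢
        exact hj.1)
    (by
      rintro (c | j) v hv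
      · simp only [S', Sum.elim_inl, Finset.mem_biUnion, Finset.mem_image, Finset.mem_univ,
          true_and] at hv
        obtain ⟨t, _, i, hi⟩ := hv
        have := hπ t i.castSucc
        rw [← hi]
        show π (e t i.castSucc) < r
        rw [this]
        simp
      · simp only [S', Sum.elim_inr, Finset.mem_filter] at hv
        have h1 := hSπ j v hv.1
        have h2 : π v ≠ r := fun h3 => hv.2 ((hmem v).2 h3)
        omega)
    (by
      rintro (c | j) x y hxy
      · have hx : ∀ t ∈ T c, (fun i => x (e' t i)) = (fun i => y (e' t i)) := by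
          intro t ht
          funext i
          apply hxy
          simp only [S', Sum.elim_inl, Finset.mem_biUnion, Finset.mem_image, Finset.mem_univ,
            true_and]
          exact ⟨t, ht, i, rfl⟩
        simp only [B', Sum.elim_inl]
        rintro ⟨h1, h2⟩
        refine ⟨fun t ht => by rw [← hx t ht]; exact h1 t ht, ?_⟩
        have h3 : codeg c y = codeg c x := by
          simp only [codeg]
          congr 1
          funext z
          apply ind_congr
          constructor
          · intro h4 t ht
            rw [hx t ht]; exact h4 t ht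
          · intro h4 t ht
            rw [← hx t ht]; exact h4 t ht
        rw [h3]; exact h2
      · simp only [B', Sum.elim_inr]
        intro h1
        have h2 : pj j x = pj j y := by
          apply avL_dep _ l _ (S j) (hBiff j)
          intro v hv hvl
          apply hxy
          simp only [S', Sum.elim_inr, Finset.mem_filter]
          exact ⟨hv, hvl⟩
        rw [← h2]; exact h1)
    hW'
    (by
      rintro (c | j)
      · -- constraint coming from a vertex of the last part
        rw [← pow_mul]
        simp only [B', Sum.elim_inl]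
        obtain ⟨g, hg⟩ := av_reindex (X := X) ((T c).biUnion (fun t => univ.image (e' t))) N
          (hSccard c)
        have hin : ∀ t ∈ T c, ∀ i, e' t i ∈ (T c).biUnion (fun t => univ.image (e' t)) := by
          intro t ht i
          simp only [Finset.mem_biUnion, Finset.mem_image, Finset.mem_univ, true_and]
          exact ⟨t, ht, i, rfl⟩
        let β : ({v // v ∈ (T c).biUnion (fun t => univ.image (e' t))} → X) → Prop := fun w =>
          (∀ t (ht : t ∈ T c), W' (fun i => w ⟨e' t i, hin t ht i⟩)) ∧
            av (fun z => ind (∀ t (ht : t ∈ T c),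
              W (Fin.snoc (α := fun _ => X) (fun i => w ⟨e' t i, hin t ht i⟩) z))) < η
        let Q : Finset (Fin r → Fin N) :=
          (T c).attach.image (fun t i => g ⟨e' t.1 i, hin t.1 t.2 i⟩)
        have e1 : av (fun x : V → X => ind ((∀ t ∈ T c, W' (fun i => x (e' t i))) ∧
            codeg c x < η)) = av (fun y : Fin N → X => ind (β (fun a => y (g a)))) :=
          hg (fun w => ind (β w))
        rw [e1]
        refine le_trans (le_of_eq ?_) (hQ Q)
        congr 1
        funext y
        apply ind_congr
        simp only [β, Q]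
        have hiff : ∀ (P : (Fin r → X) → Prop),
            (∀ q ∈ (T c).attach.image (fun t i => g ⟨e' t.1 i, hin t.1 t.2 i⟩),
              P (fun i => y (q i))) ↔
            ∀ t (ht : t ∈ T c), P (fun i => y (g ⟨e' t i, hin t ht i⟩)) := by
          intro P
          constructor
          · intro h1 t ht
            exact h1 _ (Finset.mem_image.2 ⟨⟨t, ht⟩, Finset.mem_attach _ _, rfl⟩)
          · intro h1 q hq
            obtain ⟨t, _, rfl⟩ := Finset.mem_image.1 hq
            exact h1 t.1 t.2
        rw [hiff W']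
        apply and_congr Iff.rfl
        have : ∀ z : X, (∀ q ∈ (T c).attach.image (fun t i => g ⟨e' t.1 i, hin t.1 t.2 i⟩),
            W (Fin.snoc (α := fun _ => X) (fun i => y (q i)) z)) ↔
            ∀ t (ht : t ∈ T c), W (Fin.snoc (α := fun _ => X)
              (fun i => y (g ⟨e' t i, hin t ht i⟩)) z) := by
          intro z
          exact hiff (fun u => W (Fin.snoc (α := fun _ => X) u z))
        simp only [this]
      · -- old constraint
        rw [← pow_mul]
        simp only [B', Sum.elim_inr]
        have h1 := markov (pj j) (fun x => avL_nonneg _ _ _ (fun _ => ind_nonneg _) _) (δ * η ^ L)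
        have h2 : av (pj j) = av (fun x => ind (B j x)) := av_avL l (fun x => ind (B j x))
        rw [h2] at h1
        have h3 : ρ ^ (b + h * L + (s + 1) * M') ≤ ρ ^ ((s + 1) * M') * (δ * η ^ L) := by
          have h4 : ρ ^ b ≤ δ := by
            calc ρ ^ b ≤ (1 / 2) ^ b := by gcongr
              _ = 1 / 2 ^ b := by rw [div_pow, one_pow]
              _ ≤ 1 / (b : ℝ) := by
                  apply one_div_le_one_div_of_le hb1'
                  have : b ≤ 2 ^ b := Nat.lt_two_pow_self.le
                  exact_mod_cast this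
          calc ρ ^ (b + h * L + (s + 1) * M') = ρ ^ ((s + 1) * M') * (ρ ^ b * η ^ L) := by
                rw [hη, ← pow_mul]; ring
            _ ≤ _ := by gcongr
        have h5 : 0 < δ * η ^ L := by positivity
        exact le_of_mul_le_mul_right (h1.trans ((hBM j).trans h3)) h5)
  -- extend good assignments
  set n' := (univ.filter (fun v => π v < r)).card with hn'
  have hn : (univ.filter (fun v => π v < r + 1)).card = n' + l.length := by
    rw [hl, Finset.length_toList, hn', hK, ← Finset.card_union_of_disjoint]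
    · congr 1
      ext v
      simp only [Finset.mem_filter, Finset.mem_univ, true_and, Finset.mem_union]
      omega
    · rw [Finset.disjoint_filter]
      intro v _ h1 h2
      omega
  rw [hn]
  have hmain : ∀ x : V → X,
      ind ((∀ t, W' (fun i => x (e' t i))) ∧ ∀ j, ¬ B' j x) * (η / 2) ^ l.length ≤
      avL (fun _ => (Finset.univ : Finset X)) l
        (fun y => ind ((∀ t, W (fun i => y (e t i))) ∧ ∀ j, ¬ B j y)) x := by
    intro x
    by_cases hx : (∀ t, W' (fun i => x (e' t i))) ∧ ∀ j, ¬ B' j x
    swap
    · rw [ind_false hx, zero_mul]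
      exact avL_nonneg _ _ _ (fun _ => ind_nonneg _) _
    rw [ind_true hx, one_mul]
    obtain ⟨hx1, hx2⟩ := hx
    let Z : V → Finset X := fun c => univ.filter (fun z => ∀ t ∈ T c,
      W (Fin.snoc (α := fun _ => X) (fun i => x (e' t i)) z))
    have hX := card_pos' (Ω := X)
    have hZ : ∀ c ∈ l, η * (Fintype.card X : ℝ) ≤ ((Z c).card : ℝ) := by
      intro c _
      have h1 := hx2 (Sum.inl c)
      simp only [B', Sum.elim_inl, not_and, not_lt] at h1
      have h2 := h1 (fun t _ => hx1 t)
      simp only [codeg] at h2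
      rw [av_ind_eq, le_div_iff₀ hX] at h2
      refine h2.trans (le_of_eq ?_)
      congr!
    apply seq_select Z S B hB L (D + 1) hL (fun v => (hD v).trans (by omega)) (by omega) δ hδ0
      _ η hη0 l hnodup hZ _ x
    · intro j
      have h1 := avL_le Z η hη0 l hnodup hZ (fun y => ind (B j y)) (fun _ => ind_nonneg _) (S j)
        (hBiff j) x
      have h2 := hx2 (Sum.inr j)
      simp only [B', Sum.elim_inr, not_lt] at h2
      have h3 : 0 ≤ avL Z l (fun y => ind (B j y)) x :=
        avL_nonneg _ _ _ (fun _ => ind_nonneg _) _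
      have h4 : η ^ L ≤ η ^ ((S j).filter (· ∈ l)).card :=
        pow_le_pow_of_le_one hη0.le hη1 ((Finset.card_filter_le _ _).trans (hL j))
      have h5 : η ^ L * avL Z l (fun y => ind (B j y)) x ≤ η ^ L * δ := by
        calc _ ≤ η ^ ((S j).filter (· ∈ l)).card * avL Z l (fun y => ind (B j y)) x := by
              gcongr
          _ ≤ _ := h1
          _ ≤ δ * η ^ L := h2
          _ = _ := mul_comm _ _
      have h6 : avL Z l (fun y => ind (B j y)) x ≤ δ :=
        le_of_mul_le_mul_left h5 (by positivity)
      refine h6.trans ?_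
      have h7 : (1 : ℝ) ≤ (2 * ((D + 1 : ℕ) : ℝ)) ^ ((S j).filter (· ∉ l)).card := by
        apply one_le_pow₀
        push_cast
        have : (0 : ℝ) ≤ D := Nat.cast_nonneg _
        linarith
      nlinarith
    · intro y hy1 hy2 hy3
      refine ⟨?_, hy3⟩
      intro t
      have h1 : π (e t (Fin.last r)) = r := by
        rw [hπ]; simp
      have h2 := hy2 _ ((hmem _).2 h1)
      simp only [Z, T, Finset.mem_filter, Finset.mem_univ, true_and] at h2
      have h3 := h2 t rfl
      convert h3 using 1
      have h4 : (fun i => x (e' t i)) = Fin.init (fun i => y (e t i)) := by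
        funext i
        show x (e t i.castSucc) = y (e t i.castSucc)
        rw [hy1]
        rw [hmem]
        rw [hπ]
        simp
        omega
      rw [h4]
      exact (Fin.snoc_init_self (α := fun _ => X) (fun i => y (e t i))).symm
    · have h1 : (b : ℝ) = 2 * (2 * ((D + 1 : ℕ) : ℝ)) ^ L := by
        rw [hb]; push_cast; ring
      have h2 : (0 : ℝ) < (2 * ((D + 1 : ℕ) : ℝ)) ^ L := by positivity
      rw [hδ, h1]
      rw [one_div, inv_mul_lt_iff₀ (by positivity)]
      linarith
  have hfin : av (fun x : V → X =>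
      ind ((∀ t, W' (fun i => x (e' t i))) ∧ ∀ j, ¬ B' j x)) * (η / 2) ^ l.length ≤
      av (fun x : V → X => ind ((∀ t, W (fun i => x (e t i))) ∧ ∀ j, ¬ B j x)) := by
    rw [← av_mul_right, ← av_avL l (fun y => ind ((∀ t, W (fun i => y (e t i))) ∧ ∀ j, ¬ B j y))]
    exact av_mono hmain
  refine le_trans ?_ hfin
  have hη2 : ρ ^ (h + 1) ≤ η / 2 := by
    rw [pow_succ]
    nlinarith
  calc ρ ^ (((s + 1) * C' + h + 1) * (n' + l.length))
      ≤ ρ ^ ((s + 1) * (C' * n') + (h + 1) * l.length) := by
        apply pow_le_pow_of_le_one hρ0.le hρle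
        have e1 : ((s + 1) * C' + h + 1) * (n' + l.length) =
          (s + 1) * (C' * n') + (h + 1) * l.length + ((h + 1) * n' + (s + 1) * C' * l.length) := by
          ring
        rw [e1]
        exact Nat.le_add_right _ _
    _ = (ρ ^ (s + 1)) ^ (C' * n') * (ρ ^ (h + 1)) ^ l.length := by
        rw [pow_add, pow_mul ρ (s + 1), pow_mul ρ (h + 1)]
    _ ≤ _ := by
        apply mul_le_mul key _ (by positivity) (av_nonneg fun _ => ind_nonneg _)
        exact pow_le_pow_left₀ (by positivity) hη2 _

theorem hp_all (r : ℕ) : HP r := by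
  induction r with
  | zero => exact hp_zero
  | succ r ih => exact hp_succ r ih

end

end Pool.Agent.Q264.HDRC
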