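import Mathlib
set_option autoImplicit false
open Finset

/-! Lovász' real form of the Kruskal–Katona theorem, clique version (Keevash's proof). -/

namespace Pool.Agent.Q264.KK

/-- generalised binomial coefficient `x (x-1) ... (x-k+1) / k!` -/
noncomputable def gbinom (x : ℝ) (k : ℕ) : ℝ := (∏ j ∈ Finset.range k, (x - j)) / (k.factorial : ℝ)

@[simp] lemma gbinom_zero (x : ℝ) : gbinom x 0 = 1 := by simp [gbinom]

lemma gbinom_one (x : ℝ) : gbinom x 1 = x := by simp [gbinom]

lemma gbinom_succ (x : ℝ) (k : ℕ) : gbinom x (k+1) = gbinom x k * (x - k) / (k+1) := by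
  unfold gbinom
  rw [Finset.prod_range_succ, Nat.factorial_succ]
  push_cast
  have : (k.factorial : ℝ) ≠ 0 := by positivity
  have h2 : ((k:ℝ)+1) ≠ 0 := by positivity
  field_simp

lemma gbinom_succ' (x : ℝ) (k : ℕ) : gbinom x (k+1) = x / (k+1) * gbinom (x-1) k := by
  unfold gbinom
  rw [Finset.prod_range_succ', Nat.factorial_succ]
  push_cast
  have : (k.factorial : ℝ) ≠ 0 := by positivity
  have h2 : ((k:ℝ)+1) ≠ 0 := by positivity
  have h3 : ∏ j ∈ Finset.range k, (x - ((j:ℝ)+1)) = ∏ j ∈ Finset.range k, (x - 1 - (j:ℝ)) := by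
    apply Finset.prod_congr rfl
    intro j _
    ring
  rw [h3]
  field_simp
  ring

lemma gbinom_pascal (x : ℝ) (k : ℕ) : gbinom x (k+1) = gbinom (x-1) k + gbinom (x-1) (k+1) := by
  rw [gbinom_succ', gbinom_succ (x-1) k]
  have h2 : ((k:ℝ)+1) ≠ 0 := by positivity
  field_simp
  ring

lemma gbinom_nonneg {x : ℝ} {k : ℕ} (h : (k:ℝ) - 1 ≤ x) : 0 ≤ gbinom x k := by
  unfold gbinom
  apply div_nonneg _ (by positivity)
  apply Finset.prod_nonneg
  intro j hj
  have : (j:ℝ) + 1 ≤ k := by exact_mod_cast Finset.mem_range.1 hj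
  linarith

lemma gbinom_pos {x : ℝ} {k : ℕ} (h : (k:ℝ) - 1 < x) : 0 < gbinom x k := by
  unfold gbinom
  apply div_pos _ (by positivity)
  apply Finset.prod_pos
  intro j hj
  have : (j:ℝ) + 1 ≤ k := by exact_mod_cast Finset.mem_range.1 hj
  linarith

lemma gbinom_mono {x y : ℝ} {k : ℕ} (h : (k:ℝ) - 1 ≤ x) (hxy : x ≤ y) : gbinom x k ≤ gbinom y k := by
  unfold gbinom
  apply div_le_div_of_nonneg_right _ (by positivity)
  apply Finset.prod_le_prod
  · intro j hj
    have : (j:ℝ) + 1 ≤ k := by exact_mod_cast Finset.mem_range.1 hj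
    linarith
  · intro j hj
    linarith

lemma gbinom_strictMono {x y : ℝ} {k : ℕ} (hk : 0 < k) (h : (k:ℝ) - 1 ≤ x) (hxy : x < y) :
    gbinom x k < gbinom y k := by
  obtain ⟨k, rfl⟩ := Nat.exists_eq_succ_of_ne_zero hk.ne'
  have h1 : gbinom x k ≤ gbinom y k := gbinom_mono (by push_cast at h; linarith) hxy.le
  have h2 : 0 < gbinom y k := gbinom_pos (by push_cast at h; linarith)
  rw [Nat.succ_eq_add_one, gbinom_succ, gbinom_succ]
  push_cast at h
  apply div_lt_div_of_pos_right _ (by positivity)
  calc gbinom x k * (x - k) ≤ gbinom y k * (x - k) := mul_le_mul_of_nonneg_right h1 (by linarith)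
    _ < gbinom y k * (y - k) := mul_lt_mul_of_pos_left (by linarith) h2

lemma gbinom_self (k : ℕ) : gbinom (k:ℝ) k = 1 := by
  induction k with
  | zero => simp
  | succ k ih =>
    rw [gbinom_succ']
    push_cast
    have h2 : ((k:ℝ)+1) ≠ 0 := by positivity
    rw [add_sub_cancel_right, ih]
    field_simp

lemma gbinom_pred (k : ℕ) (hk : 0 < k) : gbinom ((k:ℝ) - 1) k = 0 := by
  obtain ⟨k, rfl⟩ := Nat.exists_eq_succ_of_ne_zero hk.ne'
  rw [Nat.succ_eq_add_one, gbinom_succ]
  push_cast
  simp

lemma gbinom_continuous (k : ℕ) : Continuous (fun x => gbinom x k) := by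
  unfold gbinom
  fun_prop

lemma gbinom_nat (n k : ℕ) : gbinom (n:ℝ) k = (n.choose k : ℝ) := by
  induction k generalizing n with
  | zero => simp
  | succ k ih =>
    rw [gbinom_succ, ih]
    have h := Nat.choose_succ_right_eq n k
    have h2 : ((k:ℝ)+1) ≠ 0 := by positivity
    rcases le_total k n with hkn | hkn
    · have h' : (n.choose (k+1) : ℝ) * (k+1) = (n.choose k : ℝ) * ((n:ℝ) - k) := by
        have : ((n - k : ℕ) : ℝ) = (n:ℝ) - k := by push_cast [Nat.cast_sub hkn]; ring
        rw [← this]
        exact_mod_cast h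
      field_simp
      linarith
    · rcases hkn.eq_or_lt with rfl | hlt
      · simp
      · rw [Nat.choose_eq_zero_of_lt hlt, Nat.choose_eq_zero_of_lt (by omega)]
        simp

lemma gbinom_ge (x : ℝ) (k : ℕ) (hk : 0 < k) (hx : (k:ℝ) ≤ x) : x / k ≤ gbinom x k := by
  obtain ⟨k, rfl⟩ := Nat.exists_eq_succ_of_ne_zero hk.ne'
  rw [Nat.succ_eq_add_one, gbinom_succ']
  push_cast at hx ⊢
  have h1 : gbinom (k:ℝ) k ≤ gbinom (x-1) k := gbinom_mono (by linarith) (by linarith)
  rw [gbinom_self] at h1
  have h3 : (0:ℝ) ≤ x / (k+1) := by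
    apply div_nonneg _ (by positivity)
    have : (0:ℝ) ≤ k := by positivity
    linarith
  calc x / ((k:ℝ)+1) = x / (k+1) * 1 := by ring
    _ ≤ _ := mul_le_mul_of_nonneg_left h1 h3

/-- existence of a solution `x ≥ k - 1` of `gbinom x k = d` -/
lemma exists_gbinom_eq (k : ℕ) (hk : 0 < k) (d : ℝ) (hd : 0 ≤ d) :
    ∃ x : ℝ, (k:ℝ) - 1 ≤ x ∧ gbinom x k = d := by
  have h0 : (0:ℝ) < k := by exact_mod_cast hk
  set b : ℝ := k * (d + 1) with hb
  have hkb : (k:ℝ) ≤ b := by
    rw [hb]; nlinarith
  have h1 : d ≤ gbinom b k := by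
    have := gbinom_ge b k hk hkb
    rw [hb, mul_div_assoc, mul_comm, div_mul_cancel₀ _ h0.ne'] at this
    rw [hb]; linarith
  have hcont : ContinuousOn (fun x => gbinom x k) (Set.Icc ((k:ℝ)-1) b) :=
    (gbinom_continuous k).continuousOn
  have h2 := intermediate_value_Icc (by linarith : (k:ℝ) - 1 ≤ b) hcont
  have h3 : d ∈ Set.Icc (gbinom ((k:ℝ)-1) k) (gbinom b k) := by
    rw [gbinom_pred k hk]
    exact ⟨hd, h1⟩
  obtain ⟨x, hx, hxd⟩ := h2 h3
  exact ⟨x, hx.1, hxd⟩

/-- `C(x, a) C(x - a, b) = C(x, a + b) C(a + b, a)` -/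
lemma gbinom_mul (x : ℝ) (a b : ℕ) :
    gbinom x a * gbinom (x - a) b = gbinom x (a + b) * ((a+b).choose a : ℝ) := by
  induction b with
  | zero => simp
  | succ b ih =>
    rw [gbinom_succ, ← add_assoc, gbinom_succ]

    have h2 : (((a+b)+1 : ℕ) : ℝ) * ((a+b).choose a : ℝ) = ((a+b+1).choose a : ℝ) * ((b:ℝ)+1) := by
      have h3 : (a+b+1).choose a = (a+b+1).choose (b+1) := by
        rw [← Nat.choose_symm_of_eq_add]; omega
      have h4 : (a+b).choose a = (a+b).choose b := by
        rw [← Nat.choose_symm_of_eq_add]; omega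
      rw [h3, h4]
      have := Nat.add_one_mul_choose_eq (a+b) b
      exact_mod_cast this
    push_cast at h2 ⊢
    have hb : ((b:ℝ)+1) ≠ 0 := by positivity
    have hab : ((a:ℝ)+b+1) ≠ 0 := by positivity
    have : gbinom x a * (gbinom (x - a) b * (x - a - b) / (b+1)) =
      (gbinom x a * gbinom (x - a) b) * (x - a - b) / (b+1) := by ring
    rw [this, ih]
    have h5 : ((a+b+1).choose a : ℝ) = ((a:ℝ)+b+1) * ((a+b).choose a : ℝ) / ((b:ℝ)+1) := by
      field_simp
      linarith
    rw [h5]
    field_simp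
    ring

set_option linter.unusedSectionVars false
set_option linter.unusedVariables false
variable {α : Type*} [Fintype α] [DecidableEq α]

/-- The `r`-sets all of whose `s`-subsets are in `G`. -/
def cl (G : Finset (Finset α)) (s r : ℕ) : Finset (Finset α) :=
  ((univ : Finset α).powersetCard r).filter (fun R => ∀ S ∈ R.powersetCard s, S ∈ G)

lemma mem_cl {G : Finset (Finset α)} {s r : ℕ} {R : Finset α} :
    R ∈ cl G s r ↔ #R = r ∧ ∀ S, S ⊆ R → #S = s → S ∈ G := by
  simp [cl, mem_filter, mem_powersetCard]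

/-- link of a vertex -/
def vlink (G : Finset (Finset α)) (v : α) : Finset (Finset α) :=
  (G.filter (fun e => v ∈ e)).image (fun e => e.erase v)

lemma mem_vlink {G : Finset (Finset α)} {v : α} {S : Finset α} :
    S ∈ vlink G v ↔ v ∉ S ∧ insert v S ∈ G := by
  unfold vlink
  rw [mem_image]
  constructor
  · rintro ⟨e, he, rfl⟩
    rw [mem_filter] at he
    exact ⟨notMem_erase _ _, by rw [insert_erase he.2]; exact he.1⟩
  · rintro ⟨h1, h2⟩
    exact ⟨insert v S, mem_filter.2 ⟨h2, mem_insert_self _ _⟩, erase_insert h1⟩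

lemma card_vlink (G : Finset (Finset α)) (v : α) : #(vlink G v) = #(G.filter (fun e => v ∈ e)) := by
  unfold vlink
  apply card_image_of_injOn
  intro e he f hf hef
  simp only [coe_filter, Set.mem_ofPred_eq] at he hf
  have : insert v (e.erase v) = insert v (f.erase v) := by
    simp only at hef; rw [hef]
  rwa [insert_erase he.2, insert_erase hf.2] at this

/-- double counting -/
lemma sum_card_filter_mem {G : Finset (Finset α)} {s : ℕ} (hG : ∀ e ∈ G, #e = s) :
    ∑ v : α, #(G.filter (fun e => v ∈ e)) = s * #G := by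
  have h : ∑ v : α, #(G.filter (fun e => v ∈ e)) = ∑ e ∈ G, #e := by
    simp_rw [card_filter]
    rw [sum_comm]
    apply sum_congr rfl
    intro e _
    rw [← card_filter]
    congr 1
    ext; simp
  rw [h, sum_congr rfl hG]
  simp [mul_comm]

/-- **Lovász' form of Kruskal–Katona**, one step. -/
theorem kk_step (s : ℕ) (hs : 1 ≤ s) : ∀ (G : Finset (Finset α)), (∀ e ∈ G, #e = s) →
    ∀ x : ℝ, (s:ℝ) ≤ x → (#G : ℝ) ≤ gbinom x s → (#(cl G s (s+1)) : ℝ) ≤ gbinom x (s+1) := by
  induction s, hs using Nat.le_induction with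
  | base =>
    intro G hG x hx hGx
    rw [gbinom_one] at hGx
    -- the union of the singletons
    set A : Finset α := univ.filter (fun a => {a} ∈ G) with hA
    have hAG : #A ≤ #G := by
      have : #(A.image (fun a => ({a} : Finset α))) = #A :=
        card_image_of_injective _ (fun a b h => by simpa using h)
      rw [← this]
      apply card_le_card
      intro S hS
      rw [mem_image] at hS
      obtain ⟨a, ha, rfl⟩ := hS
      exact (mem_filter.1 ha).2
    have h1 : cl G 1 (1+1) ⊆ A.powersetCard 2 := by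
      intro R hR
      rw [mem_cl] at hR
      rw [mem_powersetCard]
      refine ⟨fun a ha => ?_, hR.1⟩
      rw [hA, mem_filter]
      exact ⟨mem_univ _, hR.2 {a} (by simpa using ha) (by simp)⟩
    have h2 := card_le_card h1
    rw [card_powersetCard] at h2
    have h3 : (#(cl G 1 (1+1)) : ℝ) ≤ ((#A).choose 2 : ℝ) := by exact_mod_cast h2
    refine h3.trans ?_
    have hAx : (#A : ℝ) ≤ x := le_trans (by exact_mod_cast hAG) hGx
    rcases Nat.lt_or_ge (#A) 2 with hlt | hge
    · rw [Nat.choose_eq_zero_of_lt hlt]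
      simp only [Nat.cast_zero]
      apply gbinom_nonneg
      push_cast
      push_cast at hx
      linarith
    · rw [← gbinom_nat]
      apply gbinom_mono _ hAx
      have : (2:ℝ) ≤ #A := by exact_mod_cast hge
      push_cast
      linarith
  | succ s hs ih =>
    intro G hG x hx hGx
    have hs0 : (0:ℝ) < s := by exact_mod_cast hs
    push_cast at hx
    -- bound for each vertex
    have key : ∀ v : α, (#((cl G (s+1) (s+1+1)).filter (fun R => v ∈ R)) : ℝ) ≤
        ((x - (s+1)) / (s+1)) * (#(G.filter (fun e => v ∈ e)) : ℝ) := by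
      intro v
      have hpos : 0 ≤ (x - ((s:ℝ)+1)) / (s+1) := by
        apply div_nonneg (by linarith) (by positivity)
      rcases le_or_gt (gbinom (x-1) s) (#(G.filter (fun e => v ∈ e)) : ℝ) with hA | hB
      · -- case A
        have h1 : #((cl G (s+1) (s+1+1)).filter (fun R => v ∈ R)) ≤ #(G.filter (fun e => ¬ v ∈ e)) := by
          apply card_le_card_of_injOn (fun R => R.erase v)
          · intro R hR
            simp only [coe_filter, Set.mem_ofPred_eq] at hR ⊢
            rw [mem_cl] at hR
            refine ⟨hR.1.2 _ (erase_subset _ _) ?_, notMem_erase _ _⟩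
            rw [card_erase_of_mem hR.2, hR.1.1]; rfl
          · intro R hR R' hR' hRR'
            simp only [coe_filter, Set.mem_ofPred_eq] at hR hR' hRR'
            have : insert v (R.erase v) = insert v (R'.erase v) := by rw [hRR']
            rwa [insert_erase hR.2, insert_erase hR'.2] at this
        have h2 : #(G.filter (fun e => v ∈ e)) + #(G.filter (fun e => ¬ v ∈ e)) = #G :=
          card_filter_add_card_filter_not _
        have h3 : (#(G.filter (fun e => v ∈ e)) : ℝ) + (#(G.filter (fun e => ¬ v ∈ e)) : ℝ) = #G := by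
          exact_mod_cast h2
        have h4 : (#((cl G (s+1) (s+1+1)).filter (fun R => v ∈ R)) : ℝ) ≤ (#(G.filter (fun e => ¬ v ∈ e)) : ℝ) := by
          exact_mod_cast h1
        have h5 := gbinom_pascal x s
        have h6 := gbinom_succ (x-1) s
        calc (#((cl G (s+1) (s+1+1)).filter (fun R => v ∈ R)) : ℝ) ≤ gbinom (x-1) (s+1) := by linarith
          _ = ((x - (s+1)) / (s+1)) * gbinom (x-1) s := by rw [h6]; ring
          _ ≤ _ := mul_le_mul_of_nonneg_left hA hpos
      · -- case B
        have h1 : #((cl G (s+1) (s+1+1)).filter (fun R => v ∈ R)) ≤ #(cl (vlink G v) s (s+1)) := by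
          apply card_le_card_of_injOn (fun R => R.erase v)
          · intro R hR
            simp only [coe_filter, Set.mem_ofPred_eq] at hR
            rw [mem_cl] at hR
            simp only [mem_coe]
            rw [mem_cl]
            refine ⟨by rw [card_erase_of_mem hR.2, hR.1.1]; rfl, ?_⟩
            intro S hS hSc
            have hv : v ∉ S := fun h => notMem_erase v R (hS h)
            rw [mem_vlink]
            refine ⟨hv, hR.1.2 _ ?_ ?_⟩
            · intro a ha
              rcases mem_insert.1 ha with rfl | ha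
              · exact hR.2
              · exact erase_subset _ _ (hS ha)
            · rw [card_insert_of_notMem hv, hSc]
          · intro R hR R' hR' hRR'
            simp only [coe_filter, Set.mem_ofPred_eq] at hR hR' hRR'
            have : insert v (R.erase v) = insert v (R'.erase v) := by rw [hRR']
            rwa [insert_erase hR.2, insert_erase hR'.2] at this
        rcases Nat.eq_zero_or_pos (#(G.filter (fun e => v ∈ e))) with h0 | hpos'
        · -- no edges at v
          have h2 : #((cl G (s+1) (s+1+1)).filter (fun R => v ∈ R)) = 0 := by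
            rw [card_eq_zero, filter_eq_empty_iff]
            intro R hR hv
            rw [mem_cl] at hR
            obtain ⟨S, hS, hSR, hSc⟩ := exists_subsuperset_card_eq (s := {v}) (t := R) (n := s+1)
              (by simpa using hv) (by simp) (by omega)
            have h3 := hR.2 S hSR hSc
            rw [card_eq_zero, filter_eq_empty_iff] at h0
            exact h0 h3 (hS (mem_singleton_self v))
          rw [h2, h0]
          simp
        · have hd1 : (1:ℝ) ≤ (#(G.filter (fun e => v ∈ e)) : ℝ) := by exact_mod_cast hpos'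
          -- choose y
          have hcont : ContinuousOn (fun x => gbinom x s) (Set.Icc (s:ℝ) (x-1)) :=
            (gbinom_continuous s).continuousOn
          have h2 := intermediate_value_Icc (by linarith : (s:ℝ) ≤ x - 1) hcont
          have h3 : (#(G.filter (fun e => v ∈ e)) : ℝ) ∈ Set.Icc (gbinom (s:ℝ) s) (gbinom (x-1) s) := by
            rw [gbinom_self]
            exact ⟨hd1, hB.le⟩
          obtain ⟨y, hy, hyd⟩ := h2 h3
          simp only at hyd
          have h4 := ih (vlink G v) (by
            intro S hS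
            rw [mem_vlink] at hS
            have := hG _ hS.2
            rw [card_insert_of_notMem hS.1] at this
            omega) y hy.1 (by rw [card_vlink, hyd])
          calc (#((cl G (s+1) (s+1+1)).filter (fun R => v ∈ R)) : ℝ) ≤ (#(cl (vlink G v) s (s+1)) : ℝ) := by
                exact_mod_cast h1
            _ ≤ gbinom y (s+1) := h4
            _ = (y - s) / (s+1) * gbinom y s := by rw [gbinom_succ]; ring
            _ = (y - s) / (s+1) * (#(G.filter (fun e => v ∈ e)) : ℝ) := by rw [hyd]
            _ ≤ _ := by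
                apply mul_le_mul_of_nonneg_right _ (by positivity)
                apply div_le_div_of_nonneg_right _ (by positivity)
                linarith [hy.2]
    -- sum
    have hsum : (∑ v : α, (#((cl G (s+1) (s+1+1)).filter (fun R => v ∈ R)) : ℝ)) ≤
        ∑ v : α, ((x - (s+1)) / (s+1)) * (#(G.filter (fun e => v ∈ e)) : ℝ) :=
      sum_le_sum (fun v _ => key v)
    rw [← mul_sum] at hsum
    have e1 : (∑ v : α, (#((cl G (s+1) (s+1+1)).filter (fun R => v ∈ R)) : ℝ)) =
        ((s:ℝ)+1+1) * (#(cl G (s+1) (s+1+1)) : ℝ) := by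
      have := sum_card_filter_mem (G := cl G (s+1) (s+1+1)) (s := s+1+1) (fun R hR => (mem_cl.1 hR).1)
      exact_mod_cast this
    have e2 : (∑ v : α, (#(G.filter (fun e => v ∈ e)) : ℝ)) = ((s:ℝ)+1) * (#G : ℝ) := by
      have := sum_card_filter_mem (G := G) (s := s+1) hG
      exact_mod_cast this
    rw [e1, e2] at hsum
    have hx0 : (0:ℝ) ≤ x - (s+1) := by linarith
    have h7 : (x - ((s:ℝ)+1)) / (s+1) * (((s:ℝ)+1) * (#G : ℝ)) = (x - (s+1)) * #G := by
      field_simp
    rw [h7] at hsum
    have h8 : (x - ((s:ℝ)+1)) * #G ≤ (x - (s+1)) * gbinom x (s+1) := mul_le_mul_of_nonneg_left hGx hx0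
    have h9 := gbinom_succ x (s+1)
    push_cast at h9
    rw [h9, le_div_iff₀ (by positivity)]
    linarith

/-- **Lovász' form of Kruskal–Katona**: an `s`-uniform family with at most `C(x,s)` members has
at most `C(x,r)` cliques of size `r`, for `s ≤ r ≤ x + 1`. -/
theorem kk_lovasz (s r : ℕ) (hs : 1 ≤ s) (hsr : s ≤ r) (G : Finset (Finset α)) (hG : ∀ e ∈ G, #e = s)
    (x : ℝ) (hx : (r:ℝ) - 1 ≤ x) (hGx : (#G : ℝ) ≤ gbinom x s) :
    (#(cl G s r) : ℝ) ≤ gbinom x r := by
  induction r, hsr using Nat.le_induction with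
  | base =>
    have h1 : cl G s s ⊆ G := by
      intro R hR
      rw [mem_cl] at hR
      exact hR.2 R Subset.rfl hR.1
    exact le_trans (by exact_mod_cast card_le_card h1) hGx
  | succ r hr ih =>
    push_cast at hx
    have h1 := ih (by linarith)
    have h2 := kk_step r (by omega) (cl G s r) (fun e he => (mem_cl.1 he).1) x (by linarith) h1
    refine le_trans ?_ h2
    have h3 : cl G s (r+1) ⊆ cl (cl G s r) r (r+1) := by
      intro R hR
      rw [mem_cl] at hR ⊢
      refine ⟨hR.1, fun S hS hSc => ?_⟩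
      rw [mem_cl]
      exact ⟨hSc, fun S' hS' hSc' => hR.2 S' (hS'.trans hS) hSc'⟩
    exact_mod_cast card_le_card h3

end Pool.Agent.Q264.KK
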