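import Pool.Agent.Q264.MonSel

/-!
Boundaries in a Boolean algebra generated by a chain.
-/

set_option autoImplicit false

namespace Pool.Agent.Q264.MonSel

universe u

variable {T : Type u} [BooleanAlgebra T]

/-- the value immediately below `c` -/
def Lc (K : Set T) (c x : T) : Prop := ∃ a ∈ K, a < c ∧ c \ a ≤ x

/-- the value immediately above `c` -/
def Rc (K : Set T) (c x : T) : Prop := ∃ b ∈ K, c < b ∧ b \ c ≤ x

/-- a chain with both bounds which generates the algebra -/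
structure GenChain (K : Set T) : Prop where
  tot : ∀ a ∈ K, ∀ b ∈ K, a ≤ b ∨ b ≤ a
  bot : ⊥ ∈ K
  top : ⊤ ∈ K
  gen : BooleanSubalgebra.closure K = ⊤

variable {K : Set T}

lemma lt_or (h : GenChain K) {a b : T} (ha : a ∈ K) (hb : b ∈ K) : a < b ∨ b ≤ a := by
  rcases h.tot a ha b hb with h1 | h1
  · rcases h1.lt_or_eq with h2 | h2
    · exact Or.inl h2
    · exact Or.inr h2.symm.le
  · exact Or.inr h1

lemma gen_mem (h : GenChain K) (x : T) : x ∈ BooleanSubalgebra.closure K := by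
  rw [h.gen]; exact BooleanSubalgebra.mem_top

lemma sdiff_ne {a b x : T} (hab : a < b) (h1 : b \ a ≤ x) (h2 : b \ a ≤ xᶜ) : False := by
  have h3 : b \ a ≤ ⊥ := by
    calc b \ a ≤ x ⊓ xᶜ := le_inf h1 h2
      _ = ⊥ := inf_compl_self x
  exact absurd (sdiff_eq_bot_iff.1 (le_bot_iff.1 h3)) (not_le_of_gt hab)

/-! ### left values -/

lemma Lc_not_both (h : GenChain K) {c x : T} (h1 : Lc K c x) (h2 : Lc K c xᶜ) : False := by
  obtain ⟨a, ha, hac, hax⟩ := h1
  obtain ⟨b, hb, hbc, hbx⟩ := h2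
  rcases h.tot a ha b hb with hab | hab
  · exact sdiff_ne hbc ((sdiff_le_sdiff_left hab).trans hax) hbx
  · exact sdiff_ne hac hax ((sdiff_le_sdiff_left hab).trans hbx)

lemma Lc_decide (h : GenChain K) {c : T} (hc : c ∈ K) (hb : c ≠ ⊥) (x : T) :
    Lc K c x ∨ Lc K c xᶜ := by
  have hbot : (⊥ : T) < c := bot_lt_iff_ne_bot.2 hb
  refine BooleanSubalgebra.closure_bot_sup_induction (p := fun x _ => Lc K c x ∨ Lc K c xᶜ)
    ?_ ?_ ?_ ?_ (gen_mem h x)
  · intro x hx
    rcases lt_or h hx hc with h1 | h1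
    · right
      exact ⟨x, hx, h1, by rw [sdiff_eq]; exact inf_le_right⟩
    · left
      exact ⟨⊥, h.bot, hbot, by rw [sdiff_bot]; exact h1⟩
  · right
    exact ⟨⊥, h.bot, hbot, by rw [compl_bot]; exact le_top⟩
  · intro x _ y _ hx hy
    rcases hx with hx | hx
    · left
      obtain ⟨a, ha, h1, h2⟩ := hx
      exact ⟨a, ha, h1, h2.trans le_sup_left⟩
    · rcases hy with hy | hy
      · left
        obtain ⟨a, ha, h1, h2⟩ := hy
        exact ⟨a, ha, h1, h2.trans le_sup_right⟩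
      · right
        obtain ⟨a, ha, h1, h2⟩ := hx
        obtain ⟨b, hb, h3, h4⟩ := hy
        rw [compl_sup]
        rcases h.tot a ha b hb with hab | hab
        · exact ⟨b, hb, h3, le_inf ((sdiff_le_sdiff_left hab).trans h2) h4⟩
        · exact ⟨a, ha, h1, le_inf h2 ((sdiff_le_sdiff_left hab).trans h4)⟩
  · intro x _ hx
    rw [compl_compl]
    exact hx.symm

lemma Lc_compl (h : GenChain K) {c : T} (hc : c ∈ K) (hb : c ≠ ⊥) (x : T) :
    Lc K c xᶜ ↔ ¬ Lc K c x :=
  ⟨fun h1 h2 => Lc_not_both h h2 h1, fun h1 => (Lc_decide h hc hb x).resolve_left h1⟩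

lemma Lc_inf (h : GenChain K) {c : T} (x y : T) :
    Lc K c (x ⊓ y) ↔ Lc K c x ∧ Lc K c y := by
  constructor
  · rintro ⟨a, ha, h1, h2⟩
    exact ⟨⟨a, ha, h1, h2.trans inf_le_left⟩, ⟨a, ha, h1, h2.trans inf_le_right⟩⟩
  · rintro ⟨⟨a, ha, h1, h2⟩, ⟨b, hb, h3, h4⟩⟩
    rcases h.tot a ha b hb with hab | hab
    · exact ⟨b, hb, h3, le_inf ((sdiff_le_sdiff_left hab).trans h2) h4⟩
    · exact ⟨a, ha, h1, le_inf h2 ((sdiff_le_sdiff_left hab).trans h4)⟩

lemma Lc_sup (h : GenChain K) {c : T} (hc : c ∈ K) (hb : c ≠ ⊥) (x y : T) :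
    Lc K c (x ⊔ y) ↔ Lc K c x ∨ Lc K c y := by
  have h1 : x ⊔ y = (xᶜ ⊓ yᶜ)ᶜ := by rw [compl_inf, compl_compl, compl_compl]
  rw [h1, Lc_compl h hc hb, Lc_inf h, Lc_compl h hc hb, Lc_compl h hc hb]
  tauto

/-! ### right values -/

lemma Rc_not_both (h : GenChain K) {c x : T} (h1 : Rc K c x) (h2 : Rc K c xᶜ) : False := by
  obtain ⟨a, ha, hac, hax⟩ := h1
  obtain ⟨b, hb, hbc, hbx⟩ := h2
  rcases h.tot a ha b hb with hab | hab
  · exact sdiff_ne hac hax ((sdiff_le_sdiff_right hab).trans hbx)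
  · exact sdiff_ne hbc ((sdiff_le_sdiff_right hab).trans hax) hbx

lemma Rc_decide (h : GenChain K) {c : T} (hc : c ∈ K) (hb : c ≠ ⊤) (x : T) :
    Rc K c x ∨ Rc K c xᶜ := by
  have htop : c < (⊤ : T) := lt_top_iff_ne_top.2 hb
  refine BooleanSubalgebra.closure_bot_sup_induction (p := fun x _ => Rc K c x ∨ Rc K c xᶜ)
    ?_ ?_ ?_ ?_ (gen_mem h x)
  · intro x hx
    rcases lt_or h hc hx with h1 | h1
    · left
      exact ⟨x, hx, h1, sdiff_le⟩
    · right
      refine ⟨⊤, h.top, htop, ?_⟩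
      rw [sdiff_eq, top_inf_eq]
      exact compl_le_compl h1
  · right
    exact ⟨⊤, h.top, htop, by rw [compl_bot]; exact le_top⟩
  · intro x _ y _ hx hy
    rcases hx with hx | hx
    · left
      obtain ⟨a, ha, h1, h2⟩ := hx
      exact ⟨a, ha, h1, h2.trans le_sup_left⟩
    · rcases hy with hy | hy
      · left
        obtain ⟨a, ha, h1, h2⟩ := hy
        exact ⟨a, ha, h1, h2.trans le_sup_right⟩
      · right
        obtain ⟨a, ha, h1, h2⟩ := hx
        obtain ⟨b, hb, h3, h4⟩ := hy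
        rw [compl_sup]
        rcases h.tot a ha b hb with hab | hab
        · exact ⟨a, ha, h1, le_inf h2 ((sdiff_le_sdiff_right hab).trans h4)⟩
        · exact ⟨b, hb, h3, le_inf ((sdiff_le_sdiff_right hab).trans h2) h4⟩
  · intro x _ hx
    rw [compl_compl]
    exact hx.symm

lemma Rc_compl (h : GenChain K) {c : T} (hc : c ∈ K) (hb : c ≠ ⊤) (x : T) :
    Rc K c xᶜ ↔ ¬ Rc K c x :=
  ⟨fun h1 h2 => Rc_not_both h h2 h1, fun h1 => (Rc_decide h hc hb x).resolve_left h1⟩

lemma Rc_inf (h : GenChain K) {c : T} (x y : T) :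
    Rc K c (x ⊓ y) ↔ Rc K c x ∧ Rc K c y := by
  constructor
  · rintro ⟨a, ha, h1, h2⟩
    exact ⟨⟨a, ha, h1, h2.trans inf_le_left⟩, ⟨a, ha, h1, h2.trans inf_le_right⟩⟩
  · rintro ⟨⟨a, ha, h1, h2⟩, ⟨b, hb, h3, h4⟩⟩
    rcases h.tot a ha b hb with hab | hab
    · exact ⟨a, ha, h1, le_inf h2 ((sdiff_le_sdiff_right hab).trans h4)⟩
    · exact ⟨b, hb, h3, le_inf ((sdiff_le_sdiff_right hab).trans h2) h4⟩

lemma Rc_sup (h : GenChain K) {c : T} (hc : c ∈ K) (hb : c ≠ ⊤) (x y : T) :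
    Rc K c (x ⊔ y) ↔ Rc K c x ∨ Rc K c y := by
  have h1 : x ⊔ y = (xᶜ ⊓ yᶜ)ᶜ := by rw [compl_inf, compl_compl, compl_compl]
  rw [h1, Rc_compl h hc hb, Rc_inf h, Rc_compl h hc hb, Rc_compl h hc hb]
  tauto

/-! ### the boundary -/

/-- the boundary -/
def bd (K : Set T) (x : T) : Set T := {c | c ∈ K ∧ c ≠ ⊥ ∧ c ≠ ⊤ ∧ ¬ (Lc K c x ↔ Rc K c x)}

lemma bd_finite (h : GenChain K) (x : T) : (bd K x).Finite := by
  refine BooleanSubalgebra.closure_bot_sup_induction (p := fun x _ => (bd K x).Finite)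
    ?_ ?_ ?_ ?_ (gen_mem h x)
  · intro x hx
    refine (Set.finite_singleton x).subset ?_
    rintro c ⟨hc, hb, ht, hne⟩
    rw [Set.mem_singleton_iff]
    by_contra hcx
    apply hne
    rcases lt_or h hc hx with h1 | h1
    · constructor
      · intro _
        exact ⟨x, hx, h1, sdiff_le⟩
      · intro _
        exact ⟨⊥, h.bot, bot_lt_iff_ne_bot.2 hb, by rw [sdiff_bot]; exact h1.le⟩
    · have h2 : x < c := lt_of_le_of_ne h1 (Ne.symm hcx)
      constructor
      · intro h3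
        exact (Lc_not_both h h3 ⟨x, hx, h2, by rw [sdiff_eq]; exact inf_le_right⟩).elim
      · intro h3
        refine (Rc_not_both h h3 ⟨⊤, h.top, lt_top_iff_ne_top.2 ht, ?_⟩).elim
        rw [sdiff_eq, top_inf_eq]
        exact compl_le_compl h1
  · have : bd K (⊥ : T) = ∅ := by
      ext c
      simp only [bd, Set.mem_ofPred_eq, Set.mem_empty_iff_false, iff_false]
      rintro ⟨hc, hb, ht, hne⟩
      apply hne
      constructor
      · rintro ⟨a, ha, h1, h2⟩
        exact absurd (sdiff_eq_bot_iff.1 (le_bot_iff.1 h2)) (not_le_of_gt h1)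
      · rintro ⟨a, ha, h1, h2⟩
        exact absurd (sdiff_eq_bot_iff.1 (le_bot_iff.1 h2)) (not_le_of_gt h1)
    rw [this]
    exact Set.finite_empty
  · intro x _ y _ hx hy
    refine (hx.union hy).subset ?_
    rintro c ⟨hc, hb, ht, hne⟩
    by_contra hcx
    rw [Set.mem_union, not_or] at hcx
    obtain ⟨h1, h2⟩ := hcx
    have h3 : Lc K c x ↔ Rc K c x := by
      by_contra h3
      exact h1 ⟨hc, hb, ht, h3⟩
    have h4 : Lc K c y ↔ Rc K c y := by
      by_contra h4
      exact h2 ⟨hc, hb, ht, h4⟩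
    apply hne
    rw [Lc_sup h hc hb, Rc_sup h hc ht, h3, h4]
  · intro x _ hx
    refine hx.subset ?_
    rintro c ⟨hc, hb, ht, hne⟩
    refine ⟨hc, hb, ht, fun h3 => hne ?_⟩
    rw [Lc_compl h hc hb, Rc_compl h hc ht, h3]

open Classical in
lemma bd_sub (h : GenChain K) (x y c : T) :
    (if c ∈ bd K (x ⊓ y) then 1 else 0) + (if c ∈ bd K (x ⊔ y) then 1 else 0) ≤
      (if c ∈ bd K x then 1 else 0) + (if c ∈ bd K y then (1 : ℕ) else 0) := by
  by_cases hc : c ∈ K ∧ c ≠ ⊥ ∧ c ≠ ⊤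
  · obtain ⟨hc, hb, ht⟩ := hc
    have e : ∀ z, c ∈ bd K z ↔ ¬ (Lc K c z ↔ Rc K c z) := fun z =>
      ⟨fun hz => hz.2.2.2, fun hz => ⟨hc, hb, ht, hz⟩⟩
    simp only [e, Lc_sup h hc hb, Rc_sup h hc ht, Lc_inf h, Rc_inf h]
    by_cases h1 : Lc K c x <;> by_cases h2 : Lc K c y <;> by_cases h3 : Rc K c x <;>
      by_cases h4 : Rc K c y <;> simp [h1, h2, h3, h4]
  · have e : ∀ z, c ∉ bd K z := fun z hz => hc ⟨hz.1, hz.2.1, hz.2.2.1⟩
    simp [e]

/-- the finite set of cut points of `z` -/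
lemma cut_points (h : GenChain K) (z : T) : ∃ D : Finset T, (∀ d ∈ D, d ∈ K) ∧
    ∀ a b : T, a ∈ K → b ∈ K → a < b → (∀ d ∈ D, d ≤ a ∨ b ≤ d) →
      b \ a ≤ z ∨ b \ a ≤ zᶜ := by
  classical
  refine BooleanSubalgebra.closure_bot_sup_induction (p := fun z _ =>
    ∃ D : Finset T, (∀ d ∈ D, d ∈ K) ∧
    ∀ a b : T, a ∈ K → b ∈ K → a < b → (∀ d ∈ D, d ≤ a ∨ b ≤ d) →
      b \ a ≤ z ∨ b \ a ≤ zᶜ) ?_ ?_ ?_ ?_ (gen_mem h z)
  · intro x hx
    refine ⟨{x}, by simpa using hx, ?_⟩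
    intro a b ha hb hab hd
    rcases hd x (Finset.mem_singleton_self x) with h1 | h1
    · right
      rw [sdiff_eq]
      exact inf_le_right.trans (compl_le_compl h1)
    · left
      exact sdiff_le.trans h1
  · refine ⟨∅, by simp, ?_⟩
    intro a b ha hb hab hd
    right
    rw [compl_bot]
    exact le_top
  · rintro x _ y _ ⟨D, hD, hx⟩ ⟨E, hE, hy⟩
    refine ⟨D ∪ E, ?_, ?_⟩
    · intro d hd
      rcases Finset.mem_union.1 hd with h1 | h1
      · exact hD d h1
      · exact hE d h1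
    · intro a b ha hb hab hd
      rcases hx a b ha hb hab (fun d h1 => hd d (Finset.mem_union_left _ h1)) with h1 | h1
      · exact Or.inl (h1.trans le_sup_left)
      · rcases hy a b ha hb hab (fun d h1 => hd d (Finset.mem_union_right _ h1)) with h2 | h2
        · exact Or.inl (h2.trans le_sup_right)
        · right
          rw [compl_sup]
          exact le_inf h1 h2
  · rintro x _ ⟨D, hD, hx⟩
    refine ⟨D, hD, ?_⟩
    intro a b ha hb hab hd
    rw [compl_compl]
    exact (hx a b ha hb hab hd).symm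

open Classical in
/-- one half of the triviality of elements without boundary -/
lemma top_of_first (h : GenChain K) {z : T} (hz : bd K z = ∅) (D : Finset T)
    (hD : ∀ d ∈ D, d ∈ K) (hgap : ∀ a b : T, a ∈ K → b ∈ K → a < b → (∀ d ∈ D, d ≤ a ∨ b ≤ d) →
      b \ a ≤ z ∨ b \ a ≤ zᶜ) (e₀ : T) (he₀ : e₀ ∈ insert ⊤ D) (hb : e₀ ≠ ⊥)
    (hmin : ∀ d ∈ insert ⊤ D, d ≠ ⊥ → e₀ ≤ d) (hez : e₀ ≤ z) : z = ⊤ := by
  have hD' : ∀ d ∈ insert ⊤ D, d ∈ K := by
    intro d hd
    rcases Finset.mem_insert.1 hd with rfl | h1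
    · exact h.top
    · exact hD d h1
  have hall : ∀ e ∈ insert ⊤ D, e ≤ z := by
    by_contra hcon
    push Not at hcon
    obtain ⟨e', he', hne'⟩ := hcon
    obtain ⟨e, he⟩ := ((insert ⊤ D).filter (fun e => ¬ e ≤ z)).exists_minimal
      ⟨e', Finset.mem_filter.2 ⟨he', hne'⟩⟩
    obtain ⟨heD, hez'⟩ := Finset.mem_filter.1 he.prop
    have heK := hD' e heD
    have hebot : e ≠ ⊥ := by
      rintro rfl
      exact hez' bot_le
    -- the predecessor
    obtain ⟨a, ha⟩ := ((insert ⊥ D).filter (fun d => d < e)).exists_maximal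
      ⟨⊥, Finset.mem_filter.2 ⟨Finset.mem_insert_self _ _, bot_lt_iff_ne_bot.2 hebot⟩⟩
    obtain ⟨haD, hae⟩ := Finset.mem_filter.1 ha.prop
    have haK : a ∈ K := by
      rcases Finset.mem_insert.1 haD with rfl | h1
      · exact h.bot
      · exact hD a h1
    have hcons : ∀ d ∈ D, d ≤ a ∨ e ≤ d := by
      intro d hd
      rcases lt_or h (hD d hd) heK with h1 | h1
      · left
        rcases h.tot d (hD d hd) a haK with h2 | h2
        · exact h2
        · exact ha.le_of_ge (Finset.mem_filter.2 ⟨Finset.mem_insert_of_mem hd, h1⟩) h2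
      · exact Or.inr h1
    have haz : a ≤ z := by
      by_cases hab : a = ⊥
      · rw [hab]; exact bot_le
      · have haD2 : a ∈ D := (Finset.mem_insert.1 haD).resolve_left hab
        by_contra h1
        have h2 := he.le_of_le (Finset.mem_filter.2 ⟨Finset.mem_insert_of_mem haD2, h1⟩) hae.le
        exact absurd hae (not_lt_of_ge h2)
    rcases hgap a e haK heK hae hcons with h1 | h1
    · apply hez'
      calc e ≤ a ⊔ (e \ a) := by rw [sup_sdiff_self]; exact le_sup_right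
        _ ≤ z := sup_le haz h1
    · by_cases hab : a = ⊥
      · -- then `e = e₀`
        subst hab
        have h2 : e ≤ e₀ := by
          rcases Finset.mem_insert.1 he₀ with h3 | h3
          · rw [h3]; exact le_top
          · rcases hcons e₀ h3 with h4 | h4
            · exact absurd (le_bot_iff.1 h4) hb
            · exact h4
        exact hez' (h2.trans hez)
      · have hat : a ≠ ⊤ := by
          rintro rfl
          exact absurd hae (not_lt_of_ge le_top)
        have hL : Lc K a z := ⟨⊥, h.bot, bot_lt_iff_ne_bot.2 hab, by rw [sdiff_bot]; exact haz⟩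
        have hR : Rc K a z := by
          by_contra hR
          have : a ∈ bd K z := ⟨haK, hab, hat, fun h5 => hR (h5.1 hL)⟩
          rw [hz] at this
          exact this
        exact Rc_not_both h hR ⟨e, heK, hae, h1⟩
  exact top_le_iff.1 (hall ⊤ (Finset.mem_insert_self _ _))

lemma bd_compl (h : GenChain K) (z : T) : bd K zᶜ = bd K z := by
  ext c
  constructor
  · rintro ⟨hc, hb, ht, hne⟩
    refine ⟨hc, hb, ht, fun h3 => hne ?_⟩
    rw [Lc_compl h hc hb, Rc_compl h hc ht, h3]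
  · rintro ⟨hc, hb, ht, hne⟩
    refine ⟨hc, hb, ht, fun h3 => hne ?_⟩
    rw [Lc_compl h hc hb, Rc_compl h hc ht] at h3
    exact not_iff_not.1 h3

open Classical in
lemma trivial_of_bd (h : GenChain K) {z : T} (hz : bd K z = ∅) : z = ⊥ ∨ z = ⊤ := by
  by_cases htb : (⊤ : T) = ⊥
  · left
    exact le_bot_iff.1 (by rw [← htb]; exact le_top)
  obtain ⟨D, hD, hgap⟩ := cut_points h z
  have hD' : ∀ d ∈ insert ⊤ D, d ∈ K := by
    intro d hd
    rcases Finset.mem_insert.1 hd with rfl | h1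
    · exact h.top
    · exact hD d h1
  obtain ⟨e₀, he₀⟩ := ((insert ⊤ D).filter (fun e => e ≠ ⊥)).exists_minimal
    ⟨⊤, Finset.mem_filter.2 ⟨Finset.mem_insert_self _ _, htb⟩⟩
  obtain ⟨he₀D, hb⟩ := Finset.mem_filter.1 he₀.prop
  have hmin : ∀ d ∈ insert ⊤ D, d ≠ ⊥ → e₀ ≤ d := by
    intro d hd hdb
    rcases h.tot e₀ (hD' _ he₀D) d (hD' _ hd) with h1 | h1
    · exact h1
    · exact he₀.le_of_le (Finset.mem_filter.2 ⟨hd, hdb⟩) h1
  have hg : e₀ \ ⊥ ≤ z ∨ e₀ \ ⊥ ≤ zᶜ := by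
    refine hgap ⊥ e₀ h.bot (hD' _ he₀D) (bot_lt_iff_ne_bot.2 hb) ?_
    intro d hd
    by_cases hdb : d = ⊥
    · left; rw [hdb]
    · right; exact hmin d (Finset.mem_insert_of_mem hd) hdb
  rw [sdiff_bot] at hg
  rcases hg with h1 | h1
  · right
    exact top_of_first h hz D hD hgap e₀ he₀D hb hmin h1
  · left
    have h2 : zᶜ = ⊤ := by
      refine top_of_first h (by rw [bd_compl h, hz]) D hD ?_ e₀ he₀D hb hmin h1
      intro a b ha hb hab hd
      rw [compl_compl]
      exact (hgap a b ha hb hab hd).symm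
    rw [← compl_compl z, h2, compl_top]

lemma same_bd (h : GenChain K) {x y : T} (hxy : bd K x = bd K y) : x = y ∨ x = yᶜ := by
  have h0 : bd K ((x ⊓ yᶜ) ⊔ (xᶜ ⊓ y)) = ∅ := by
    ext c
    simp only [Set.mem_empty_iff_false, iff_false]
    rintro ⟨hc, hb, ht, hne⟩
    apply hne
    have h1 : (Lc K c x ↔ Rc K c x) ↔ (Lc K c y ↔ Rc K c y) := by
      have e : ∀ z, c ∈ bd K z ↔ ¬ (Lc K c z ↔ Rc K c z) := fun z =>
        ⟨fun hz => hz.2.2.2, fun hz => ⟨hc, hb, ht, hz⟩⟩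
      have h2 : c ∈ bd K x ↔ c ∈ bd K y := by rw [hxy]
      rw [e, e] at h2
      exact not_iff_not.1 h2
    rw [Lc_sup h hc hb, Rc_sup h hc ht, Lc_inf h, Lc_inf h, Rc_inf h, Rc_inf h, Lc_compl h hc hb,
      Lc_compl h hc hb, Rc_compl h hc ht, Rc_compl h hc ht]
    by_cases a1 : Lc K c x <;> by_cases a2 : Lc K c y <;> by_cases a3 : Rc K c x <;>
      by_cases a4 : Rc K c y <;> simp_all
  rcases trivial_of_bd h h0 with h1 | h1
  · left
    obtain ⟨h2, h3⟩ := sup_eq_bot_iff.1 h1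
    apply le_antisymm
    · rw [← sdiff_eq] at h2
      exact sdiff_eq_bot_iff.1 h2
    · rw [inf_comm, ← sdiff_eq] at h3
      exact sdiff_eq_bot_iff.1 h3
  · right
    apply le_antisymm
    · calc x = x ⊓ ((x ⊓ yᶜ) ⊔ (xᶜ ⊓ y)) := by rw [h1, inf_top_eq]
        _ ≤ yᶜ := by
          rw [inf_sup_left]
          refine sup_le (inf_le_right.trans inf_le_right) ?_
          rw [← inf_assoc, inf_compl_self, bot_inf_eq]
          exact bot_le
    · calc yᶜ = yᶜ ⊓ ((x ⊓ yᶜ) ⊔ (xᶜ ⊓ y)) := by rw [h1, inf_top_eq]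
        _ ≤ x := by
          rw [inf_sup_left]
          refine sup_le (inf_le_right.trans inf_le_left) ?_
          have : yᶜ ⊓ (xᶜ ⊓ y) = ⊥ := by
            rw [inf_comm xᶜ y, ← inf_assoc, compl_inf_self, bot_inf_eq]
          rw [this]
          exact bot_le

/-- **Monotone selection** for a Boolean algebra with a generating chain with bounds. -/
theorem selection (h : GenChain K) : MonotoneSelection T := by
  classical
  refine selection_of_boundary (fun x => (bd_finite h x).toFinset) ?_ ?_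
  · intro x y c
    simp only [Set.Finite.mem_toFinset]
    convert bd_sub h x y c
  · intro x₀
    refine (Set.toFinite {x₀, x₀ᶜ}).subset ?_
    intro x hx
    have h1 : bd K x = bd K x₀ := by
      have h2 : (bd_finite h x).toFinset = (bd_finite h x₀).toFinset := hx
      rw [Set.Finite.toFinset_inj] at h2
      exact h2
    rcases same_bd h h1 with h2 | h2
    · left; exact h2
    · right; exact h2

end Pool.Agent.Q264.MonSel
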