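import Mathlib

/-!
The monotone selection property for nonempty sublattices, from a finite boundary map.
-/

set_option autoImplicit false

namespace Pool.Agent.Q264.MonSel

universe u v

/-- A nonempty sublattice of `T`: a nonempty subset closed under meet and join. -/
structure NSub (T : Type u) [Lattice T] where
  /-- the underlying set -/
  carrier : Set T
  nonempty : carrier.Nonempty
  inf_mem : ∀ x ∈ carrier, ∀ y ∈ carrier, x ⊓ y ∈ carrier
  sup_mem : ∀ x ∈ carrier, ∀ y ∈ carrier, x ⊔ y ∈ carrier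

/-- The relation `S ≤ S'` between nonempty sublattices. -/
def Below {T : Type u} [Lattice T] (S S' : NSub T) : Prop :=
  ∀ x ∈ S.carrier, ∀ x' ∈ S'.carrier, x ⊓ x' ∈ S.carrier ∧ x ⊔ x' ∈ S'.carrier

/-- The monotone selection property. -/
def MonotoneSelection (T : Type u) [Lattice T] : Prop :=
  ∃ φ : NSub T → T, (∀ S S' : NSub T, Below S S' → φ S ≤ φ S') ∧ ∀ S : NSub T, φ S ∈ S.carrier

section potential

variable {T : Type u} [Lattice T] {ι : Type v}

/-- the indicator of the boundary -/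
noncomputable def ind (b : T → Finset ι) (x : T) : ι →₀ ℕ :=
  ∑ i ∈ b x, Finsupp.single i 1

open Classical in
lemma ind_apply (b : T → Finset ι) (x : T) (i : ι) :
    ind b x i = if i ∈ b x then 1 else 0 := by
  unfold ind
  rw [Finsupp.finset_sum_apply]
  simp only [Finsupp.single_apply]
  rw [Finset.sum_ite_eq']

lemma ind_inj (b : T → Finset ι) {x y : T} (h : ind b x = ind b y) : b x = b y := by
  classical
  ext i
  have h1 := DFunLike.congr_fun h i
  rw [ind_apply, ind_apply] at h1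
  by_cases hx : i ∈ b x <;> by_cases hy : i ∈ b y <;> simp_all

open Classical in
/-- A finite submodular boundary with finite fibres gives a monotone selection. -/
theorem selection_of_boundary (b : T → Finset ι)
    (hsub : ∀ (x y : T) (i : ι),
      (if i ∈ b (x ⊓ y) then 1 else 0) + (if i ∈ b (x ⊔ y) then 1 else 0) ≤
        (if i ∈ b x then 1 else 0) + (if i ∈ b y then (1 : ℕ) else 0))
    (hfin : ∀ x₀ : T, {x | b x = b x₀}.Finite) : MonotoneSelection T := by
  obtain ⟨lo, hwf⟩ := exists_wellFoundedLT (α := ι)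
  set f : T → Colex (ι →₀ ℕ) := fun x => toColex (ind b x) with hf
  have hsum : ∀ x y : T, f (x ⊓ y) + f (x ⊔ y) ≤ f x + f y := by
    intro x y
    have h1 : ind b (x ⊓ y) + ind b (x ⊔ y) ≤ ind b x + ind b y := by
      intro i
      rw [Finsupp.add_apply, Finsupp.add_apply, ind_apply, ind_apply, ind_apply, ind_apply]
      exact hsub x y i
    exact Finsupp.toColex_monotone h1
  -- minimal elements
  have hmin : ∀ S : NSub T, ∃ m ∈ S.carrier, ∀ y ∈ S.carrier, f m ≤ f y := by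
    intro S
    obtain ⟨m, hm, hm2⟩ := (wellFounded_lt (α := Colex (ι →₀ ℕ))).has_min (f '' S.carrier)
      (S.nonempty.image f)
    obtain ⟨x, hx, rfl⟩ := hm
    exact ⟨x, hx, fun y hy => not_lt.1 (hm2 _ ⟨y, hy, rfl⟩)⟩
  have key : ∀ S S' : NSub T, Below S S' → ∀ x ∈ S.carrier, (∀ y ∈ S.carrier, f x ≤ f y) →
      ∀ x' ∈ S'.carrier, (∀ y ∈ S'.carrier, f x' ≤ f y) → f (x ⊓ x') = f x := by
    intro S S' hSS x hx hxm x' hx' hxm'
    have h1 := hxm _ (hSS x hx x' hx').1
    have h2 := hxm' _ (hSS x hx x' hx').2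
    have h3 := hsum x x'
    refine le_antisymm ?_ h1
    by_contra h4
    rw [not_le] at h4
    exact absurd (lt_of_lt_of_le (add_lt_add_of_lt_of_le h4 h2) h3) (lt_irrefl _)
  have self : ∀ S : NSub T, Below S S := fun S x hx y hy => ⟨S.inf_mem x hx y hy, S.sup_mem x hx y hy⟩
  -- the least minimal element
  have hleast : ∀ S : NSub T, ∃ m ∈ S.carrier, (∀ y ∈ S.carrier, f m ≤ f y) ∧
      ∀ z ∈ S.carrier, (∀ y ∈ S.carrier, f z ≤ f y) → m ≤ z := by
    intro S
    obtain ⟨m₀, hm₀, hm₀'⟩ := hmin S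
    have hMfin : {z | z ∈ S.carrier ∧ ∀ y ∈ S.carrier, f z ≤ f y}.Finite := by
      refine (hfin m₀).subset ?_
      rintro z ⟨hz, hz'⟩
      have h1 : f z = f m₀ := le_antisymm (hz' _ hm₀) (hm₀' _ hz)
      exact ind_inj b (toColex_inj.1 h1)
    have hne : {z | z ∈ S.carrier ∧ ∀ y ∈ S.carrier, f z ≤ f y}.Nonempty := ⟨m₀, hm₀, hm₀'⟩
    obtain ⟨m, hm⟩ := hMfin.exists_minimal hne
    refine ⟨m, hm.prop.1, hm.prop.2, fun z hz hz' => ?_⟩
    have h1 : f (m ⊓ z) = f m := key S S (self S) m hm.prop.1 hm.prop.2 z hz hz'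
    have h2 : m ⊓ z ∈ {z | z ∈ S.carrier ∧ ∀ y ∈ S.carrier, f z ≤ f y} :=
      ⟨S.inf_mem _ hm.prop.1 _ hz, fun y hy => by rw [h1]; exact hm.prop.2 y hy⟩
    have h3 : m ≤ m ⊓ z := hm.le_of_le h2 inf_le_left
    exact h3.trans inf_le_right
  choose φ hφ1 hφ2 hφ3 using hleast
  refine ⟨φ, fun S S' hSS => ?_, hφ1⟩
  have h1 := key S S' hSS (φ S) (hφ1 S) (hφ2 S) (φ S') (hφ1 S') (hφ2 S')
  have h2 : φ S ≤ φ S ⊓ φ S' := hφ3 S _ (hSS _ (hφ1 S) _ (hφ1 S')).1
    (fun y hy => by rw [h1]; exact hφ2 S y hy)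
  exact h2.trans inf_le_right

end potential

end Pool.Agent.Q264.MonSel
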