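import Mathlib
set_option autoImplicit false
set_option linter.unusedSectionVars false
open Finset

/-! Non-trivial vertex covers of intersecting `r`-partite hypergraphs (MP_2c613a_co). -/

namespace Pool.Agent.Q264.NtCover

variable {V : Type} [Fintype V] [DecidableEq V] {r : ℕ}

/-- The side `V_i`: all vertices in class `i`. -/
def sideSet (side : V → Fin r) (i : Fin r) : Finset V := univ.filter (fun v => side v = i)

/-- `E` is (the edge set of) an `r`-partite hypergraph with classes given by `side`: every edge
has exactly one vertex in each side, and every vertex lies in an edge. -/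
def IsPartite (side : V → Fin r) (E : Finset (Finset V)) : Prop :=
  (∀ e ∈ E, ∀ i, #(e ∩ sideSet side i) = 1) ∧ ∀ v, ∃ e ∈ E, v ∈ e

/-- any two edges share a vertex -/
def IsIntersecting (E : Finset (Finset V)) : Prop := ∀ e ∈ E, ∀ f ∈ E, (e ∩ f).Nonempty

/-- `S` is a non-trivial vertex cover: it meets every edge and contains no edge and no side. -/
def IsNtCover (side : V → Fin r) (E : Finset (Finset V)) (S : Finset V) : Prop :=
  (∀ e ∈ E, (S ∩ e).Nonempty) ∧ (∀ e ∈ E, ¬ e ⊆ S) ∧ ∀ i, ¬ sideSet side i ⊆ S

/-- the minimum size of a non-trivial vertex cover (if there is one) -/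
noncomputable def tauStar (side : V → Fin r) (E : Finset (Finset V)) : ℕ :=
  sInf {k | ∃ S, IsNtCover side E S ∧ #S = k}

section basics

variable {side : V → Fin r} {E : Finset (Finset V)}

lemma mem_sideSet {i : Fin r} {v : V} : v ∈ sideSet side i ↔ side v = i := by
  simp [sideSet]

lemma exists_vertex (h : IsPartite side E) {e : Finset V} (he : e ∈ E) (i : Fin r) :
    ∃ v ∈ e, side v = i := by
  have h1 := h.1 e he i
  rw [card_eq_one] at h1
  obtain ⟨v, hv⟩ := h1
  have : v ∈ e ∩ sideSet side i := by rw [hv]; exact mem_singleton_self v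
  rw [mem_inter, mem_sideSet] at this
  exact ⟨v, this⟩

lemma vertex_unique (h : IsPartite side E) {e : Finset V} (he : e ∈ E) {v w : V}
    (hv : v ∈ e) (hw : w ∈ e) (hvw : side v = side w) : v = w := by
  have h1 := h.1 e he (side w)
  have h2 : #(e ∩ sideSet side (side w)) ≤ 1 := h1.le
  rw [card_le_one] at h2
  exact h2 v (mem_inter.2 ⟨hv, mem_sideSet.2 hvw⟩) w (mem_inter.2 ⟨hw, mem_sideSet.2 rfl⟩)

lemma card_eq_sum_sides (S : Finset V) : #S = ∑ i, #(S ∩ sideSet side i) := by
  have : #S = ∑ i, #(S.filter (fun v => side v = i)) :=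
    card_eq_sum_card_fiberwise (fun _ _ => mem_coe.2 (mem_univ _))
  rw [this]
  apply sum_congr rfl
  intro i _
  congr 1
  ext v
  simp [mem_sideSet]

lemma card_edge (h : IsPartite side E) {e : Finset V} (he : e ∈ E) : #e = r := by
  rw [card_eq_sum_sides (side := side) e, sum_congr rfl (fun i _ => h.1 e he i)]
  simp

/-- The key cover: `(e ∪ f) \ V_i` for two edges differing on the side `i`. -/
lemma union_cover (h : IsPartite side E) (hI : IsIntersecting E) (hr : 3 ≤ r)
    (h2 : ∀ i, 2 ≤ #(sideSet side i)) {e f : Finset V} (he : e ∈ E) (hf : f ∈ E) (i : Fin r)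
    (hi : ∀ v ∈ e, ∀ w ∈ f, side v = i → side w = i → v ≠ w)
    (hJ : ∀ j, j ≠ i → #(sideSet side j) = 2 → ∀ v ∈ e, ∀ w ∈ f, side v = j → side w = j → v = w) :
    ∃ S, IsNtCover side E S ∧ #S ≤ 2 * r - 3 := by
  refine ⟨(e ∪ f) \ sideSet side i, ⟨?_, ?_, ?_⟩, ?_⟩
  · -- it is a cover
    intro g hg
    obtain ⟨u, hug, hui⟩ := exists_vertex h hg i
    by_cases hue : u ∈ e
    · -- then u ∉ f
      obtain ⟨w, hw⟩ := hI g hg f hf
      rw [mem_inter] at hw
      refine ⟨w, mem_inter.2 ⟨mem_sdiff.2 ⟨mem_union_right _ hw.2, ?_⟩, hw.1⟩⟩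
      rw [mem_sideSet]
      intro hwi
      have : u = w := vertex_unique h hg hug hw.1 (by rw [hui, hwi])
      exact hi u hue w hw.2 hui hwi this
    · obtain ⟨w, hw⟩ := hI g hg e he
      rw [mem_inter] at hw
      refine ⟨w, mem_inter.2 ⟨mem_sdiff.2 ⟨mem_union_left _ hw.2, ?_⟩, hw.1⟩⟩
      rw [mem_sideSet]
      intro hwi
      have : u = w := vertex_unique h hg hug hw.1 (by rw [hui, hwi])
      rw [this] at hue
      exact hue hw.2
  · intro g hg hsub
    obtain ⟨u, hug, hui⟩ := exists_vertex h hg i
    have := hsub hug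
    rw [mem_sdiff, mem_sideSet] at this
    exact this.2 hui
  · intro j hsub
    by_cases hji : j = i
    · subst hji
      have : (sideSet side j).Nonempty := by
        rw [← card_pos]; have := h2 j; omega
      obtain ⟨u, hu⟩ := this
      have := hsub hu
      rw [mem_sdiff] at this
      exact this.2 hu
    · have h1 : sideSet side j ⊆ (e ∩ sideSet side j) ∪ (f ∩ sideSet side j) := by
        intro u hu
        have := hsub hu
        rw [mem_sdiff, mem_union] at this
        rw [mem_union, mem_inter, mem_inter]
        tauto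
      have h3 := card_le_card h1
      have h4 := card_union_le (e ∩ sideSet side j) (f ∩ sideSet side j)
      rw [h.1 e he j, h.1 f hf j] at h4
      have h5 : #(sideSet side j) = 2 := le_antisymm (h3.trans h4) (h2 j)
      have h6 := hJ j hji h5
      -- the two singletons coincide
      have h7 : (e ∩ sideSet side j) ∪ (f ∩ sideSet side j) ⊆ e ∩ sideSet side j := by
        intro u hu
        rw [mem_union, mem_inter, mem_inter] at hu
        rcases hu with hu | hu
        · exact mem_inter.2 hu
        · obtain ⟨v, hv, hvj⟩ := exists_vertex h he j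
          have := h6 v hv u hu.1 hvj (mem_sideSet.1 hu.2)
          rw [← this]
          exact mem_inter.2 ⟨hv, mem_sideSet.2 hvj⟩
      have h8 := card_le_card (h1.trans h7)
      rw [h.1 e he j] at h8
      omega
  · -- size
    have h1 : #(e ∪ f) + #(e ∩ f) = #e + #f := card_union_add_card_inter e f
    have h3 : 0 < #(e ∩ f) := card_pos.2 (hI e he f hf)
    rw [card_edge h he, card_edge h hf] at h1
    have h4 : 2 ≤ #((e ∪ f) ∩ sideSet side i) := by
      obtain ⟨v, hv, hvi⟩ := exists_vertex h he i
      obtain ⟨w, hw, hwi⟩ := exists_vertex h hf i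
      have hne := hi v hv w hw hvi hwi
      have : ({v, w} : Finset V) ⊆ (e ∪ f) ∩ sideSet side i := by
        intro u hu
        rw [mem_insert, mem_singleton] at hu
        rcases hu with rfl | rfl
        · exact mem_inter.2 ⟨mem_union_left _ hv, mem_sideSet.2 hvi⟩
        · exact mem_inter.2 ⟨mem_union_right _ hw, mem_sideSet.2 hwi⟩
      have h5 := card_le_card this
      rwa [card_pair hne] at h5
    have h5 := card_sdiff_add_card_inter (e ∪ f) (sideSet side i)
    omega

/-- If all sides have at least two vertices and not all have exactly two, there is a non-trivial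
vertex cover of size at most `2r - 3`. -/
theorem exists_small_cover (h : IsPartite side E) (hI : IsIntersecting E) (hr : 3 ≤ r)
    (h2 : ∀ i, 2 ≤ #(sideSet side i)) (hne : ∃ i, #(sideSet side i) ≠ 2) :
    ∃ S, IsNtCover side E S ∧ #S ≤ 2 * r - 3 := by
  classical
  by_cases hB : ∃ e ∈ E, ∃ f ∈ E, ∃ i, (∀ v ∈ e, ∀ w ∈ f, side v = i → side w = i → v ≠ w) ∧
      (∀ j, j ≠ i → #(sideSet side j) = 2 → ∀ v ∈ e, ∀ w ∈ f, side v = j → side w = j → v = w)
  · obtain ⟨e, he, f, hf, i, h3, h4⟩ := hB
    exact union_cover h hI hr h2 he hf i h3 h4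
  · -- there is a side of size two
    have hex : ∃ i, #(sideSet side i) = 2 := by
      by_contra hcon
      push Not at hcon
      apply hB
      have i : Fin r := ⟨0, by omega⟩
      have := h2 i
      obtain ⟨u, hu, u', hu', huu'⟩ := one_lt_card.1 (by omega : 1 < #(sideSet side i))
      obtain ⟨e, he, hue⟩ := h.2 u
      obtain ⟨f, hf, huf⟩ := h.2 u'
      refine ⟨e, he, f, hf, i, ?_, ?_⟩
      · intro v hv w hw hvi hwi hvw
        apply huu'
        have h5 : v = u := vertex_unique h he hv hue (by rw [hvi, mem_sideSet.1 hu])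
        have h6 : w = u' := vertex_unique h hf hw huf (by rw [hwi, mem_sideSet.1 hu'])
        rw [← h5, ← h6, hvw]
      · intro j _ hj
        exact absurd hj (hcon j)
    obtain ⟨i, hi2⟩ := hex
    have hpos : 0 < #(sideSet side i) := by omega
    obtain ⟨u, hu⟩ := card_pos.1 hpos
    obtain ⟨e, he, hue⟩ := h.2 u
    set P : Finset V := univ.filter (fun v => #(sideSet side (side v)) = 2 ∧
      ((side v = i ∧ v ∈ e) ∨ (side v ≠ i ∧ v ∉ e))) with hP
    -- each side meets P in at most one vertex
    have hP1 : ∀ j, #(sideSet side j) = 2 → #(P ∩ sideSet side j) ≤ 1 := by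
      intro j hj
      by_cases hji : j = i
      · rw [← h.1 e he j]
        apply card_le_card
        intro v hv
        rw [mem_inter, mem_sideSet, hP, mem_filter] at hv
        rw [mem_inter, mem_sideSet]
        refine ⟨?_, hv.2⟩
        rcases hv.1.2.2 with h' | h'
        · exact h'.2
        · exact absurd (hv.2.trans hji) h'.1
      · have h3 : P ∩ sideSet side j ⊆ sideSet side j \ e := by
          intro v hv
          rw [mem_inter, mem_sideSet, hP, mem_filter] at hv
          rw [mem_sdiff, mem_sideSet]
          refine ⟨hv.2, ?_⟩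
          rcases hv.1.2.2 with h' | h'
          · exact absurd (hv.2.symm.trans h'.1) hji
          · exact h'.2
        have h4 := card_le_card h3
        have h5 := card_sdiff_add_card_inter (sideSet side j) e
        rw [inter_comm, h.1 e he j, hj] at h5
        omega
    have hP0 : ∀ j, #(sideSet side j) ≠ 2 → #(P ∩ sideSet side j) = 0 := by
      intro j hj
      rw [card_eq_zero, eq_empty_iff_forall_notMem]
      intro v hv
      rw [mem_inter, mem_sideSet, hP, mem_filter] at hv
      rw [hv.2] at hv
      exact hj hv.1.2.1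
    refine ⟨P, ⟨?_, ?_, ?_⟩, ?_⟩
    · intro g hg
      obtain ⟨w, hwg, hwi⟩ := exists_vertex h hg i
      by_cases hwe : w ∈ e
      · refine ⟨w, mem_inter.2 ⟨?_, hwg⟩⟩
        rw [hP, mem_filter]
        exact ⟨mem_univ _, by rw [hwi]; exact hi2, Or.inl ⟨hwi, hwe⟩⟩
      · by_contra hcon
        apply hB
        refine ⟨e, he, g, hg, i, ?_, ?_⟩
        · intro v hv w' hw' hvi hw'i hvw
          have : w' = w := vertex_unique h hg hw' hwg (by rw [hw'i, hwi])
          rw [← this, ← hvw] at hwe
          exact hwe hv
        · intro j hji hj v hv w' hw' hvj hw'j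
          by_contra hvw
          apply hcon
          refine ⟨w', mem_inter.2 ⟨?_, hw'⟩⟩
          rw [hP, mem_filter]
          refine ⟨mem_univ _, by rw [hw'j]; exact hj, Or.inr ⟨by rw [hw'j]; exact hji, ?_⟩⟩
          intro hw'e
          exact hvw (vertex_unique h he hv hw'e (by rw [hvj, hw'j]))
    · intro g hg hsub
      obtain ⟨j, hj⟩ := hne
      obtain ⟨w, hwg, hwj⟩ := exists_vertex h hg j
      have h3 := hP0 j hj
      rw [card_eq_zero, eq_empty_iff_forall_notMem] at h3
      exact h3 w (mem_inter.2 ⟨hsub hwg, mem_sideSet.2 hwj⟩)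
    · intro j hsub
      have h3 : sideSet side j ⊆ P ∩ sideSet side j := fun v hv => mem_inter.2 ⟨hsub hv, hv⟩
      have h4 := card_le_card h3
      have h5 := h2 j
      by_cases hj : #(sideSet side j) = 2
      · have := hP1 j hj; omega
      · have := hP0 j hj; omega
    · rw [card_eq_sum_sides (side := side) P]
      obtain ⟨j, hj⟩ := hne
      have h3 : ∑ i, #(P ∩ sideSet side i) ≤ ∑ i : Fin r, (if i = j then 0 else 1) := by
        apply sum_le_sum
        intro l _
        split_ifs with hl
        · rw [hl, hP0 j hj]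
        · by_cases hl2 : #(sideSet side l) = 2
          · exact hP1 l hl2
          · rw [hP0 l hl2]; omega
      have h4 : ∑ i : Fin r, (if i = j then 0 else 1) = r - 1 := by
        rw [← sum_filter_add_sum_filter_not univ (fun i => i = j)]
        rw [sum_congr rfl (g := fun _ => 0) (fun x hx => by simp [(mem_filter.1 hx).2]),
          sum_congr (s₁ := univ.filter (fun i => ¬ i = j)) rfl (g := fun _ => 1)
            (fun x hx => by simp [(mem_filter.1 hx).2])]
        simp only [sum_const_zero, zero_add, sum_const, smul_eq_mul, mul_one]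
        have : univ.filter (fun i : Fin r => ¬ i = j) = univ.erase j := by
          ext x; simp
        rw [this, card_erase_of_mem (mem_univ _)]
        simp
      omega

/-- Nondegenerate upper bound. -/
theorem small_cover (h : IsPartite side E) (hI : IsIntersecting E) (hr : 3 ≤ r)
    (h2 : ∀ i, 2 ≤ #(sideSet side i)) (hc : ∃ S, IsNtCover side E S) :
    ∃ S, IsNtCover side E S ∧ #S ≤ 2 * r - 3 := by
  by_cases hne : ∃ i, #(sideSet side i) ≠ 2
  · exact exists_small_cover h hI hr h2 hne
  · push Not at hne
    obtain ⟨S, hS⟩ := hc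
    refine ⟨S, hS, ?_⟩
    rw [card_eq_sum_sides (side := side) S]
    have h3 : ∑ i, #(S ∩ sideSet side i) ≤ ∑ i : Fin r, 1 := by
      apply sum_le_sum
      intro i _
      by_contra hlt
      push Not at hlt
      have h4 : S ∩ sideSet side i = sideSet side i := by
        apply eq_of_subset_of_card_le inter_subset_right
        rw [hne i]; omega
      exact hS.2.2 i (by rw [← h4]; exact inter_subset_left)
    simp only [sum_const, card_univ, Fintype.card_fin, smul_eq_mul, mul_one] at h3
    omega

end basics

end Pool.Agent.Q264.NtCover
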