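import Pool.Agent.Y47.BU.Ram
set_option autoImplicit false
set_option linter.unusedSectionVars false
open Finset

/-! Gadgets for colourings of pairs without monochromatic edges (MP_721462_co). -/

namespace Pool.Agent.Q264.PairGadget

section defs
variable {V : Type} {κ : Type}

/-- all 2-subsets of `E` have the same colour -/
def Mono (c : Finset V → κ) (E : Finset V) : Prop := ∃ x, ∀ A, A ⊆ E → #A = 2 → c A = x

/-- no member of `H` is monochromatic -/
def MF (H : Finset (Finset V)) (c : Finset V → κ) : Prop := ∀ E ∈ H, ¬ Mono c E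

end defs

/-- Ramsey: a hypergraph that cannot be coloured -/
lemma exists_uncolourable (κ : Type) [Fintype κ] [DecidableEq κ] [Nonempty κ] :
    ∃ N : ℕ, ∀ c : Finset (Fin N) → κ, ¬ MF ((univ : Finset (Fin N)).powersetCard 4) c := by
  obtain ⟨N, _, hN⟩ := Pool.Agent.Y47.BU.ramsey κ 4
  refine ⟨N, fun c hc => ?_⟩
  obtain ⟨B, x, _, hB4, hB⟩ := hN (Fin N) univ (by simp) (fun a b => c {a, b})
  apply hc B (mem_powersetCard.2 ⟨subset_univ _, hB4⟩)
  refine ⟨x, fun A hA hA2 => ?_⟩
  obtain ⟨a, b, hab, rfl⟩ := card_eq_two.1 hA2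
  have ha : a ∈ B := hA (by simp)
  have hb : b ∈ B := hA (by simp)
  rcases lt_or_gt_of_ne hab with h | h
  · exact hB a ha b hb h
  · rw [pair_comm]
    exact hB b hb a ha h

/-- a minimal uncolourable hypergraph minus an edge -/
lemma exists_gadget (κ : Type) [Fintype κ] [DecidableEq κ] [Nonempty κ] :
    ∃ (N : ℕ) (G : Finset (Finset (Fin N))) (E0 : Finset (Fin N)), (∀ E ∈ G, #E = 4) ∧ #E0 = 4 ∧
      (∀ c : Finset (Fin N) → κ, MF G c → Mono c E0) ∧ ∃ c : Finset (Fin N) → κ, MF G c := by
  classical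
  obtain ⟨N, hN⟩ := exists_uncolourable κ
  -- minimal uncolourable subfamily
  let P : Finset (Finset (Fin N)) → Prop := fun G => ∀ c : Finset (Fin N) → κ, ¬ MF G c
  have hex : ∃ G ∈ (((univ : Finset (Fin N)).powersetCard 4).powerset).filter P,
      ∀ G' ∈ (((univ : Finset (Fin N)).powersetCard 4).powerset).filter P, #G ≤ #G' := by
    apply exists_min_image
    exact ⟨_, mem_filter.2 ⟨mem_powerset.2 Subset.rfl, hN⟩⟩
  obtain ⟨G, hG, hmin⟩ := hex
  rw [mem_filter, mem_powerset] at hG
  have hne : G.Nonempty := by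
    rw [nonempty_iff_ne_empty]
    intro h
    rw [h] at hG
    exact hG.2 (fun _ => Classical.arbitrary κ) (fun E hE => absurd hE (notMem_empty _))
  obtain ⟨E0, hE0⟩ := hne
  have hcol : ∃ c : Finset (Fin N) → κ, MF (G.erase E0) c := by
    by_contra hcon
    push Not at hcon
    have h1 := hmin (G.erase E0) (mem_filter.2 ⟨mem_powerset.2 ((erase_subset _ _).trans hG.1), hcon⟩)
    have h2 := card_erase_lt_of_mem hE0
    omega
  refine ⟨N, G.erase E0, E0, ?_, ?_, ?_, hcol⟩
  · intro E hE
    exact (mem_powersetCard.1 (hG.1 (mem_of_mem_erase hE))).2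
  · exact (mem_powersetCard.1 (hG.1 hE0)).2
  · intro c hc
    by_contra hcon
    apply hG.2 c
    intro E hE
    by_cases h : E = E0
    · rw [h]; exact hcon
    · exact hc E (mem_erase.2 ⟨h, hE⟩)

/-- `(V', ι, H')` is an extension of `(V, H)` which forces the property `Q` of colourings. -/
def Forces {V : Type} (κ : Type) (H : Finset (Finset V)) (Q : (Finset V → κ) → Prop) : Prop :=
  ∃ (V' : Type) (_ : Fintype V') (_ : DecidableEq V') (ι : V ↪ V') (H' : Finset (Finset V')),
    (∀ E ∈ H', #E = 4) ∧ (∀ E ∈ H, E.map ι ∈ H') ∧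
    (∀ c' : Finset V' → κ, MF H' c' → Q (fun A => c' (A.map ι))) ∧
    (∀ c : Finset V → κ, MF H c → Q c → ∃ c' : Finset V' → κ, MF H' c' ∧
      ∀ A : Finset V, c' (A.map ι) = c A)

section gadget
variable {V : Type} [Fintype V] [DecidableEq V] {κ : Type} [Fintype κ] [DecidableEq κ] [Nonempty κ]

/-- forcing a 4-set to be monochromatic -/
theorem forces_mono (H : Finset (Finset V)) (hH : ∀ E ∈ H, #E = 4) (D : Finset V) (hD : #D = 4) :
    Forces κ H (fun c => Mono c D) := by
  classical
  obtain ⟨N, G, E0, hG, hE0, hg1, c1, hc1⟩ := exists_gadget κ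
  -- bijection between E0 and D
  have hcard : Fintype.card {x // x ∈ E0} = Fintype.card {x // x ∈ D} := by
    rw [Fintype.card_coe, Fintype.card_coe, hE0, hD]
  obtain ⟨β⟩ : Nonempty ({x // x ∈ E0} ≃ {x // x ∈ D}) := ⟨Fintype.equivOfCardEq hcard⟩
  let V' := V ⊕ {w : Fin N // w ∉ E0}
  let ι : V ↪ V' := ⟨Sum.inl, Sum.inl_injective⟩
  let φf : Fin N → V' := fun w => if h : w ∈ E0 then Sum.inl (β ⟨w, h⟩).1 else Sum.inr ⟨w, h⟩
  have hφin : ∀ w (h : w ∈ E0), φf w = Sum.inl (β ⟨w, h⟩).1 := fun w h => dif_pos h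
  have hφout : ∀ w (h : w ∉ E0), φf w = Sum.inr ⟨w, h⟩ := fun w h => dif_neg h
  have hφinj : Function.Injective φf := by
    intro w w' hww
    by_cases h : w ∈ E0 <;> by_cases h' : w' ∈ E0
    · rw [hφin w h, hφin w' h'] at hww
      have := β.injective (Subtype.ext (Sum.inl_injective hww))
      exact congrArg Subtype.val this
    · rw [hφin w h, hφout w' h'] at hww
      exact absurd hww (by simp)
    · rw [hφout w h, hφin w' h'] at hww
      exact absurd hww (by simp)
    · rw [hφout w h, hφout w' h'] at hww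
      have := Sum.inr_injective hww
      exact congrArg Subtype.val this
  let φ : Fin N ↪ V' := ⟨φf, hφinj⟩
  have hφE : E0.map φ = D.map ι := by
    ext v
    rw [mem_map, mem_map]
    constructor
    · rintro ⟨w, hw, rfl⟩
      exact ⟨(β ⟨w, hw⟩).1, (β ⟨w, hw⟩).2, (hφin w hw).symm⟩
    · rintro ⟨v, hv, rfl⟩
      refine ⟨(β.symm ⟨v, hv⟩).1, (β.symm ⟨v, hv⟩).2, ?_⟩
      change φf _ = Sum.inl v
      rw [hφin _ (β.symm ⟨v, hv⟩).2]
      simp
  let H' : Finset (Finset V') := H.image (fun E => E.map ι) ∪ G.image (fun E => E.map φ)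
  refine ⟨V', inferInstance, inferInstance, ι, H', ?_, ?_, ?_, ?_⟩
  · intro E hE
    rw [mem_union, mem_image, mem_image] at hE
    rcases hE with ⟨E, hE, rfl⟩ | ⟨E, hE, rfl⟩
    · rw [card_map]; exact hH E hE
    · rw [card_map]; exact hG E hE
  · intro E hE
    exact mem_union_left _ (mem_image_of_mem _ hE)
  · intro c' hc'
    have h1 : MF G (fun A => c' (A.map φ)) := by
      intro E hE hmono
      apply hc' (E.map φ) (mem_union_right _ (mem_image_of_mem _ hE))
      obtain ⟨x, hx⟩ := hmono
      refine ⟨x, fun B hB hB2 => ?_⟩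
      obtain ⟨A, hA, rfl⟩ := subset_map_iff.1 hB
      rw [card_map] at hB2
      exact hx A hA hB2
    obtain ⟨x, hx⟩ := hg1 _ h1
    refine ⟨x, fun A hA hA2 => ?_⟩
    have h2 : A.map ι ⊆ E0.map φ := by
      rw [hφE]; exact map_subset_map.2 hA
    obtain ⟨B, hB, hBA⟩ := subset_map_iff.1 h2
    change c' (A.map ι) = x
    rw [hBA]
    apply hx B hB
    have : #(A.map ι) = #(B.map φ) := by rw [hBA]
    rw [card_map, card_map] at this
    omega
  · intro c hc hDm
    obtain ⟨x, hx⟩ := hDm
    obtain ⟨x0, hx0⟩ := hg1 c1 hc1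
    let π : Equiv.Perm κ := Equiv.swap x0 x
    let c' : Finset V' → κ := fun B =>
      if h : ∃ A : Finset V, B = A.map ι then c h.choose
      else if h' : ∃ A : Finset (Fin N), B = A.map φ then π (c1 h'.choose)
      else Classical.arbitrary κ
    have hc'ι : ∀ A : Finset V, c' (A.map ι) = c A := by
      intro A
      have h : ∃ A' : Finset V, A.map ι = A'.map ι := ⟨A, rfl⟩
      change (if h : ∃ A' : Finset V, A.map ι = A'.map ι then c h.choose else _) = _
      rw [dif_pos h]
      have := h.choose_spec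
      rw [map_inj.1 this.symm]
    have hc'φ : ∀ A : Finset (Fin N), #A = 2 → c' (A.map φ) = π (c1 A) := by
      intro A hA2
      by_cases h : ∃ A' : Finset V, A.map φ = A'.map ι
      · obtain ⟨A', hA'⟩ := h
        rw [hA', hc'ι]
        -- A ⊆ E0
        have hAE : A ⊆ E0 := by
          intro w hw
          by_contra hwE
          have : φ w ∈ A'.map ι := by rw [← hA']; exact mem_map_of_mem _ hw
          rw [mem_map] at this
          obtain ⟨v, _, hv⟩ := this
          change Sum.inl v = φf w at hv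
          rw [hφout w hwE] at hv
          exact absurd hv (by simp)
        have hA'D : A' ⊆ D := by
          rw [← map_subset_map (f := ι), ← hφE, ← hA']
          exact map_subset_map.2 hAE
        have hA'2 : #A' = 2 := by
          have : #(A.map φ) = #(A'.map ι) := by rw [hA']
          rw [card_map, card_map] at this
          omega
        rw [hx A' hA'D hA'2, hx0 A hAE hA2]
        simp [π]
      · have h' : ∃ A' : Finset (Fin N), A.map φ = A'.map φ := ⟨A, rfl⟩
        change (if h : ∃ A' : Finset V, A.map φ = A'.map ι then c h.choose else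
          if h' : ∃ A' : Finset (Fin N), A.map φ = A'.map φ then π (c1 h'.choose)
          else Classical.arbitrary κ) = _
        rw [dif_neg h, dif_pos h']
        have := h'.choose_spec
        rw [map_inj.1 this.symm]
    refine ⟨c', ?_, hc'ι⟩
    intro E hE
    rw [mem_union, mem_image, mem_image] at hE
    rintro ⟨y, hy⟩
    rcases hE with ⟨E, hE, rfl⟩ | ⟨E, hE, rfl⟩
    · apply hc E hE
      refine ⟨y, fun A hA hA2 => ?_⟩
      rw [← hc'ι A]
      exact hy _ (map_subset_map.2 hA) (by rw [card_map]; exact hA2)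
    · apply hc1 E hE
      refine ⟨π.symm y, fun A hA hA2 => ?_⟩
      rw [← hy _ (map_subset_map.2 hA) (by rw [card_map]; exact hA2), hc'φ A hA2]
      simp

end gadget

/-- composition of forcings -/
theorem Forces.comp {V : Type} {κ : Type} {H : Finset (Finset V)} {Q Q' : (Finset V → κ) → Prop}
    (h1 : Forces κ H Q)
    (h2 : ∀ (V' : Type) [Fintype V'] [DecidableEq V'] (ι : V ↪ V') (H' : Finset (Finset V')),
      (∀ E ∈ H', #E = 4) → Forces κ H' (fun c' => Q' (fun A => c' (A.map ι)))) :
    Forces κ H (fun c => Q c ∧ Q' c) := by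
  obtain ⟨V1, _, _, ι1, H1, hu1, hs1, ha1, hb1⟩ := h1
  obtain ⟨V2, i2, j2, ι2, H2, hu2, hs2, ha2, hb2⟩ := h2 V1 ι1 H1 hu1
  have hrestr : ∀ c' : Finset V2 → κ, MF H2 c' → MF H1 (fun A => c' (A.map ι2)) := by
    intro c' hc' E hE hmono
    apply hc' _ (hs2 E hE)
    obtain ⟨x, hx⟩ := hmono
    refine ⟨x, fun B hB hB2 => ?_⟩
    obtain ⟨A, hA, rfl⟩ := subset_map_iff.1 hB
    rw [card_map] at hB2
    exact hx A hA hB2
  refine ⟨V2, i2, j2, ι1.trans ι2, H2, hu2, ?_, ?_, ?_⟩
  · intro E hE
    rw [← map_map]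
    exact hs2 _ (hs1 E hE)
  · intro c' hc'
    have e1 := ha1 _ (hrestr c' hc')
    have e2 := ha2 c' hc'
    simp only [map_map] at e1 e2
    exact ⟨e1, e2⟩
  · intro c hc hQ
    obtain ⟨c1, hc1, hc1'⟩ := hb1 c hc hQ.1
    have e : (fun A : Finset V => c1 (A.map ι1)) = c := funext hc1'
    obtain ⟨c2, hc2, hc2'⟩ := hb2 c1 hc1 (by
      change Q' (fun A => c1 (A.map ι1))
      rw [e]; exact hQ.2)
    refine ⟨c2, hc2, fun A => ?_⟩
    rw [← map_map, hc2', hc1']

/-- the trivial forcing -/
theorem Forces.trivial {V : Type} [Fintype V] [DecidableEq V] {κ : Type} {H : Finset (Finset V)}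
    (hH : ∀ E ∈ H, #E = 4) : Forces κ H (fun _ => True) := by
  refine ⟨V, inferInstance, inferInstance, Function.Embedding.refl V, H, hH, ?_, ?_, ?_⟩
  · intro E hE
    rw [map_refl]; exact hE
  · intro _ _; exact True.intro
  · intro c hc _
    exact ⟨c, hc, fun A => by rw [map_refl]⟩

theorem Forces.congr {V : Type} {κ : Type} {H : Finset (Finset V)}
    {Q Q' : (Finset V → κ) → Prop} (h : ∀ c, Q c ↔ Q' c) (h1 : Forces κ H Q) : Forces κ H Q' := by
  have : Q = Q' := funext fun c => propext (h c)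
  rw [← this]; exact h1

/-- forcing a pair of 2-subsets to have the same colour -/
theorem forces_eq {V : Type} [Fintype V] [DecidableEq V] {κ : Type} [Fintype κ] [DecidableEq κ]
    [Nonempty κ] (H : Finset (Finset V)) (hH : ∀ E ∈ H, #E = 4) (e f : Finset V) (he : #e = 2)
    (hf : #f = 2) : Forces κ H (fun c => c e = c f) := by
  classical
  -- add two fresh vertices
  let V1 := V ⊕ Fin 2
  let ι1 : V ↪ V1 := ⟨Sum.inl, Sum.inl_injective⟩
  let H1 : Finset (Finset V1) := H.image (fun E => E.map ι1)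
  let fr : Finset V1 := {Sum.inr 0, Sum.inr 1}
  have hfr : #(fr) = 2 := card_pair (fun h => by
    have := Sum.inr_injective h
    exact absurd this (by decide))
  have hdis : ∀ A : Finset V, Disjoint (A.map ι1) fr := by
    intro A
    rw [disjoint_left]
    intro v hv hv'
    rw [mem_map] at hv
    obtain ⟨a, _, rfl⟩ := hv
    change Sum.inl a ∈ fr at hv'
    simp [fr] at hv'
  have hH1 : ∀ E ∈ H1, #E = 4 := by
    intro E hE
    rw [mem_image] at hE
    obtain ⟨E, hE, rfl⟩ := hE
    rw [card_map]; exact hH E hE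
  have hD : ∀ g : Finset V, #g = 2 → #(g.map ι1 ∪ fr) = 4 := by
    intro g hg
    rw [card_union_of_disjoint (hdis g), card_map, hg, hfr]
  have hboth : Forces κ H1 (fun c => Mono c (e.map ι1 ∪ fr) ∧ Mono c (f.map ι1 ∪ fr)) := by
    apply Forces.comp (forces_mono H1 hH1 _ (hD e he))
    intro V' _ _ ι H' hH'
    have h1 := forces_mono (κ := κ) H' hH' ((f.map ι1 ∪ fr).map ι) (by rw [card_map]; exact hD f hf)
    apply Forces.congr _ h1
    intro c'
    constructor
    · rintro ⟨x, hx⟩
      exact ⟨x, fun A hA hA2 => hx _ (map_subset_map.2 hA) (by rw [card_map]; exact hA2)⟩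
    · rintro ⟨x, hx⟩
      refine ⟨x, fun B hB hB2 => ?_⟩
      obtain ⟨A, hA, rfl⟩ := subset_map_iff.1 hB
      rw [card_map] at hB2
      exact hx A hA hB2
  obtain ⟨V2, i2, j2, ι2, H2, hu2, hs2, ha2, hb2⟩ := hboth
  refine ⟨V2, i2, j2, ι1.trans ι2, H2, hu2, ?_, ?_, ?_⟩
  · intro E hE
    rw [← map_map]
    exact hs2 _ (mem_image_of_mem _ hE)
  · intro c' hc'
    obtain ⟨⟨x, hx⟩, ⟨y, hy⟩⟩ := ha2 c' hc'
    have h1 := hx (e.map ι1) subset_union_left (by rw [card_map]; exact he)
    have h2 := hx fr subset_union_right hfr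
    have h3 := hy (f.map ι1) subset_union_left (by rw [card_map]; exact hf)
    have h4 := hy fr subset_union_right hfr
    change c' ((e.map ι1).map ι2) = x at h1
    change c' (fr.map ι2) = x at h2
    change c' ((f.map ι1).map ι2) = y at h3
    change c' (fr.map ι2) = y at h4
    rw [map_map] at h1 h3
    change c' _ = c' _
    rw [h1, h3, ← h2, ← h4]
  · intro c hc hef
    let c1 : Finset V1 → κ := fun B => if h : ∃ A : Finset V, B = A.map ι1 then c h.choose else c e
    have hc1 : ∀ A : Finset V, c1 (A.map ι1) = c A := by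
      intro A
      have h : ∃ A' : Finset V, A.map ι1 = A'.map ι1 := ⟨A, rfl⟩
      change (if h : ∃ A' : Finset V, A.map ι1 = A'.map ι1 then c h.choose else _) = _
      rw [dif_pos h]
      have := h.choose_spec
      rw [map_inj.1 this.symm]
    have hMF : MF H1 c1 := by
      intro E hE
      rw [mem_image] at hE
      obtain ⟨E, hE, rfl⟩ := hE
      rintro ⟨y, hy⟩
      apply hc E hE
      refine ⟨y, fun A hA hA2 => ?_⟩
      rw [← hc1 A]
      exact hy _ (map_subset_map.2 hA) (by rw [card_map]; exact hA2)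
    have hmono : ∀ g : Finset V, #g = 2 → c g = c e → Mono c1 (g.map ι1 ∪ fr) := by
      intro g hg2 hg
      refine ⟨c e, fun B hB hB2 => ?_⟩
      by_cases h : ∃ A : Finset V, B = A.map ι1
      · obtain ⟨A, rfl⟩ := h
        rw [hc1]
        have hAg : A ⊆ g := by
          rw [← map_subset_map (f := ι1)]
          intro v hv
          rcases mem_union.1 (hB hv) with h | h
          · exact h
          · exact absurd h (disjoint_left.1 (hdis A) hv)
        rw [card_map] at hB2
        rw [eq_of_subset_of_card_le hAg (by omega), hg]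
      · change (if h : ∃ A : Finset V, B = A.map ι1 then c h.choose else c e) = c e
        rw [dif_neg h]
    obtain ⟨c2, hc2, hc2'⟩ := hb2 c1 hMF ⟨hmono e he rfl, hmono f hf hef.symm⟩
    refine ⟨c2, hc2, fun A => ?_⟩
    rw [← map_map, hc2', hc1]

/-- forcing a finite list of equalities -/
theorem forces_list {V : Type} [Fintype V] [DecidableEq V] {κ : Type} [Fintype κ] [DecidableEq κ]
    [Nonempty κ] (H : Finset (Finset V)) (hH : ∀ E ∈ H, #E = 4)
    (L : List (Finset V × Finset V)) (hL : ∀ p ∈ L, #p.1 = 2 ∧ #p.2 = 2) :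
    Forces κ H (fun c => ∀ p ∈ L, c p.1 = c p.2) := by
  induction L with
  | nil =>
    apply Forces.congr _ (Forces.trivial hH)
    intro c
    simp
  | cons p L ih =>
    have h1 := ih (fun q hq => hL q (List.mem_cons_of_mem _ hq))
    have hp := hL p List.mem_cons_self
    apply Forces.congr (Q := fun c => (∀ p ∈ L, c p.1 = c p.2) ∧ c p.1 = c p.2)
    · intro c
      rw [List.forall_mem_cons]
      exact and_comm
    · apply Forces.comp h1
      intro V' _ _ ι H' hH'
      exact forces_eq H' hH' (p.1.map ι) (p.2.map ι) (by rw [card_map]; exact hp.1)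
        (by rw [card_map]; exact hp.2)

end Pool.Agent.Q264.PairGadget
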