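import Pool.Agent.Q264.HDRC

/-!
# Sidorenko exponents of hypergraphs: definitions and the linear bound for bounded degree
-/

open Finset Function
open scoped Classical

namespace Pool.Agent.Q264.SidExp

open Pool.Agent.Q264.HDRC

/-- a finite `r`-uniform hypergraph -/
structure RGraph (r : ℕ) where
  /-- vertices -/
  V : Type
  /-- finitely many vertices -/
  fin : Fintype V
  /-- edges -/
  edges : Finset (Finset V)
  /-- every edge has exactly `r` vertices -/
  card_edge : ∀ e ∈ edges, e.card = r

instance {r : ℕ} (F : RGraph r) : Fintype F.V := F.fin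

namespace RGraph

variable {r : ℕ}

/-- `F` is `r`-partite: the vertices can be coloured with `r` colours so that every edge contains
exactly one vertex of each colour. -/
def IsPartite (F : RGraph r) : Prop :=
  ∃ p : F.V → Fin r, ∀ e ∈ F.edges, ∀ i : Fin r, ∃! v, v ∈ e ∧ p v = i

/-- the degree of a vertex -/
noncomputable def degree (F : RGraph r) (v : F.V) : ℕ := (F.edges.filter (fun e => v ∈ e)).card

/-- the number of homomorphisms from `F` to `H` -/
noncomputable def hom (F H : RGraph r) : ℕ :=
  (univ.filter (fun φ : F.V → H.V => ∀ e ∈ F.edges, e.image φ ∈ H.edges)).card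

/-- the homomorphism density `t_F(H) = hom(F,H) / v(H)^{v(F)}` -/
noncomputable def density (F H : RGraph r) : ℝ :=
  (hom F H : ℝ) / (Fintype.card H.V : ℝ) ^ (Fintype.card F.V)

/-- the `r`-graph with `r` vertices and one edge -/
noncomputable def single (r : ℕ) : RGraph r where
  V := Fin r
  fin := inferInstance
  edges := {univ}
  card_edge := by
    intro e he
    rw [Finset.mem_singleton] at he
    rw [he, Finset.card_univ, Fintype.card_fin]

/-- the set of real numbers `s ≥ 0` for which some `r`-graph `H` (with at least one vertex)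
satisfies `t_F(H) = t_K(H)^s > 0`, where `K` is the single edge -/
def exponentSet (F : RGraph r) : Set ℝ :=
  {s | 0 ≤ s ∧ ∃ H : RGraph r, Nonempty H.V ∧
    density F H = (density (single r) H) ^ s ∧ 0 < (density (single r) H) ^ s}

/-- the Sidorenko exponent, a supremum in the extended reals -/
noncomputable def sidorenkoExponent (F : RGraph r) : EReal :=
  ⨆ s ∈ exponentSet F, ((s : ℝ) : EReal)

end RGraph

open RGraph

variable {r : ℕ}

lemma av_ind_lt_one {Ω : Type*} [Fintype Ω] (p : Ω → Prop) (ω0 : Ω) (h : ¬ p ω0) :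
    av (fun ω => ind (p ω)) < 1 := by
  have : Nonempty Ω := ⟨ω0⟩
  unfold av
  rw [div_lt_one card_pos']
  calc ∑ ω, ind (p ω) < ∑ _ω : Ω, (1 : ℝ) :=
        Finset.sum_lt_sum (fun ω _ => ind_le_one _)
          ⟨ω0, Finset.mem_univ _, by rw [ind_false h]; norm_num⟩
    _ = _ := by simp

lemma density_eq (F H : RGraph r) : density F H =
    av (fun φ : F.V → H.V => ind (∀ e ∈ F.edges, e.image φ ∈ H.edges)) := by
  rw [av_ind_eq]
  unfold density hom
  rw [Fintype.card_fun]
  push_cast
  congr!

/-- averages of powers of a system of conditions -/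
lemma av_tensor {A X : Type*} [Fintype A] [DecidableEq A] [Fintype X] (m : ℕ)
    (Q : (A → X) → Prop) :
    av (fun y : A → (Fin m → X) => ind (∀ k, Q (fun a => y a k))) =
      (av (fun x : A → X => ind (Q x))) ^ m := by
  rw [← av_ind_pow Q m, ← av_equiv (Equiv.piComm (fun (_ : A) (_ : Fin m) => X))]
  rfl

theorem exponent_le (r : ℕ) (hr : 2 ≤ r) : ∃ f : ℕ → ℕ, ∀ (Δ : ℕ) (F : RGraph r),
    F.IsPartite → (∀ v, F.degree v ≤ Δ) →
      ∀ s ∈ exponentSet F, s ≤ ((f Δ * F.edges.card : ℕ) : ℝ) := by
  have hHP := hp_all r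
  choose M hM using fun Δ => hHP Δ 0 0
  choose C hC using hM
  refine ⟨fun Δ => C Δ * r, ?_⟩
  intro Δ F hpart hdeg s hs
  obtain ⟨hs0, H, hne, hden, hpos⟩ := hs
  rcases hs0.eq_or_lt with hs00 | hspos
  · rw [← hs00]; positivity
  set d := density (single r) H with hd
  let W : (Fin r → H.V) → Prop := fun x => univ.image x ∈ H.edges
  have hdW : d = av (fun x : Fin r → H.V => ind (W x)) := by
    rw [hd, density_eq]
    have h1 : ∀ φ : Fin r → H.V, ind (∀ e ∈ (single r).edges, e.image φ ∈ H.edges) = ind (W φ) := by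
      intro φ
      apply ind_congr
      constructor
      · intro h
        exact h univ (Finset.mem_singleton_self _)
      · intro h e he
        have he' : e = (univ : Finset (Fin r)) := Finset.mem_singleton.1 he
        rw [he']
        exact h
    exact av_inst _ _ _ _ h1
  have hd0 : 0 ≤ d := by
    rw [hdW]; exact av_nonneg fun _ => ind_nonneg _
  have hdpos : 0 < d := by
    rcases hd0.eq_or_lt with h | h
    · rw [← h, Real.zero_rpow hspos.ne'] at hpos
      exact absurd hpos (lt_irrefl _)
    · exact h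
  have hd1 : d < 1 := by
    obtain ⟨x0⟩ := hne
    rw [hdW]
    apply av_ind_lt_one _ (fun _ => x0)
    intro hW
    have h1 := H.card_edge _ hW
    have h2 : (univ.image (fun _ : Fin r => x0)).card ≤ 1 := by
      apply (Finset.card_le_card (t := {x0}) _).trans (by simp)
      intro y hy
      obtain ⟨_, _, rfl⟩ := Finset.mem_image.1 hy
      simp
    omega
  -- the partition and the edges as maps
  obtain ⟨p, hp⟩ := hpart
  let π : F.V → ℕ := fun v => if (∃ e ∈ F.edges, v ∈ e) then (p v : ℕ) else r
  have hch : ∀ (t : {e // e ∈ F.edges}) (i : Fin r), ∃ v, v ∈ t.1 ∧ p v = i :=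
    fun t i => (hp t.1 t.2 i).exists
  choose e he1 he2 using hch
  have he3 : ∀ (t : {e // e ∈ F.edges}) (v : F.V), v ∈ t.1 → e t (p v) = v := by
    intro t v hv
    exact (hp t.1 t.2 (p v)).unique ⟨he1 t (p v), he2 t (p v)⟩ ⟨hv, rfl⟩
  have hdF : density F H = av (fun x : F.V → H.V =>
      ind (∀ t : {e // e ∈ F.edges}, W (fun i => x (e t i)))) := by
    rw [density_eq]
    congr 1
    funext φ
    apply ind_congr
    have him : ∀ t : {e // e ∈ F.edges}, t.1.image φ = univ.image (fun i => φ (e t i)) := by
      intro t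
      ext y
      simp only [Finset.mem_image, Finset.mem_univ, true_and]
      constructor
      · rintro ⟨v, hv, rfl⟩
        exact ⟨p v, by rw [he3 t v hv]⟩
      · rintro ⟨i, rfl⟩
        exact ⟨e t i, he1 t i, rfl⟩
    constructor
    · intro h t
      show univ.image (fun i => φ (e t i)) ∈ H.edges
      rw [← him t]
      exact h t.1 t.2
    · intro h t ht
      have h1 : univ.image (fun i => φ (e ⟨t, ht⟩ i)) ∈ H.edges := h ⟨t, ht⟩
      rw [← him ⟨t, ht⟩] at h1
      exact h1
  -- tensor power
  obtain ⟨m, hm⟩ := exists_pow_lt_of_lt_one (show (0 : ℝ) < 1 / 2 by norm_num) hd1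
  have hm0 : 0 < m := by
    rcases Nat.eq_zero_or_pos m with h | h
    · rw [h, pow_zero] at hm; norm_num at hm
    · exact h
  have : Nonempty (Fin m → H.V) := ⟨fun _ => hne.some⟩
  have key := hC Δ (Fin m → H.V) F.V {e // e ∈ F.edges} Empty π e (fun j => j.elim)
    (fun j => j.elim) (fun y => ∀ k, W (fun i => y i k)) (d ^ m) (by positivity) hm.le
    (by
      intro t i
      simp only [π]
      rw [if_pos ⟨t.1, t.2, he1 t i⟩, he2])
    (by
      intro v
      refine le_trans ?_ (hdeg v)
      unfold degree
      apply Finset.card_le_card_of_injOn (fun t => t.1)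
      · intro t ht
        simp only [Finset.coe_filter, Finset.mem_univ, true_and, Set.mem_ofPred_eq] at ht ⊢
        obtain ⟨i, hi⟩ := ht
        refine ⟨t.2, ?_⟩
        rw [← hi]; exact he1 t i
      · intro t _ t' _ htt
        exact Subtype.ext htt)
    (fun j => j.elim) (fun v => by simp) (fun j => j.elim) (fun j => j.elim)
    (by
      rw [av_tensor m W, ← hdW])
    (fun j => j.elim)
  have hcount : (univ.filter (fun v => π v < r)).card ≤ r * F.edges.card := by
    calc (univ.filter (fun v => π v < r)).card ≤ (F.edges.biUnion id).card := by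
          apply Finset.card_le_card
          intro v hv
          simp only [Finset.mem_filter, Finset.mem_univ, true_and, π] at hv
          rw [Finset.mem_biUnion]
          by_contra hcon
          rw [if_neg] at hv
          · exact absurd hv (lt_irrefl _)
          · rintro ⟨e, h1, h2⟩
            exact hcon ⟨e, h1, h2⟩
      _ ≤ ∑ e ∈ F.edges, (id e).card := Finset.card_biUnion_le
      _ = ∑ _e ∈ F.edges, r := Finset.sum_congr rfl fun e he => F.card_edge e he
      _ = r * F.edges.card := by rw [Finset.sum_const, smul_eq_mul, mul_comm]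
  set n := (univ.filter (fun v => π v < r)).card with hn
  have h2 : av (fun y : F.V → (Fin m → H.V) =>
      ind ((∀ t : {e // e ∈ F.edges}, (fun y : Fin r → (Fin m → H.V) =>
        ∀ k, W (fun i => y i k)) (fun i => y (e t i))) ∧ ∀ j : Empty, ¬ (fun j : Empty =>
          (j.elim : (F.V → (Fin m → H.V)) → Prop)) j y)) = (density F H) ^ m := by
    rw [hdF, ← av_tensor m (fun x : F.V → H.V =>
      ∀ t : {e // e ∈ F.edges}, W (fun i => x (e t i)))]
    congr 1
    funext y
    apply ind_congr
    constructor
    · rintro ⟨h, _⟩ k t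
      exact h t k
    · intro h
      exact ⟨fun t k => h k t, fun j => j.elim⟩
  have h3 : (d ^ m) ^ (C Δ * n) ≤ (density F H) ^ m := by
    rw [← h2]
    exact key
  rw [hden] at h3
  have h4 : d ^ ((m * (C Δ * n) : ℕ) : ℝ) ≤ d ^ (s * m) := by
    rw [Real.rpow_natCast, pow_mul, Real.rpow_mul hd0, Real.rpow_natCast]
    exact h3
  rw [Real.rpow_le_rpow_left_iff_of_base_lt_one hdpos hd1] at h4
  have hm0' : (0 : ℝ) < m := by exact_mod_cast hm0
  have h5 : s ≤ ((C Δ * n : ℕ) : ℝ) := by
    push_cast at h4 ⊢
    have : s * m ≤ (C Δ * n) * m := by linarith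
    exact le_of_mul_le_mul_right this hm0'
  refine h5.trans ?_
  have h6 : C Δ * n ≤ C Δ * r * F.edges.card := by
    rw [mul_assoc]
    exact Nat.mul_le_mul_left _ hcount
  exact_mod_cast h6

theorem sidorenkoExponent_le (r : ℕ) (hr : 2 ≤ r) : ∃ f : ℕ → ℕ, ∀ (Δ : ℕ) (F : RGraph r),
    F.IsPartite → (∀ v, F.degree v ≤ Δ) →
      F.sidorenkoExponent ≤ (((f Δ * F.edges.card : ℕ) : ℝ) : EReal) := by
  obtain ⟨f, hf⟩ := exponent_le r hr
  refine ⟨f, fun Δ F h1 h2 => ?_⟩
  unfold sidorenkoExponent
  refine iSup₂_le fun s hs => ?_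
  exact EReal.coe_le_coe_iff.2 (hf Δ F h1 h2 s hs)

end Pool.Agent.Q264.SidExp
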