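import Mathlib
set_option autoImplicit false
set_option linter.unusedSectionVars false
open Finset

/-! Weakly spreading linear triple systems have at least `(1+ε) n` triples (MP_9978f8_co). -/

namespace Pool.Agent.Q264.WSpread

variable {V : Type*} [Fintype V] [DecidableEq V]

/-- `F` is a linear triple system: a family of 3-sets, any two distinct ones sharing at most one
vertex. -/
def IsLinearTripleSystem (F : Finset (Finset V)) : Prop :=
  (∀ A ∈ F, #A = 3) ∧ ∀ A ∈ F, ∀ B ∈ F, A ≠ B → #(A ∩ B) ≤ 1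

/-- The neighbourhood `N(V')`: the vertices `z ∉ V'` such that `{x, y, z} ∈ F` for some distinct
`x, y ∈ V'`. -/
def nbhd (F : Finset (Finset V)) (W : Finset V) : Finset V :=
  univ.filter (fun z => z ∉ W ∧ ∃ x ∈ W, ∃ y ∈ W, x ≠ y ∧ ({x, y, z} : Finset V) ∈ F)

/-- The closure `cl(V')`: the intersection of all `W ⊇ V'` with `N(W) = ∅`. -/
def cl (F : Finset (Finset V)) (U : Finset V) : Finset V :=
  univ.filter (fun v => ∀ W : Finset V, U ⊆ W → nbhd F W = ∅ → v ∈ W)

/-- `F` is weakly spreading: the closure of the union of any at least two triples is everything. -/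
def IsWeaklySpreading (F : Finset (Finset V)) : Prop :=
  ∀ F' ⊆ F, 2 ≤ #F' → cl F (F'.biUnion id) = univ

/-- the triples through a vertex -/
def thr (F : Finset (Finset V)) (v : V) : Finset (Finset V) := F.filter (fun A => v ∈ A)

/-- degree -/
def dg (F : Finset (Finset V)) (v : V) : ℕ := #(thr F v)

lemma mem_thr {F : Finset (Finset V)} {v : V} {A : Finset V} : A ∈ thr F v ↔ A ∈ F ∧ v ∈ A := by
  simp [thr]

variable {F : Finset (Finset V)}

lemma lin (hF : IsLinearTripleSystem F) {A C : Finset V} (hA : A ∈ F) (hC : C ∈ F) {x y : V}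
    (hxy : x ≠ y) (hxA : x ∈ A) (hyA : y ∈ A) (hxC : x ∈ C) (hyC : y ∈ C) : A = C := by
  by_contra h
  have h1 := hF.2 A hA C hC h
  rw [card_le_one] at h1
  exact hxy (h1 x (mem_inter.2 ⟨hxA, hxC⟩) y (mem_inter.2 ⟨hyA, hyC⟩))

lemma sum_dg (hF : IsLinearTripleSystem F) : ∑ v, dg F v = 3 * #F := by
  unfold dg thr
  simp_rw [card_filter]
  rw [sum_comm, sum_congr rfl (g := fun _ => 3)]
  · simp [mul_comm]
  · intro A hA
    rw [← card_filter, ← hF.1 A hA]
    congr 1
    ext; simp

/-- the closure condition for pairs -/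
lemma kp (hW : IsWeaklySpreading F) {A B : Finset V} (hA : A ∈ F) (hB : B ∈ F) (hAB : A ≠ B)
    {W : Finset V} (hAW : A ⊆ W) (hBW : B ⊆ W) (hn : #W < Fintype.card V) :
    ∃ z, z ∉ W ∧ ∃ x ∈ W, ∃ y ∈ W, x ≠ y ∧ ({x, y, z} : Finset V) ∈ F := by
  have h1 := hW {A, B} (by
    intro C hC
    rw [mem_insert, mem_singleton] at hC
    rcases hC with rfl | rfl <;> assumption) (by rw [card_pair hAB])
  have hsub : ({A, B} : Finset (Finset V)).biUnion id ⊆ W := by
    intro v hv
    rw [mem_biUnion] at hv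
    obtain ⟨C, hC, hv⟩ := hv
    rw [mem_insert, mem_singleton] at hC
    rcases hC with rfl | rfl
    · exact hAW hv
    · exact hBW hv
  by_contra hcon
  have hN : nbhd F W = ∅ := by
    rw [eq_empty_iff_forall_notMem]
    intro z hz
    unfold nbhd at hz
    rw [mem_filter] at hz
    exact hcon ⟨z, hz.2⟩
  have hWu : W = univ := by
    rw [eq_univ_iff_forall]
    intro v
    have hv : v ∈ cl F (({A, B} : Finset (Finset V)).biUnion id) := by rw [h1]; exact mem_univ v
    unfold cl at hv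
    rw [mem_filter] at hv
    exact hv.2 W hsub hN
  rw [hWu, card_univ] at hn
  exact lt_irrefl _ hn

/-- every vertex is in a triple -/
lemma dg_pos (hW : IsWeaklySpreading F) (h2 : 2 ≤ #F) (v : V) : 1 ≤ dg F v := by
  by_contra h
  have h0 : thr F v = ∅ := by
    have : #(thr F v) = 0 := by unfold dg at h; omega
    rwa [card_eq_zero] at this
  obtain ⟨A, hA, B, hB, hAB⟩ := one_lt_card.1 (by omega : 1 < #F)
  have hnot : ∀ C ∈ F, v ∉ C := by
    intro C hC hv
    have : C ∈ thr F v := mem_thr.2 ⟨hC, hv⟩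
    rw [h0] at this
    exact absurd this (notMem_empty _)
  obtain ⟨z, hz, x, hx, y, hy, hxy, hC⟩ := kp hW hA hB hAB (W := univ.erase v)
    (fun a ha => mem_erase.2 ⟨fun h => hnot A hA (h ▸ ha), mem_univ _⟩)
    (fun a ha => mem_erase.2 ⟨fun h => hnot B hB (h ▸ ha), mem_univ _⟩)
    (by rw [card_erase_of_mem (mem_univ _), card_univ]
        have : 0 < Fintype.card V := Fintype.card_pos_iff.2 ⟨v⟩
        omega)
  have : z = v := by
    by_contra hzv
    exact hz (mem_erase.2 ⟨hzv, mem_univ _⟩)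
  apply hnot _ hC
  rw [this]
  simp

lemma card_union_le' {A B : Finset V} (hF : IsLinearTripleSystem F) (hA : A ∈ F) (hB : B ∈ F) :
    #(A ∪ B) ≤ 6 := by
  have := card_union_le A B
  rw [hF.1 A hA, hF.1 B hB] at this
  exact this

/-- a cross pair -/
lemma cross (hF : IsLinearTripleSystem F) {A B : Finset V} (hA : A ∈ F) (hB : B ∈ F)
    {x y z : V} (hx : x ∈ A ∪ B) (hy : y ∈ A ∪ B) (hz : z ∉ A ∪ B) (hxy : x ≠ y)
    (hC : ({x, y, z} : Finset V) ∈ F) :
    (x ∈ A ∧ x ∉ B ∧ y ∈ B ∧ y ∉ A) ∨ (x ∈ B ∧ x ∉ A ∧ y ∈ A ∧ y ∉ B) := by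
  have hnA : ¬ (x ∈ A ∧ y ∈ A) := by
    rintro ⟨h1, h2⟩
    have := lin hF hA hC hxy h1 h2 (by simp) (by simp)
    apply hz
    rw [this]; simp
  have hnB : ¬ (x ∈ B ∧ y ∈ B) := by
    rintro ⟨h1, h2⟩
    have := lin hF hB hC hxy h1 h2 (by simp) (by simp)
    apply hz
    rw [this]; simp
  rw [mem_union] at hx hy
  tauto

/-- for two triples there is a connecting triple -/
lemma exists_cross (hF : IsLinearTripleSystem F) (hW : IsWeaklySpreading F)
    (hn : 7 ≤ Fintype.card V) {A B : Finset V} (hA : A ∈ F) (hB : B ∈ F) (hAB : A ≠ B) :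
    ∃ x ∈ A, ∃ y ∈ B, x ∉ B ∧ y ∉ A ∧ x ≠ y ∧ ∃ z, z ∉ A ∪ B ∧ ({x, y, z} : Finset V) ∈ F := by
  have h6 := card_union_le' hF hA hB
  obtain ⟨z, hz, x, hx, y, hy, hxy, hC⟩ := kp hW hA hB hAB (W := A ∪ B) subset_union_left
    subset_union_right (by omega)
  rcases cross hF hA hB hx hy hz hxy hC with h | h
  · exact ⟨x, h.1, y, h.2.2.1, h.2.1, h.2.2.2, hxy, z, hz, hC⟩
  · refine ⟨y, h.2.2.1, x, h.1, h.2.2.2, h.2.1, hxy.symm, z, hz, ?_⟩
    have : ({y, x, z} : Finset V) = {x, y, z} := by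
      ext a; simp only [mem_insert, mem_singleton]; tauto
    rw [this]; exact hC

/-- degree bound -/
lemma dg_sq_le (hF : IsLinearTripleSystem F) (hW : IsWeaklySpreading F)
    (hn : 7 ≤ Fintype.card V) (v : V) : dg F v * dg F v ≤ 9 * #F := by
  classical
  have hd : dg F v ≤ #F := card_le_card (filter_subset _ _)
  -- pairs of triples through `v` inject into covered ordered pairs
  have h1 : #((thr F v).offDiag) ≤ #(F.biUnion (fun C => C.offDiag)) := by
    have hex : ∀ p ∈ (thr F v).offDiag, ∃ q : V × V, q.1 ∈ p.1 ∧ q.2 ∈ p.2 ∧ q.1 ≠ v ∧ q.2 ≠ v ∧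
        q ∈ F.biUnion (fun C => C.offDiag) := by
      rintro ⟨A, B⟩ hp
      rw [mem_offDiag, mem_thr, mem_thr] at hp
      obtain ⟨⟨hA, hvA⟩, ⟨hB, hvB⟩, hAB⟩ := hp
      obtain ⟨x, hx, y, hy, hxB, hyA, hxy, z, hz, hC⟩ := exists_cross hF hW hn hA hB hAB
      refine ⟨(x, y), hx, hy, ?_, ?_, ?_⟩
      · intro h; simp only at h; rw [h] at hxB; exact hxB hvB
      · intro h; simp only at h; rw [h] at hyA; exact hyA hvA
      · rw [mem_biUnion]
        exact ⟨_, hC, by rw [mem_offDiag]; simp [hxy]⟩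
    have : Nonempty (V × V) := ⟨(v, v)⟩
    choose! q hq using hex
    apply card_le_card_of_injOn q
    · intro p hp
      exact (hq p hp).2.2.2.2
    · intro p hp p' hp' hpp'
      have h2 := hq p hp
      have h3 := hq p' hp'
      rw [mem_coe, mem_offDiag, mem_thr, mem_thr] at hp hp'
      rw [← hpp'] at h3
      apply Prod.ext
      · exact lin hF hp.1.1 hp'.1.1 h2.2.2.1 h2.1 hp.1.2 h3.1 hp'.1.2
      · exact lin hF hp.2.1.1 hp'.2.1.1 h2.2.2.2.1 h2.2.1 hp.2.1.2 h3.2.1 hp'.2.1.2
  have h2 : #(F.biUnion (fun C => C.offDiag)) ≤ ∑ C ∈ F, #C.offDiag := card_biUnion_le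
  have h3 : ∑ C ∈ F, #C.offDiag = 6 * #F := by
    rw [sum_congr rfl (g := fun _ => 6)]
    · simp [mul_comm]
    · intro C hC
      rw [offDiag_card, hF.1 C hC]
  rw [offDiag_card] at h1
  have h4 : #(thr F v) = dg F v := rfl
  rw [h4] at h1
  have h5 : dg F v * dg F v ≤ 6 * #F + dg F v := by omega
  omega

/-- the set of vertices of small degree -/
noncomputable def low (F : Finset (Finset V)) (k : ℝ) : Finset V := univ.filter (fun v => (dg F v : ℝ) < k)

lemma mem_low {k : ℝ} {v : V} : v ∈ low F k ↔ (dg F v : ℝ) < k := by simp [low]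

/-- first kind of pair -/
def S1 (F : Finset (Finset V)) (N : Finset V) : Finset (Finset V × Finset V) :=
  N.biUnion (fun a => (thr F a).biUnion (fun C => C.biUnion (fun b => thr F a ×ˢ thr F b)))

/-- second kind of pair -/
def S2 (F : Finset (Finset V)) (N : Finset V) : Finset (Finset V × Finset V) :=
  N.biUnion (fun x => (thr F x).biUnion (fun A => A.biUnion (fun h => (thr F x).biUnion (fun C =>
    C.biUnion (fun z => ((thr F h ∩ thr F z).filter (fun _ => h ≠ z)).biUnion (fun C' =>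
      C'.biUnion (fun h' => {A} ×ˢ thr F h')))))))

lemma card_S1 (hF : IsLinearTripleSystem F) (N : Finset V) (D : ℕ) (hD : ∀ v, dg F v ≤ D) :
    #(S1 F N) ≤ 3 * D * ∑ a ∈ N, dg F a * dg F a := by
  unfold S1
  calc _ ≤ ∑ a ∈ N, ∑ C ∈ thr F a, ∑ b ∈ C, #(thr F a ×ˢ thr F b) := by
        refine card_biUnion_le.trans (sum_le_sum fun a _ => card_biUnion_le.trans
          (sum_le_sum fun C _ => card_biUnion_le))
    _ ≤ ∑ a ∈ N, ∑ C ∈ thr F a, 3 * (dg F a * D) := by
        refine sum_le_sum fun a _ => sum_le_sum fun C hC => ?_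
        rw [← hF.1 C (mem_thr.1 hC).1, ← smul_eq_mul (#C), ← sum_const]
        refine sum_le_sum fun b _ => ?_
        rw [card_product]
        exact Nat.mul_le_mul le_rfl (hD b)
    _ = 3 * D * ∑ a ∈ N, dg F a * dg F a := by
        rw [mul_sum]
        apply sum_congr rfl
        intro a _
        rw [sum_const, smul_eq_mul]
        change dg F a * _ = _
        ring

lemma card_inter_thr (hF : IsLinearTripleSystem F) (h z : V) :
    #((thr F h ∩ thr F z).filter (fun _ => h ≠ z)) ≤ 1 := by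
  rw [card_le_one]
  intro A hA B hB
  rw [mem_filter, mem_inter, mem_thr, mem_thr] at hA hB
  exact lin hF hA.1.1.1 hB.1.1.1 hA.2 hA.1.1.2 hA.1.2.2 hB.1.1.2 hB.1.2.2

lemma card_S2 (hF : IsLinearTripleSystem F) (N : Finset V) (D : ℕ) (hD : ∀ v, dg F v ≤ D) :
    #(S2 F N) ≤ 27 * D * ∑ a ∈ N, dg F a * dg F a := by
  unfold S2
  calc _ ≤ ∑ x ∈ N, ∑ A ∈ thr F x, ∑ h ∈ A, ∑ C ∈ thr F x, ∑ z ∈ C,
        ∑ C' ∈ (thr F h ∩ thr F z).filter (fun _ => h ≠ z), ∑ h' ∈ C',
          #(({A} : Finset (Finset V)) ×ˢ thr F h') := by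
        refine card_biUnion_le.trans (sum_le_sum fun x _ => card_biUnion_le.trans
          (sum_le_sum fun A _ => card_biUnion_le.trans (sum_le_sum fun h _ =>
            card_biUnion_le.trans (sum_le_sum fun C _ => card_biUnion_le.trans
              (sum_le_sum fun z _ => card_biUnion_le.trans (sum_le_sum fun C' _ =>
                card_biUnion_le))))))
    _ ≤ ∑ x ∈ N, ∑ A ∈ thr F x, ∑ h ∈ A, ∑ C ∈ thr F x, ∑ z ∈ C, 3 * D := by
        refine sum_le_sum fun x _ => sum_le_sum fun A _ => sum_le_sum fun h _ =>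
          sum_le_sum fun C _ => sum_le_sum fun z _ => ?_
        have h1 : ∀ C' ∈ (thr F h ∩ thr F z).filter (fun _ => h ≠ z),
            ∑ h' ∈ C', #(({A} : Finset (Finset V)) ×ˢ thr F h') ≤ 3 * D := by
          intro C' hC'
          rw [mem_filter, mem_inter, mem_thr] at hC'
          rw [← hF.1 C' hC'.1.1.1, ← smul_eq_mul (#C'), ← sum_const]
          refine sum_le_sum fun h' _ => ?_
          rw [card_product, card_singleton, one_mul]
          exact hD h'
        refine (sum_le_sum h1).trans ?_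
        rw [sum_const, smul_eq_mul]
        calc _ ≤ 1 * (3 * D) := Nat.mul_le_mul (card_inter_thr hF h z) le_rfl
          _ = 3 * D := one_mul _
    _ = ∑ x ∈ N, dg F x * (3 * (dg F x * (3 * (3 * D)))) := by
        apply sum_congr rfl
        intro x _
        have e1 : ∀ C ∈ thr F x, ∑ z ∈ C, 3 * D = 3 * (3 * D) := by
          intro C hC
          rw [sum_const, smul_eq_mul, hF.1 C (mem_thr.1 hC).1]
        have e2 : ∀ A ∈ thr F x, ∑ h ∈ A, ∑ C ∈ thr F x, ∑ z ∈ C, 3 * D =
            3 * (dg F x * (3 * (3 * D))) := by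
          intro A hA
          rw [sum_const, smul_eq_mul, hF.1 A (mem_thr.1 hA).1, sum_congr rfl e1, sum_const,
            smul_eq_mul]
          rfl
        rw [sum_congr rfl e2, sum_const, smul_eq_mul]
        rfl
    _ = 27 * D * ∑ a ∈ N, dg F a * dg F a := by
        rw [mul_sum]
        apply sum_congr rfl
        intro a _
        ring

lemma mem_S1 {N : Finset V} {A B C : Finset V} {a b : V} (ha : a ∈ N) (hA : A ∈ F) (haA : a ∈ A)
    (hC : C ∈ F) (haC : a ∈ C) (hbC : b ∈ C) (hB : B ∈ F) (hbB : b ∈ B) : (A, B) ∈ S1 F N := by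
  unfold S1
  rw [mem_biUnion]
  refine ⟨a, ha, ?_⟩
  rw [mem_biUnion]
  refine ⟨C, mem_thr.2 ⟨hC, haC⟩, ?_⟩
  rw [mem_biUnion]
  exact ⟨b, hbC, mem_product.2 ⟨mem_thr.2 ⟨hA, haA⟩, mem_thr.2 ⟨hB, hbB⟩⟩⟩

lemma mem_S2 {N : Finset V} {A B C C' : Finset V} {x h z h' : V} (hx : x ∈ N) (hA : A ∈ F)
    (hxA : x ∈ A) (hhA : h ∈ A) (hC : C ∈ F) (hxC : x ∈ C) (hzC : z ∈ C) (hhz : h ≠ z)
    (hC' : C' ∈ F) (hhC' : h ∈ C') (hzC' : z ∈ C') (hh'C' : h' ∈ C') (hB : B ∈ F) (hh'B : h' ∈ B) :
    (A, B) ∈ S2 F N := by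
  unfold S2
  rw [mem_biUnion]
  refine ⟨x, hx, ?_⟩
  rw [mem_biUnion]
  refine ⟨A, mem_thr.2 ⟨hA, hxA⟩, ?_⟩
  rw [mem_biUnion]
  refine ⟨h, hhA, ?_⟩
  rw [mem_biUnion]
  refine ⟨C, mem_thr.2 ⟨hC, hxC⟩, ?_⟩
  rw [mem_biUnion]
  refine ⟨z, hzC, ?_⟩
  rw [mem_biUnion]
  refine ⟨C', mem_filter.2 ⟨mem_inter.2 ⟨mem_thr.2 ⟨hC', hhC'⟩, mem_thr.2 ⟨hC', hzC'⟩⟩, hhz⟩, ?_⟩
  rw [mem_biUnion]
  exact ⟨h', hh'C', mem_product.2 ⟨mem_singleton_self _, mem_thr.2 ⟨hB, hh'B⟩⟩⟩

/-- triples with at most one vertex outside `N` (at most one hub) -/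
def Lf (F : Finset (Finset V)) (N : Finset V) : Finset (Finset V) :=
  F.filter (fun A => #(A \ N) ≤ 1)

lemma Lf_pairs (hF : IsLinearTripleSystem F) (hW : IsWeaklySpreading F)
    (hn : 8 ≤ Fintype.card V) (N : Finset V) :
    (Lf F N).offDiag ⊆ ((S1 F N ∪ (S1 F N).image Prod.swap) ∪
      (S2 F N ∪ (S2 F N).image Prod.swap)) := by
  rintro ⟨A, B⟩ hp
  rw [mem_offDiag] at hp
  obtain ⟨hA, hB, hAB⟩ := hp
  simp only at hA hB hAB
  unfold Lf at hA hB
  rw [mem_filter] at hA hB
  by_contra hcon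
  have c1 : (A, B) ∉ S1 F N := fun h => hcon (by simp [h])
  have c2 : (B, A) ∉ S1 F N := fun h => hcon (by
    rw [mem_union, mem_union]
    exact Or.inl (Or.inr (mem_image.2 ⟨(B, A), h, rfl⟩)))
  have c3 : (A, B) ∉ S2 F N := fun h => hcon (by simp [h])
  have c4 : (B, A) ∉ S2 F N := fun h => hcon (by
    rw [mem_union, mem_union, mem_union]
    exact Or.inr (Or.inr (mem_image.2 ⟨(B, A), h, rfl⟩)))
  -- cross pairs are pairs of hubs
  have hub1 : ∀ a ∈ A, ∀ b ∈ B, ∀ C ∈ F, a ∈ C → b ∈ C → a ∉ N ∧ b ∉ N := by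
    intro a ha b hb C hC haC hbC
    refine ⟨fun h => c1 (mem_S1 h hA.1 ha hC haC hbC hB.1 hb),
      fun h => c2 (mem_S1 h hB.1 hb hC hbC haC hA.1 ha)⟩
  obtain ⟨h, hh, h', hh', hhB, hh'A, hne, z, hz, hC⟩ := exists_cross hF hW (by omega) hA.1 hB.1 hAB
  have hN := hub1 h hh h' hh' _ hC (by simp) (by simp)
  have hA1 : ∀ a ∈ A, a ∉ N → a = h := by
    intro a ha haN
    have h1 := hA.2
    rw [card_le_one] at h1
    exact h1 a (mem_sdiff.2 ⟨ha, haN⟩) h (mem_sdiff.2 ⟨hh, hN.1⟩)
  have hB1 : ∀ b ∈ B, b ∉ N → b = h' := by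
    intro b hb hbN
    have h1 := hB.2
    rw [card_le_one] at h1
    exact h1 b (mem_sdiff.2 ⟨hb, hbN⟩) h' (mem_sdiff.2 ⟨hh', hN.2⟩)
  -- next closure step
  have h6 := card_union_le' hF hA.1 hB.1
  have h7 : #(insert z (A ∪ B)) < Fintype.card V := by
    have := card_insert_le z (A ∪ B)
    omega
  obtain ⟨w, hw, p, hp, q, hq, hpq, hC2⟩ := kp hW hA.1 hB.1 hAB (W := insert z (A ∪ B))
    (fun a ha => mem_insert_of_mem (mem_union_left _ ha))
    (fun a ha => mem_insert_of_mem (mem_union_right _ ha)) h7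
  have hwAB : w ∉ A ∪ B := fun h => hw (mem_insert_of_mem h)
  have hwz : w ≠ z := fun h => hw (h ▸ mem_insert_self _ _)
  have hzA : z ∉ A := fun h => hz (mem_union_left _ h)
  have hzB : z ∉ B := fun h => hz (mem_union_right _ h)
  -- `z` is one of `p, q`: otherwise contradiction
  have hzq : ∀ q ∈ A ∪ B, ({z, q, w} : Finset V) ∈ F → False := by
    intro q hq hC3
    have hqz : q ≠ z := fun h => hz (h ▸ hq)
    rw [mem_union] at hq
    rcases hq with hqA | hqB
    · have hqh : q ≠ h := by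
        intro he
        subst he
        have := lin hF hC hC3 hqz (by simp) (by simp) (by simp) (by simp)
        have hw' : w ∈ ({q, h', z} : Finset V) := by rw [this]; simp
        simp only [mem_insert, mem_singleton] at hw'
        rcases hw' with rfl | rfl | rfl
        · exact hwAB (mem_union_left _ hh)
        · exact hwAB (mem_union_right _ hh')
        · exact hwz rfl
      have hqN : q ∈ N := by
        by_contra hqN
        exact hqh (hA1 q hqA hqN)
      exact c3 (mem_S2 (x := q) (h := h) (z := z) (h' := h') hqN hA.1 hqA hh hC3 (by simp) (by simp)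
        (fun e => hzA (e ▸ hh)) hC (by simp) (by simp) (by simp) hB.1 hh')
    · have hqh : q ≠ h' := by
        intro he
        subst he
        have := lin hF hC hC3 hqz (by simp) (by simp) (by simp) (by simp)
        have hw' : w ∈ ({h, q, z} : Finset V) := by rw [this]; simp
        simp only [mem_insert, mem_singleton] at hw'
        rcases hw' with rfl | rfl | rfl
        · exact hwAB (mem_union_left _ hh)
        · exact hwAB (mem_union_right _ hh')
        · exact hwz rfl
      have hqN : q ∈ N := by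
        by_contra hqN
        exact hqh (hB1 q hqB hqN)
      exact c4 (mem_S2 (x := q) (h := h') (z := z) (h' := h) hqN hB.1 hqB hh' hC3 (by simp) (by simp)
        (fun e => hzB (e ▸ hh')) hC (by simp) (by simp) (by simp) hA.1 hh)
  rw [mem_insert] at hp hq
  rcases hp with rfl | hp
  · rcases hq with rfl | hq
    · exact hpq rfl
    · exact hzq q hq hC2
  · rcases hq with rfl | hq
    · apply hzq p hp
      have : ({q, p, w} : Finset V) = {p, q, w} := by
        ext a; simp only [mem_insert, mem_singleton]; tauto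
      rw [this]; exact hC2
    · -- both in A ∪ B
      have hpair : ∀ p ∈ A, ∀ q ∈ B, p ≠ q → p ∈ ({p, q, w} : Finset V) → ({p, q, w} : Finset V) ∈ F → False := by
        intro p hp q hq hpq _ hC4
        have h8 := hub1 p hp q hq _ hC4 (by simp) (by simp)
        have hp' := hA1 p hp h8.1
        have hq' := hB1 q hq h8.2
        subst hp' hq'
        have := lin hF hC hC4 hpq (by simp) (by simp) (by simp) (by simp)
        have hw' : w ∈ ({p, q, z} : Finset V) := by rw [this]; simp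
        simp only [mem_insert, mem_singleton] at hw'
        rcases hw' with rfl | rfl | rfl
        · exact hwAB (mem_union_left _ hh)
        · exact hwAB (mem_union_right _ hh')
        · exact hwz rfl
      rcases cross hF hA.1 hB.1 hp hq hwAB hpq hC2 with h9 | h9
      · exact hpair p h9.1 q h9.2.2.1 hpq (by simp) hC2
      · apply hpair q h9.2.2.1 p h9.1 hpq.symm (by simp)
        have : ({q, p, w} : Finset V) = {p, q, w} := by
          ext a; simp only [mem_insert, mem_singleton]; tauto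
        rw [this]; exact hC2

/-- the vertices of degree one -/
def pend (F : Finset (Finset V)) : Finset V := univ.filter (fun v => dg F v = 1)

/-- the triples with a vertex of degree one -/
def good (F : Finset (Finset V)) : Finset (Finset V) := F.filter (fun A => (A ∩ pend F).Nonempty)

/-- the other triples -/
def bad (F : Finset (Finset V)) : Finset (Finset V) := F.filter (fun A => ¬ (A ∩ pend F).Nonempty)

lemma mem_pend {v : V} : v ∈ pend F ↔ dg F v = 1 := by simp [pend]

lemma pend_unique {v : V} (hv : v ∈ pend F) {A B : Finset V} (hA : A ∈ F) (hB : B ∈ F)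
    (hvA : v ∈ A) (hvB : v ∈ B) : A = B := by
  rw [mem_pend] at hv
  have h : #(thr F v) ≤ 1 := hv.le
  rw [card_le_one] at h
  exact h A (mem_thr.2 ⟨hA, hvA⟩) B (mem_thr.2 ⟨hB, hvB⟩)

/-- third points of a pair -/
def thirds (F : Finset (Finset V)) (x y : V) : Finset V :=
  univ.filter (fun z => z ≠ x ∧ z ≠ y ∧ ({x, y, z} : Finset V) ∈ F)

lemma card_thirds (hF : IsLinearTripleSystem F) (x y : V) : #(thirds F x y) ≤ 1 := by
  rw [card_le_one]
  intro z hz z' hz'
  unfold thirds at hz hz'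
  rw [mem_filter] at hz hz'
  by_cases hxy : x = y
  · exfalso
    have := hF.1 _ hz.2.2.2
    rw [hxy] at this
    have h2 : #({y, y, z} : Finset V) ≤ 2 := by
      rw [insert_eq_of_mem (mem_insert_self _ _)]
      exact card_le_two
    omega
  · have := lin hF hz.2.2.2 hz'.2.2.2 hxy (by simp) (by simp) (by simp) (by simp)
    have h3 : z' ∈ ({x, y, z} : Finset V) := by rw [this]; simp
    simp only [mem_insert, mem_singleton] at h3
    rcases h3 with h | h | h
    · exact absurd h hz'.2.1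
    · exact absurd h hz'.2.2.1
    · exact h.symm

/-- pairs of triples connected through a bad triple -/
def S3 (F : Finset (Finset V)) : Finset (Finset V × Finset V) :=
  (bad F).biUnion (fun C => C.biUnion (fun a => C.biUnion (fun b => thr F a ×ˢ thr F b)))

lemma card_S3 (hF : IsLinearTripleSystem F) (D : ℕ) (hD : ∀ v, dg F v ≤ D) :
    #(S3 F) ≤ #(bad F) * (9 * (D * D)) := by
  unfold S3
  calc _ ≤ ∑ C ∈ bad F, ∑ a ∈ C, ∑ b ∈ C, #(thr F a ×ˢ thr F b) := by
        refine card_biUnion_le.trans (sum_le_sum fun C _ => card_biUnion_le.trans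
          (sum_le_sum fun a _ => card_biUnion_le))
    _ ≤ ∑ C ∈ bad F, 9 * (D * D) := by
        refine sum_le_sum fun C hC => ?_
        have hC3 : #C = 3 := hF.1 C (mem_filter.1 hC).1
        calc _ ≤ ∑ a ∈ C, ∑ b ∈ C, D * D := by
              refine sum_le_sum fun a _ => sum_le_sum fun b _ => ?_
              rw [card_product]
              exact Nat.mul_le_mul (hD a) (hD b)
          _ = 9 * (D * D) := by
              rw [sum_const, sum_const, hC3, smul_eq_mul, smul_eq_mul]
              ring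
    _ = #(bad F) * (9 * (D * D)) := by rw [sum_const, smul_eq_mul]

lemma good_pairs (hF : IsLinearTripleSystem F) (hW : IsWeaklySpreading F)
    (hn : 11 ≤ Fintype.card V) : (good F).offDiag ⊆ S3 F := by
  rintro ⟨A, B⟩ hp
  rw [mem_offDiag] at hp
  obtain ⟨hA, hB, hAB⟩ := hp
  simp only at hA hB hAB
  unfold good at hA hB
  rw [mem_filter] at hA hB
  obtain ⟨a0, ha0⟩ := hA.2
  obtain ⟨b0, hb0⟩ := hB.2
  rw [mem_inter] at ha0 hb0
  by_contra hcon
  -- every connecting triple is good
  have hgood : ∀ a ∈ A, ∀ b ∈ B, ∀ C ∈ F, a ∈ C → b ∈ C → (C ∩ pend F).Nonempty := by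
    intro a ha b hb C hC haC hbC
    by_contra hnot
    apply hcon
    unfold S3
    rw [mem_biUnion]
    refine ⟨C, mem_filter.2 ⟨hC, hnot⟩, ?_⟩
    rw [mem_biUnion]
    refine ⟨a, haC, ?_⟩
    rw [mem_biUnion]
    exact ⟨b, hbC, mem_product.2 ⟨mem_thr.2 ⟨hA.1, ha⟩, mem_thr.2 ⟨hB.1, hb⟩⟩⟩
  -- third points
  set Z : Finset V := ((A.erase a0) ×ˢ (B.erase b0)).biUnion (fun p => thirds F p.1 p.2) with hZ
  have hZc : #Z ≤ 4 := by
    refine card_biUnion_le.trans ?_
    refine (sum_le_sum (fun p _ => card_thirds hF p.1 p.2)).trans ?_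
    rw [sum_const, card_product, card_erase_of_mem ha0.1, card_erase_of_mem hb0.1, hF.1 A hA.1,
      hF.1 B hB.1]
    simp
  have h6 := card_union_le' hF hA.1 hB.1
  have h10 : #((A ∪ B) ∪ Z) < Fintype.card V := by
    have := card_union_le (A ∪ B) Z
    omega
  obtain ⟨w, hw, p, hp, q, hq, hpq, hC⟩ := kp hW hA.1 hB.1 hAB (W := (A ∪ B) ∪ Z)
    (fun a ha => mem_union_left _ (mem_union_left _ ha))
    (fun a ha => mem_union_left _ (mem_union_right _ ha)) h10
  have hwAB : w ∉ A ∪ B := fun h => hw (mem_union_left _ h)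
  have hwZ : w ∉ Z := fun h => hw (mem_union_right _ h)
  -- a connecting triple with third vertex outside `A ∪ B` has the third vertex in `Z` and pendant
  have key : ∀ a ∈ A, ∀ b ∈ B, ∀ z, z ∉ A ∪ B → ({a, b, z} : Finset V) ∈ F → a ∉ pend F ∧ b ∉ pend F := by
    intro a ha b hb z hz hC'
    constructor
    · intro hap
      have := pend_unique hap hA.1 hC' ha (by simp)
      apply hz
      rw [this]; simp
    · intro hbp
      have := pend_unique hbp hB.1 hC' hb (by simp)
      apply hz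
      apply mem_union_right
      rw [this]; simp
  have key2 : ∀ a ∈ A, ∀ b ∈ B, ∀ z, z ∉ A ∪ B → ({a, b, z} : Finset V) ∈ F → z ∈ Z := by
    intro a ha b hb z hz hC'
    have h1 := key a ha b hb z hz hC'
    rw [hZ, mem_biUnion]
    refine ⟨(a, b), mem_product.2 ⟨mem_erase.2 ⟨?_, ha⟩, mem_erase.2 ⟨?_, hb⟩⟩, ?_⟩
    · intro h; simp only at h; rw [h] at h1; exact h1.1 ha0.2
    · intro h; simp only at h; rw [h] at h1; exact h1.2 hb0.2
    · unfold thirds
      rw [mem_filter]
      refine ⟨mem_univ _, ?_, ?_, hC'⟩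
      · intro h; apply hz; rw [h]; exact mem_union_left _ ha
      · intro h; apply hz; rw [h]; exact mem_union_right _ hb
  -- elements of Z not in A ∪ B are pendant with their triple inside
  have key3 : ∀ z ∈ Z, z ∉ A ∪ B → ∃ a ∈ A, ∃ b ∈ B, ({a, b, z} : Finset V) ∈ F ∧ z ∈ pend F := by
    intro z hz hzAB
    rw [hZ, mem_biUnion] at hz
    obtain ⟨⟨a, b⟩, hab, hz⟩ := hz
    rw [mem_product] at hab
    unfold thirds at hz
    rw [mem_filter] at hz
    have haA : a ∈ A := mem_of_mem_erase hab.1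
    have hbB : b ∈ B := mem_of_mem_erase hab.2
    refine ⟨a, haA, b, hbB, hz.2.2.2, ?_⟩
    obtain ⟨u, hu⟩ := hgood a haA b hbB _ hz.2.2.2 (by simp) (by simp)
    rw [mem_inter] at hu
    have h1 := key a haA b hbB z hzAB hz.2.2.2
    simp only [mem_insert, mem_singleton] at hu
    rcases hu.1 with rfl | rfl | rfl
    · exact absurd hu.2 h1.1
    · exact absurd hu.2 h1.2
    · exact hu.2
  -- no element of the new triple is in Z \ (A ∪ B)
  have hnoZ : ∀ p ∈ (A ∪ B) ∪ Z, p ∈ ({p, q, w} : Finset V) → ∀ D ∈ F, p ∈ D → w ∈ D → p ∈ A ∪ B := by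
    intro p hp _ D hD hpD hwD
    rw [mem_union] at hp
    rcases hp with h | h
    · exact h
    · by_contra hpAB
      obtain ⟨a, ha, b, hb, hE, hpp⟩ := key3 p h hpAB
      have := pend_unique hpp hD hE hpD (by simp)
      rw [this] at hwD
      simp only [mem_insert, mem_singleton] at hwD
      rcases hwD with rfl | rfl | rfl
      · exact hwAB (mem_union_left _ ha)
      · exact hwAB (mem_union_right _ hb)
      · exact hwZ h
  have hpAB : p ∈ A ∪ B := hnoZ p hp (by simp) _ hC (by simp) (by simp)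
  have hqAB : q ∈ A ∪ B := by
    rw [mem_union] at hq
    rcases hq with h | h
    · exact h
    · by_contra hqAB
      obtain ⟨a, ha, b, hb, hE, hpp⟩ := key3 q h hqAB
      have := pend_unique hpp hC hE (by simp) (by simp)
      have hwD : w ∈ ({a, b, q} : Finset V) := by rw [← this]; simp
      simp only [mem_insert, mem_singleton] at hwD
      rcases hwD with rfl | rfl | rfl
      · exact hwAB (mem_union_left _ ha)
      · exact hwAB (mem_union_right _ hb)
      · exact hwZ h
  rcases cross hF hA.1 hB.1 hpAB hqAB hwAB hpq hC with h | h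
  · exact hwZ (key2 p h.1 q h.2.2.1 w hwAB hC)
  · apply hwZ
    apply key2 q h.2.2.1 p h.1 w hwAB
    have : ({q, p, w} : Finset V) = {p, q, w} := by
      ext a; simp only [mem_insert, mem_singleton]; tauto
    rw [this]; exact hC

lemma good_add_bad : #(good F) + #(bad F) = #F := card_filter_add_card_filter_not _

lemma sum_inter (N : Finset V) : ∑ A ∈ F, #(A ∩ N) = ∑ v ∈ N, dg F v := by
  unfold dg thr
  simp_rw [card_filter]
  rw [sum_comm]
  apply sum_congr rfl
  intro A _
  rw [← card_filter]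
  congr 1
  ext v
  simp [and_comm]

/-- Counting pendants and good triples. `N` is the set of low vertices. -/
lemma count_good (hF : IsLinearTripleSystem F) (hW : IsWeaklySpreading F) (h2 : 2 ≤ #F)
    (N : Finset V) (hN : pend F ⊆ N) :
    2 * #N ≤ #F + #(good F) + 5 * #(Lf F N) := by
  have hsplit : ∀ A ∈ F, #(A \ N) + #(A ∩ N) = 3 := by
    intro A hA
    rw [card_sdiff_add_card_inter, hF.1 A hA]
  -- pendants
  have hp : #(pend F) = ∑ A ∈ F, #(A ∩ pend F) := by
    rw [sum_inter, sum_congr rfl (g := fun _ => 1) (fun v hv => mem_pend.1 hv)]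
    simp
  have hp2 : ∑ A ∈ F, #(A ∩ pend F) ≤ #(good F) + 3 * #(Lf F N) := by
    have e1 : #(good F) = ∑ A ∈ F, (if (A ∩ pend F).Nonempty then 1 else 0) := by
      unfold good; rw [card_filter]
    have e2 : #(Lf F N) = ∑ A ∈ F, (if #(A \ N) ≤ 1 then 1 else 0) := by
      unfold Lf; rw [card_filter]
    rw [e1, e2, mul_sum, ← sum_add_distrib]
    apply sum_le_sum
    intro A hA
    have h1 := hsplit A hA
    have h3 : #(A ∩ pend F) ≤ #(A ∩ N) := card_le_card (inter_subset_inter_left hN)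
    by_cases hL : #(A \ N) ≤ 1
    · rw [if_pos hL]
      split_ifs <;> omega
    · rw [if_neg hL]
      by_cases hG : (A ∩ pend F).Nonempty
      · rw [if_pos hG]; omega
      · rw [if_neg hG]
        rw [not_nonempty_iff_eq_empty] at hG
        rw [hG]; simp
  -- low degrees
  have hl : ∑ v ∈ N, dg F v ≤ #F + 2 * #(Lf F N) := by
    rw [← sum_inter]
    have e0 : #F = ∑ A ∈ F, 1 := by simp
    have e2 : #(Lf F N) = ∑ A ∈ F, (if #(A \ N) ≤ 1 then 1 else 0) := by
      unfold Lf; rw [card_filter]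
    rw [e0, e2, mul_sum, ← sum_add_distrib]
    apply sum_le_sum
    intro A hA
    have h1 := hsplit A hA
    by_cases hL : #(A \ N) ≤ 1
    · rw [if_pos hL]; omega
    · rw [if_neg hL]; omega
  have hlow : 2 * #N ≤ ∑ v ∈ N, dg F v + #(pend F) := by
    have e3 : #(pend F) = ∑ v ∈ N, (if dg F v = 1 then 1 else 0) := by
      rw [← card_filter]
      congr 1
      ext v
      rw [mem_pend, mem_filter]
      constructor
      · intro h; exact ⟨hN (mem_pend.2 h), h⟩
      · intro h; exact h.2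
    have e4 : 2 * #N = ∑ v ∈ N, 2 := by simp [mul_comm]
    rw [e3, e4, ← sum_add_distrib]
    apply sum_le_sum
    intro v _
    have := dg_pos hW h2 v
    split_ifs <;> omega
  omega

end Pool.Agent.Q264.WSpread
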