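import Mathlib

/-!
# A family of `q^m` matchings of size `t = O(mq)` without rainbow `t`-matching

Definitions for rainbow matchings in `r`-partite `r`-graphs and the wire construction.
-/

open Finset Function
open scoped Classical

namespace Pool.Agent.Q264.WireGadget

/-- with `p` the colouring of the vertices by their class, `e` has exactly one vertex in each of
the `r` classes -/
def IsPartiteEdge {V : Type} {r : ℕ} (p : V → Fin r) (e : Finset V) : Prop :=
  ∀ j : Fin r, ∃! v, v ∈ e ∧ p v = j

/-- a set of pairwise disjoint edges -/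
def IsMatching {V : Type} (M : Finset (Finset V)) : Prop :=
  ∀ e ∈ M, ∀ f ∈ M, e ≠ f → Disjoint e f

/-- the colour classes `M₁,…,M_f` have a rainbow matching of size `t`: `t` pairwise disjoint edges
with pairwise distinct colours -/
def HasRainbow {V : Type} {f : ℕ} (M : Fin f → Finset (Finset V)) (t : ℕ) : Prop :=
  ∃ R : Finset (Finset V), IsMatching R ∧ R.card = t ∧
    ∃ φ : {e // e ∈ R} → Fin f, Injective φ ∧ ∀ e, e.1 ∈ M (φ e)

/-- there is an `(f,t)`-coloured `r`-partite `r`-graph (colour classes `M i`, each a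
`t`-matching; an edge lying in several `M i` is a repeated edge) without a rainbow
`t`-matching -/
def NoRainbow (r t f : ℕ) : Prop :=
  ∃ (V : Type) (_ : Fintype V) (p : V → Fin r) (M : Fin f → Finset (Finset V)),
    (∀ i, ∀ e ∈ M i, IsPartiteEdge p e) ∧ (∀ i, IsMatching (M i)) ∧ (∀ i, (M i).card = t) ∧
      ¬ HasRainbow M t

/-- `f(r,t)`: the supremum (in the extended reals) of the `f` for which some `(f,t)`-coloured
`r`-partite `r`-graph has no rainbow `t`-matching -/
noncomputable def fmax (r t : ℕ) : EReal := ⨆ f ∈ {f : ℕ | NoRainbow r t f}, ((f : ℝ) : EReal)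

section
variable (m q D : ℕ)

/-- labels of the vertices in each class -/
abbrev Lab := (Bool × Option (Fin m × Fin q)) ⊕ Fin D

variable {m q D}

/-- the edge given by a choice of one label in every class -/
noncomputable def edge (u : Fin (m + 1) → Lab m q D) : Finset (Fin (m + 1) × Lab m q D) :=
  univ.image (fun j => (j, u j))

lemma mem_edge (u : Fin (m + 1) → Lab m q D) (v : Fin (m + 1) × Lab m q D) :
    v ∈ edge u ↔ v.2 = u v.1 := by
  simp only [edge, Finset.mem_image, Finset.mem_univ, true_and]
  constructor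
  · rintro ⟨j, rfl⟩; rfl
  · intro h1; exact ⟨v.1, by rw [← h1]⟩

lemma edge_inj {u u' : Fin (m + 1) → Lab m q D} (h : edge u = edge u') : u = u' := by
  funext j
  have : (j, u j) ∈ edge u := (mem_edge u _).2 rfl
  rw [h, mem_edge] at this
  exact this

/-- off edges of the wire `(c,a)` -/
def Loff (s : Bool) (c : Fin m) (a : Fin q) : Fin (m + 1) → Lab m q D :=
  fun _ => Sum.inl (s, some (c, a))

/-- on edges of the wire `(c,a)` -/
def Kon (s : Bool) (c : Fin m) (a : Fin q) : Fin (m + 1) → Lab m q D :=
  Fin.cases (Sum.inl (!s, some (c, a)))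
    (fun c' => if c' = c then Sum.inl (s, none) else Sum.inl (s, some (c, a)))

/-- payload edges -/
def Pay (s : Bool) (b : Fin m → Fin q) : Fin (m + 1) → Lab m q D :=
  Fin.cases (Sum.inl (s, none)) (fun c => Sum.inl (s, some (c, b c)))

/-- the edges of the matching with state `b` -/
def E (b : Fin m → Fin q) : Lab m q D → Fin (m + 1) → Lab m q D
  | Sum.inl (s, none) => Pay s b
  | Sum.inl (s, some (c, a)) => if a = b c then Kon s c a else Loff s c a
  | Sum.inr k => fun _ => Sum.inr k

lemma E_none (b : Fin m → Fin q) (s : Bool) :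
    E (D := D) b (Sum.inl (s, none)) = Pay s b := rfl

lemma E_some (b : Fin m → Fin q) (s : Bool) (c : Fin m) (a : Fin q) :
    E (D := D) b (Sum.inl (s, some (c, a))) = if a = b c then Kon s c a else Loff s c a := rfl

lemma E_inr (b : Fin m → Fin q) (k : Fin D) :
    E b (Sum.inr k) = fun _ => Sum.inr k := rfl

lemma Pay_zero (s : Bool) (b : Fin m → Fin q) :
    Pay (D := D) s b 0 = Sum.inl (s, none) := rfl

lemma Pay_succ (s : Bool) (b : Fin m → Fin q) (c : Fin m) :
    Pay (D := D) s b c.succ = Sum.inl (s, some (c, b c)) := rfl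

lemma Kon_zero (s : Bool) (c : Fin m) (a : Fin q) :
    Kon (D := D) s c a 0 = Sum.inl (!s, some (c, a)) := rfl

lemma Kon_succ (s : Bool) (c : Fin m) (a : Fin q) (c' : Fin m) :
    Kon (D := D) s c a c'.succ =
      if c' = c then Sum.inl (s, none) else Sum.inl (s, some (c, a)) := rfl

lemma E_invol (b : Fin m → Fin q) (j : Fin (m + 1)) :
    Involutive (fun i : Lab m q D => E b i j) := by
  refine Fin.cases ?_ (fun j' => ?_) j
  · rintro (⟨s, _ | ⟨c, a⟩⟩ | k)
    · simp only [E_none, Pay_zero]
    · simp only [E_some]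
      split_ifs with h
      · simp only [Kon_zero, E_some, if_pos h, Bool.not_not]
      · simp only [Loff, E_some, if_neg h]
    · simp only [E_inr]
  · rintro (⟨s, _ | ⟨c, a⟩⟩ | k)
    · simp only [E_none, Pay_succ, E_some, if_true, Kon_succ]
    · simp only [E_some]
      by_cases h : a = b c
      · simp only [if_pos h, Kon_succ]
        by_cases h' : j' = c
        · subst h'
          simp only [if_true, E_none, Pay_succ, h]
        · simp only [if_neg h', E_some, if_pos h, Kon_succ]
      · simp only [if_neg h, Loff, E_some]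
    · simp only [E_inr]

lemma E_inj (b : Fin m → Fin q) (j : Fin (m + 1)) :
    Injective (fun i : Lab m q D => E b i j) := (E_invol b j).injective

/-- the matching with state `b` -/
noncomputable def N (b : Fin m → Fin q) : Finset (Finset (Fin (m + 1) × Lab m q D)) :=
  univ.image (fun i => edge (E b i))

lemma edge_partite (u : Fin (m + 1) → Lab m q D) :
    IsPartiteEdge (Prod.fst : Fin (m + 1) × Lab m q D → Fin (m + 1)) (edge u) := by
  intro j
  refine ⟨(j, u j), ⟨(mem_edge u _).2 rfl, rfl⟩, ?_⟩
  rintro ⟨a, b⟩ ⟨h1, h2⟩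
  have h3 := (mem_edge u _).1 h1
  simp only at h2 h3
  subst h2
  rw [h3]

lemma E_disj (b : Fin m → Fin q) (i i' : Lab m q D) (h : i ≠ i') :
    Disjoint (edge (E b i)) (edge (E b i')) := by
  rw [Finset.disjoint_left]
  intro v h1 h2
  rw [mem_edge] at h1 h2
  exact h (E_inj b v.1 (h1.symm.trans h2))

lemma N_matching (b : Fin m → Fin q) : IsMatching (N (D := D) b) := by
  intro e he f hf hef
  obtain ⟨k, _, rfl⟩ := Finset.mem_image.1 he
  obtain ⟨k', _, rfl⟩ := Finset.mem_image.1 hf
  exact E_disj b k k' (fun h1 => hef (by rw [h1]))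

lemma N_card (b : Fin m → Fin q) : (N (D := D) b).card = 2 * (m * q + 1) + D := by
  unfold N
  rw [Finset.card_image_of_injective, Finset.card_univ]
  · simp only [Fintype.card_sum, Fintype.card_prod, Fintype.card_bool, Fintype.card_option,
      Fintype.card_fin]
  · intro i i' h
    exact E_inj b 0 (congrFun (edge_inj h) 0)

/-- which edges of a state contain a given label, read off coordinatewise -/
lemma exists_of_cover (R : Finset (Finset (Fin (m + 1) × Lab m q D)))
    (hR : IsMatching R) (hcard : R.card = 2 * (m * q + 1) + D)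
    (hsub : ∀ e ∈ R, ∃ (b : Fin m → Fin q) (i : Lab m q D), e = edge (E b i))
    (j : Fin (m + 1)) (l : Lab m q D) :
    ∃ (b : Fin m → Fin q) (i : Lab m q D), edge (E b i) ∈ R ∧ E b i j = l := by
  have hsub' : ∀ e : {e // e ∈ R}, ∃ (u : Fin (m + 1) → Lab m q D), e.1 = edge u := by
    intro e
    obtain ⟨b, i, h⟩ := hsub e.1 e.2
    exact ⟨_, h⟩
  choose u hu using hsub'
  have hinj : Injective (fun e : {e // e ∈ R} => u e j) := by
    intro e e' h
    simp only at h
    by_contra hne
    have h1 := hR e.1 e.2 e'.1 e'.2 (fun h' => hne (Subtype.ext h'))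
    rw [Finset.disjoint_left] at h1
    apply h1 (a := (j, u e j))
    · rw [hu e, mem_edge]
    · rw [hu e', mem_edge]; exact h
  have hbij : Bijective (fun e : {e // e ∈ R} => u e j) := by
    rw [Fintype.bijective_iff_injective_and_card]
    refine ⟨hinj, ?_⟩
    rw [Fintype.card_coe, hcard]
    simp only [Fintype.card_sum, Fintype.card_prod, Fintype.card_bool, Fintype.card_option,
      Fintype.card_fin]
  obtain ⟨e, he⟩ := hbij.surjective l
  obtain ⟨b, i, h⟩ := hsub e.1 e.2
  refine ⟨b, i, h ▸ e.2, ?_⟩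
  have h2 : E b i = u e := edge_inj (h.symm.trans (hu e))
  rw [h2]; exact he

/-- two members of a matching sharing a vertex coincide -/
lemma eq_of_share (R : Finset (Finset (Fin (m + 1) × Lab m q D))) (hR : IsMatching R)
    (u u' : Fin (m + 1) → Lab m q D) (hu : edge u ∈ R) (hu' : edge u' ∈ R) (j : Fin (m + 1))
    (h : u j = u' j) : u = u' := by
  by_contra hne
  have h1 := hR _ hu _ hu' (fun h' => hne (edge_inj h'))
  rw [Finset.disjoint_left] at h1
  apply h1 (a := (j, u j))
  · rw [mem_edge]
  · rw [mem_edge]; exact h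

theorem same_state (hm : 2 ≤ m) (R : Finset (Finset (Fin (m + 1) × Lab m q D)))
    (hR : IsMatching R) (hcard : R.card = 2 * (m * q + 1) + D)
    (hsub : ∀ e ∈ R, ∃ (b : Fin m → Fin q) (i : Lab m q D), e = edge (E b i)) :
    ∃ b : Fin m → Fin q, edge (Pay (D := D) false b) ∈ R ∧ edge (Pay (D := D) true b) ∈ R := by
  -- the payload edges
  have hpay : ∀ s : Bool, ∃ b : Fin m → Fin q, edge (Pay (D := D) s b) ∈ R := by
    intro s
    obtain ⟨b, i, h1, h2⟩ := exists_of_cover R hR hcard hsub 0 (Sum.inl (s, none))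
    rcases i with ⟨s', _ | ⟨c, a⟩⟩ | k
    · rw [E_none, Pay_zero] at h2
      have : s' = s := by simpa using h2
      subst this
      exact ⟨b, h1⟩
    · rw [E_some] at h2
      split_ifs at h2
      · rw [Kon_zero] at h2; simp at h2
      · simp [Loff] at h2
    · simp [E_inr] at h2
  obtain ⟨b, hb⟩ := hpay false
  obtain ⟨b', hb'⟩ := hpay true
  have hbb : b = b' := by
    funext c
    set a := b c with ha
    -- the off edge is not used
    have hL0 : edge (Loff (D := D) false c a) ∉ R := by
      intro h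
      have h1 := eq_of_share R hR _ _ h hb c.succ (by rw [Pay_succ]; rfl)
      have h2 := congrFun h1 0
      rw [Pay_zero] at h2
      simp [Loff] at h2
    -- hence the on edge is used
    have hK1 : edge (Kon (D := D) true c a) ∈ R := by
      obtain ⟨d, i, h1, h2⟩ := exists_of_cover R hR hcard hsub 0 (Sum.inl (false, some (c, a)))
      rcases i with ⟨s', _ | ⟨c', a'⟩⟩ | k
      · rw [E_none, Pay_zero] at h2; simp at h2
      · rw [E_some] at h1 h2
        split_ifs at h1 h2 with h3
        · rw [Kon_zero] at h2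
          simp only [Sum.inl.injEq, Prod.mk.injEq, Option.some.injEq, Bool.not_eq_false'] at h2
          obtain ⟨h4, h5, h6⟩ := h2
          subst h4 h5 h6
          exact h1
        · simp only [Loff, Sum.inl.injEq, Prod.mk.injEq, Option.some.injEq] at h2
          obtain ⟨h4, h5, h6⟩ := h2
          subst h4 h5 h6
          exact absurd h1 hL0
      · simp [E_inr] at h2
    -- hence the other off edge is not used
    obtain ⟨c'', hc''⟩ : ∃ c'' : Fin m, c'' ≠ c := by
      by_cases hc0 : c = ⟨0, by omega⟩
      · exact ⟨⟨1, by omega⟩, by rw [hc0]; simp⟩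
      · exact ⟨⟨0, by omega⟩, fun h => hc0 h.symm⟩
    have hL1 : edge (Loff (D := D) true c a) ∉ R := by
      intro h
      have h1 := eq_of_share R hR _ _ h hK1 c''.succ (by
        rw [Kon_succ, if_neg hc'']; rfl)
      have h2 := congrFun h1 c.succ
      rw [Kon_succ, if_pos rfl] at h2
      simp [Loff] at h2
    -- so the payload edge covers the end of the wire
    obtain ⟨d, i, h1, h2⟩ := exists_of_cover R hR hcard hsub c.succ (Sum.inl (true, some (c, a)))
    rcases i with ⟨s', _ | ⟨c', a'⟩⟩ | k
    · rw [E_none] at h1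
      rw [E_none, Pay_succ] at h2
      simp only [Sum.inl.injEq, Prod.mk.injEq, Option.some.injEq, true_and] at h2
      obtain ⟨h4, h5⟩ := h2
      subst h4
      have h6 := eq_of_share R hR _ _ h1 hb' 0 rfl
      have h7 := congrFun h6 c.succ
      rw [Pay_succ, Pay_succ] at h7
      simp only [Sum.inl.injEq, Prod.mk.injEq, Option.some.injEq, true_and] at h7
      rw [← h7, h5]
    · rw [E_some] at h1 h2
      split_ifs at h1 h2 with h3
      · rw [Kon_succ] at h2
        split_ifs at h2 with h8
        · simp at h2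
        · simp only [Sum.inl.injEq, Prod.mk.injEq, Option.some.injEq] at h2
          obtain ⟨_, h5, _⟩ := h2
          exact absurd h5.symm h8
      · simp only [Loff, Sum.inl.injEq, Prod.mk.injEq, Option.some.injEq] at h2
        obtain ⟨h4, h5, h6⟩ := h2
        subst h4 h5 h6
        exact absurd h1 hL1
    · simp [E_inr] at h2
  rw [← hbb] at hb'
  exact ⟨b, hb, hb'⟩

/-- payload edges are private -/
lemma pay_private (s : Bool) (b b' : Fin m → Fin q)
    (h : edge (Pay (D := D) s b) ∈ N (D := D) b') : b = b' := by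
  obtain ⟨i, _, hi⟩ := Finset.mem_image.1 h
  have h1 := edge_inj hi
  rcases i with ⟨s', _ | ⟨c, a⟩⟩ | k
  · rw [E_none] at h1
    funext c
    have h2 := congrFun h1 c.succ
    rw [Pay_succ, Pay_succ] at h2
    simp only [Sum.inl.injEq, Prod.mk.injEq, Option.some.injEq, true_and] at h2
    exact h2.2.symm
  · exfalso
    have h2 := congrFun h1 0
    rw [Pay_zero, E_some] at h2
    split_ifs at h2
    · rw [Kon_zero] at h2; simp at h2
    · simp [Loff] at h2
  · exfalso
    have h2 := congrFun h1 0
    simp [E_inr, Pay_zero] at h2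

end

theorem noRainbow (m q D : ℕ) (hm : 2 ≤ m) :
    NoRainbow (m + 1) (2 * (m * q + 1) + D) (q ^ m) := by
  have hcardeq : Fintype.card (Fin m → Fin q) = q ^ m := by
    rw [Fintype.card_fun, Fintype.card_fin, Fintype.card_fin]
  let ψ : Fin (q ^ m) ≃ (Fin m → Fin q) := (Fintype.equivFinOfCardEq hcardeq).symm
  refine ⟨Fin (m + 1) × Lab m q D, inferInstance, Prod.fst, fun i => N (ψ i), ?_, ?_, ?_, ?_⟩
  · intro i e he
    obtain ⟨k, _, rfl⟩ := Finset.mem_image.1 he
    exact edge_partite _
  · intro i; exact N_matching _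
  · intro i; exact N_card _
  · rintro ⟨R, hR1, hR2, φ, hφ1, hφ2⟩
    obtain ⟨b, hb0, hb1⟩ := same_state hm R hR1 hR2 (by
      intro e he
      obtain ⟨i, _, hi⟩ := Finset.mem_image.1 (hφ2 ⟨e, he⟩)
      exact ⟨_, i, hi.symm⟩)
    have h0 := pay_private false b _ (hφ2 ⟨_, hb0⟩)
    have h1 := pay_private true b _ (hφ2 ⟨_, hb1⟩)
    have h2 : φ ⟨_, hb0⟩ = φ ⟨_, hb1⟩ := ψ.injective (h0.symm.trans h1)
    have h3 := congrArg Subtype.val (hφ1 h2)
    simp only at h3
    have h4 := congrFun (edge_inj h3) 0
    rw [Pay_zero, Pay_zero] at h4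
    simp at h4

/-- lower bound for all `t` -/
theorem noRainbow' (m t : ℕ) (hm : 2 ≤ m) (ht : 2 ≤ t) :
    NoRainbow (m + 1) t (((t - 2) / (2 * m)) ^ m) := by
  set q := (t - 2) / (2 * m) with hq
  have h1 : 2 * m * q ≤ t - 2 := Nat.mul_div_le _ _
  have h2 : 2 * (m * q + 1) + (t - 2 * (m * q + 1)) = t := by
    have : 2 * (m * q) = 2 * m * q := by ring
    omega
  have h3 := noRainbow m q (t - 2 * (m * q + 1)) hm
  rwa [h2] at h3

lemma le_fmax {r t f : ℕ} (h : NoRainbow r t f) : ((f : ℝ) : EReal) ≤ fmax r t :=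
  le_iSup₂_of_le f h le_rfl

end Pool.Agent.Q264.WireGadget
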